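import Pool.Agent.N666.PS.En
import Pool.Agent.TH935.GF2

set_option autoImplicit false

/-!
Energies of integer families close to the values of a generalised polynomial, and dyadic decomposition.
-/

namespace Pool.Agent.N666.PS

open Finset Filter
open Pool.Agent.TH935.GF (En)

lemma En_le_cl (r : ℕ) {ι : Type} [Fintype ι] (z : ι → ℝ) (v : ι → ℤ) (D : ℝ) (hv : ∀ i, |(v i : ℝ) - z i| ≤ D) :
    En r v ≤ cl r z (2 * r * D) := by
  classical
  unfold En cl
  rw [Nat.card_eq_fintype_card, Fintype.card_subtype]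
  apply card_le_card
  intro p hp
  rw [mem_filter] at hp ⊢
  refine ⟨mem_univ _, ?_⟩
  have h1 : ∀ q : Fin r → ι, |∑ i, z (q i) - ∑ i, (v (q i) : ℝ)| ≤ r * D := by
    intro q
    rw [← sum_sub_distrib]
    refine (abs_sum_le_sum_abs _ _).trans ?_
    calc ∑ i : Fin r, |z (q i) - v (q i)| ≤ ∑ _i : Fin r, D := sum_le_sum fun i _ => by
          rw [abs_sub_comm]; exact hv (q i)
      _ = r * D := by simp
  have h2 : ∑ i, (v (p.1 i) : ℝ) = ∑ i, (v (p.2 i) : ℝ) := by exact_mod_cast hp.2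
  have h3 := abs_le.mp (h1 p.1)
  have h4 := abs_le.mp (h1 p.2)
  rw [abs_le]
  constructor <;> linarith [h3.1, h3.2, h4.1, h4.2]

/-- the energy of integer families -/
theorem energy_int {F : Finset ℝ} {a : ℝ → ℝ} {c : ℝ} (h : GH F a c) :
    ∃ r₀ : ℕ, 1 ≤ r₀ ∧ ∀ r : ℕ, r₀ ≤ r → ∀ D : ℝ, 1 ≤ D → ∃ K : ℝ, 0 < K ∧ ∃ N₀ : ℕ, ∀ N : ℕ, N₀ ≤ N →
      ∀ v : Fin N → ℤ, (∀ i, |(v i : ℝ) - gp F a 0 ((N : ℝ) + (i : ℕ))| ≤ D) →
      (En r v : ℝ) * (N : ℝ) ^ c ≤ K * (N : ℝ) ^ (2 * r) := by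
  obtain ⟨r₀, h1, h2⟩ := energy_main h
  refine ⟨r₀, h1, fun r hr D hD => ?_⟩
  have hr1 : (1 : ℝ) ≤ r := by exact_mod_cast h1.trans hr
  obtain ⟨K, hK, h3⟩ := h2 r hr (2 * r * D) (by nlinarith)
  obtain ⟨X₀, h4⟩ := eventually_atTop.mp h3
  refine ⟨K, hK, ⌈X₀⌉₊ + 1, fun N hN v hv => ?_⟩
  have hNX : X₀ ≤ N := (Nat.le_ceil X₀).trans (by exact_mod_cast (by omega : ⌈X₀⌉₊ ≤ N))
  have hN0 : (0 : ℝ) < N := by exact_mod_cast (by omega : 0 < N)
  have h5 := h4 N hNX N rfl
  have h6 : (En r v : ℝ) ≤ cl r (fun i : Fin N => gp F a 0 ((N : ℝ) + (i : ℕ))) (2 * r * D) := by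
    exact_mod_cast En_le_cl r _ v D hv
  calc (En r v : ℝ) * (N : ℝ) ^ c ≤ (K * (N : ℝ) ^ (2 * r - c)) * (N : ℝ) ^ c := by
        apply mul_le_mul_of_nonneg_right (h6.trans h5) (by positivity)
    _ = K * (N : ℝ) ^ (2 * r) := by
        rw [mul_assoc, ← Real.rpow_add hN0]
        congr 1
        rw [← Real.rpow_natCast]
        congr 1
        push_cast
        ring

/-- dyadic decomposition -/
lemma dyadic (S : ℕ → Prop) [DecidablePred S] (δ : ℝ) (hδ : 0 ≤ δ) (N₁ : ℕ) (hN₁ : 1 ≤ N₁)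
    (h : ∀ N : ℕ, N₁ ≤ N → ((univ.filter (fun i : Fin N => S (N + i))).card : ℝ) ≤ δ * N) (X : ℕ) :
    (((range (X + 1)).filter S).card : ℝ) ≤ 2 * N₁ + 4 * δ * X := by
  induction X using Nat.strong_induction_on with
  | _ X ih =>
    rcases Nat.lt_or_ge X (2 * N₁) with hlt | hge
    · have h1 : ((range (X + 1)).filter S).card ≤ 2 * N₁ := by
        refine (card_filter_le _ _).trans ?_
        rw [card_range]
        omega
      have h2 : (((range (X + 1)).filter S).card : ℝ) ≤ 2 * N₁ := by exact_mod_cast h1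
      have h3 : 0 ≤ 4 * δ * X := by positivity
      linarith
    · have hM := ih (X / 2) (by omega)
      have h2 := h (X / 2 + 1) (by omega)
      have hsub : (range (X + 1)).filter S ⊆ (range (X / 2 + 1)).filter S ∪
          (univ.filter (fun i : Fin (X / 2 + 1) => S (X / 2 + 1 + i))).image (fun i : Fin (X / 2 + 1) => X / 2 + 1 + (i : ℕ)) := by
        intro n hn
        rw [mem_filter, mem_range] at hn
        rw [mem_union, mem_filter, mem_range, mem_image]
        rcases Nat.lt_or_ge n (X / 2 + 1) with h3 | h3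
        · left
          exact ⟨h3, hn.2⟩
        · right
          refine ⟨⟨n - (X / 2 + 1), by omega⟩, ?_, ?_⟩
          · rw [mem_filter]
            refine ⟨mem_univ _, ?_⟩
            simp only
            rw [Nat.add_sub_cancel' h3]
            exact hn.2
          · simp only
            omega
      have h3 : ((range (X + 1)).filter S).card ≤ ((range (X / 2 + 1)).filter S).card +
          (univ.filter (fun i : Fin (X / 2 + 1) => S (X / 2 + 1 + i))).card := by
        refine (card_le_card hsub).trans ((card_union_le _ _).trans ?_)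
        gcongr
        exact card_image_le
      have h4 : (((range (X + 1)).filter S).card : ℝ) ≤ (((range (X / 2 + 1)).filter S).card : ℝ) +
          ((univ.filter (fun i : Fin (X / 2 + 1) => S (X / 2 + 1 + i))).card : ℝ) := by exact_mod_cast h3
      have h5 : 2 * ((X / 2 : ℕ) : ℝ) ≤ X := by exact_mod_cast (by omega : 2 * (X / 2) ≤ X)
      have h6 : (1 : ℝ) ≤ ((X / 2 : ℕ) : ℝ) := by exact_mod_cast (by omega : 1 ≤ X / 2)
      push_cast at h2
      have h7 : δ * (((X / 2 : ℕ) : ℝ) + 1) ≤ δ * (2 * ((X / 2 : ℕ) : ℝ)) := by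
        apply mul_le_mul_of_nonneg_left _ hδ
        linarith
      have h8 : δ * (2 * ((X / 2 : ℕ) : ℝ)) ≤ δ * X := mul_le_mul_of_nonneg_left h5 hδ
      nlinarith

end Pool.Agent.N666.PS
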