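import Pool.Agent.N666.PS.ResMod
import Pool.Agent.Y927.CP.F

set_option autoImplicit false

/-!
Collatz trajectories of all the integers near almost all values of a generalised polynomial.
-/

namespace Pool.Agent.N666.PS

open Finset Filter
open Pool.Agent.Y927.CP (T pv Bad card_Bad modEq_of_pv typ_of Typ scale κ κ_pos κ_lt ratio_pow iter_T)

/-- trivial bound for the values -/
lemma gp_abs1 {F : Finset ℝ} {a : ℝ → ℝ} {c : ℝ} (h : GH F a c) : ∃ D : ℝ, 0 < D ∧ ∀ n : ℕ, 1 ≤ n →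
    gp F a 0 n ≤ D * (n : ℝ) ^ c := by
  refine ⟨∑ x ∈ F, |a x| + 1, by
    have : 0 ≤ ∑ x ∈ F, |a x| := sum_nonneg fun _ _ => abs_nonneg _
    linarith, fun n hn => ?_⟩
  have hn1 : (1 : ℝ) ≤ n := by exact_mod_cast hn
  rw [gp_zero]
  calc ∑ x ∈ F, a x * (n : ℝ) ^ x ≤ ∑ x ∈ F, |a x| * (n : ℝ) ^ c := by
        apply sum_le_sum
        intro x hx
        calc a x * (n : ℝ) ^ x ≤ |a x| * (n : ℝ) ^ x := by
              gcongr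
              exact le_abs_self _
          _ ≤ |a x| * (n : ℝ) ^ c := by
              gcongr
              exact h.max x hx
    _ = (∑ x ∈ F, |a x|) * (n : ℝ) ^ c := by rw [sum_mul]
    _ ≤ _ := by
        gcongr
        linarith

lemma gp_low1 {F : Finset ℝ} {a : ℝ → ℝ} {c : ℝ} (h : GH F a c) : ∃ (lo : ℝ) (n₀ : ℕ), 0 < lo ∧ ∀ n : ℕ, n₀ ≤ n →
    lo * n ≤ gp F a 0 n := by
  obtain ⟨lo, hi, hlo, hhi, h1⟩ := gp_size h 0 (by omega)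
  obtain ⟨X₀, h2⟩ := eventually_atTop.mp h1
  refine ⟨lo, ⌈X₀⌉₊ + 1, hlo, fun n hn => ?_⟩
  have hn1 : (1 : ℝ) ≤ n := by exact_mod_cast (by omega : 1 ≤ n)
  have hnX : X₀ ≤ n := (Nat.le_ceil X₀).trans (by exact_mod_cast (by omega : ⌈X₀⌉₊ ≤ n))
  have h3 := (h2 n hnX n ⟨by linarith, by linarith⟩).1
  refine le_trans ?_ h3
  simp only [Nat.cast_zero, sub_zero]
  gcongr
  conv_lhs => rw [← Real.rpow_one (n : ℝ)]
  exact Real.rpow_le_rpow_of_exponent_le hn1 h.one.le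

/-- the trajectory of `m` is typical -/
def Ty (ε Y : ℝ) (m : ℤ) : Prop := Typ (Polynomial.C m) ε Y 0

theorem col_main {F : Finset ℝ} {a : ℝ → ℝ} {c : ℝ} (h : GH F a c) :
    ∃ η : ℝ, 0 < η ∧ η ≤ 1 / 4 ∧ ∀ ε : ℝ, 0 < ε → ε ≤ 1 → ∃ δ C : ℝ, 0 < δ ∧ δ ≤ 1 / 4 ∧ 0 < C ∧
      ∀ X : ℕ, 1 ≤ X → ∀ A : Finset ℕ, A ⊆ Icc 1 X →
      (∀ n ∈ A, ∃ m : ℤ, |(m : ℝ) - gp F a 0 n| ≤ (X : ℝ) ^ δ ∧
        ¬ ((X : ℝ) ^ (1 / 4 : ℝ) ≤ m ∧ Ty ε ((X : ℝ) ^ η) m)) →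
      (A.card : ℝ) ≤ C * (X : ℝ) ^ (1 - δ) := by
  classical
  obtain ⟨η, K, hη, hη1, hK, h1⟩ := count_res h
  obtain ⟨lo, n₀, hlo, h2⟩ := gp_low1 h
  refine ⟨η, hη, hη1, fun ε hε hε1 => ?_⟩
  obtain ⟨ρ, hρ⟩ : ∃ ρ : ℝ, ρ = ε ^ 2 * η / 128 := ⟨_, rfl⟩
  have hρ0 : 0 < ρ := by rw [hρ]; positivity
  have hρ1 : ρ ≤ 1 / 4 := by
    rw [hρ]
    have : ε ^ 2 ≤ 1 := by nlinarith
    nlinarith
  obtain ⟨X₁, hX₁⟩ : ∃ X₁ : ℝ, X₁ = (2 : ℝ) ^ (2 / (η * ε)) := ⟨_, rfl⟩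
  have hX₁1 : 1 ≤ X₁ := by rw [hX₁]; exact Real.one_le_rpow (by norm_num) (by positivity)
  refine ⟨ρ, X₁ + (n₀ + 2 / lo + 1) + 42 * (1 + 1 / ρ) * K, hρ0, hρ1, by positivity, ?_⟩
  intro X hX A hA hm
  have hX1 : (1 : ℝ) ≤ X := by exact_mod_cast hX
  have hX0 : (0 : ℝ) < X := by linarith
  have hXρ : 0 < (X : ℝ) ^ (1 - ρ) := Real.rpow_pos_of_pos hX0 _
  have hXρ1 : 1 ≤ (X : ℝ) ^ (1 - ρ) := Real.one_le_rpow hX1 (by linarith)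
  have hAX : (A.card : ℝ) ≤ X := by
    have := card_le_card hA
    rw [Nat.card_Icc, Nat.add_sub_cancel] at this
    exact_mod_cast this
  have hA2 : 0 ≤ (n₀ + 2 / lo + 1 : ℝ) := by positivity
  have hA3 : 0 ≤ 42 * (1 + 1 / ρ) * K := by positivity
  rcases lt_or_ge (X : ℝ) X₁ with hsmall | hlarge
  · have e1 : (X : ℝ) = (X : ℝ) ^ ρ * (X : ℝ) ^ (1 - ρ) := by
      rw [← Real.rpow_add hX0]; simp
    have e2 : (X : ℝ) ^ ρ ≤ X₁ := by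
      calc (X : ℝ) ^ ρ ≤ (X : ℝ) ^ (1 : ℝ) := Real.rpow_le_rpow_of_exponent_le hX1 (by linarith)
        _ = X := Real.rpow_one _
        _ ≤ X₁ := hsmall.le
    calc (A.card : ℝ) ≤ X := hAX
      _ = (X : ℝ) ^ ρ * (X : ℝ) ^ (1 - ρ) := e1
      _ ≤ X₁ * (X : ℝ) ^ (1 - ρ) := by gcongr
      _ ≤ _ := by
          gcongr
          linarith
  obtain ⟨Y, hY⟩ : ∃ Y : ℝ, Y = (X : ℝ) ^ η := ⟨_, rfl⟩
  have hY1 : 1 ≤ Y := by rw [hY]; exact Real.one_le_rpow hX1 hη.le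
  have hY0 : 0 < Y := by linarith
  have hYε : 2 ≤ Y ^ (ε / 2) := by
    have e1 : X₁ ^ (η * (ε / 2)) = 2 := by
      rw [hX₁, ← Real.rpow_mul (by norm_num)]
      have : 2 / (η * ε) * (η * (ε / 2)) = 1 := by field_simp
      rw [this, Real.rpow_one]
    calc (2 : ℝ) = X₁ ^ (η * (ε / 2)) := e1.symm
      _ ≤ (X : ℝ) ^ (η * (ε / 2)) := Real.rpow_le_rpow (by linarith) hlarge (by positivity)
      _ = Y ^ (ε / 2) := by rw [hY, ← Real.rpow_mul hX0.le]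
  have hY2 : 2 ≤ Y := by
    refine hYε.trans ?_
    conv_rhs => rw [← Real.rpow_one Y]
    exact Real.rpow_le_rpow_of_exponent_le hY1 (by linarith)
  obtain ⟨k, hk1, hk2, _⟩ := scale Y hY1
  have hk : 1 ≤ k := by
    by_contra h0
    have : k = 0 := by omega
    rw [this] at hk2
    norm_num at hk2
    linarith
  have h2k : (0 : ℝ) < 2 ^ k := by positivity
  -- the size of `k`
  have hlogY : Real.log Y = η * Real.log X := by rw [hY, Real.log_rpow hX0]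
  have hl2 := Real.log_two_gt_d9
  have hl2' := Real.log_two_lt_d9
  have hkup : (k : ℝ) + 1 ≤ 1 + Real.log X := by
    have e1 : (k : ℝ) * Real.log 2 ≤ Real.log Y := by
      rw [← Real.log_pow]
      exact Real.log_le_log h2k hk1
    have e2 : 0 ≤ Real.log X := Real.log_nonneg hX1
    have e3 : (0 : ℝ) ≤ k := Nat.cast_nonneg _
    rw [hlogY] at e1
    nlinarith
  have hklow : η * Real.log X ≤ k + 1 := by
    have e1 : Real.log Y ≤ ((k + 1 : ℕ) : ℝ) * Real.log 2 := by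
      rw [← Real.log_pow]
      exact Real.log_le_log hY0 hk2.le
    have e3 : (0 : ℝ) ≤ k := Nat.cast_nonneg _
    rw [hlogY] at e1
    push_cast at e1
    nlinarith
  have hkρ : (k : ℝ) + 1 ≤ (1 + 1 / ρ) * (X : ℝ) ^ ρ := by
    have h3 := Real.log_le_rpow_div hX0.le hρ0
    have h4 : (1 : ℝ) ≤ (X : ℝ) ^ ρ := Real.one_le_rpow hX1 hρ0.le
    have h5 : (X : ℝ) ^ ρ / ρ = 1 / ρ * (X : ℝ) ^ ρ := by ring
    rw [h5] at h3
    nlinarith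
  have hBad : ((Bad k (ε * k / 4)).card : ℝ) ≤ 2 * (k + 1) * (2 ^ k * (3 * (X : ℝ) ^ (-(4 * ρ)))) := by
    have e1 := card_Bad hk (lam := ε * k / 4) (by positivity)
    refine e1.trans ?_
    have hk0 : (0 : ℝ) < k := by exact_mod_cast hk
    have e2 : Real.exp (-((ε * k / 4) ^ 2 / (2 * k))) ≤ 3 * (X : ℝ) ^ (-(4 * ρ)) := by
      have e3 : (ε * k / 4) ^ 2 / (2 * k) = ε ^ 2 * k / 32 := by
        field_simp
        ring
      rw [e3, Real.rpow_def_of_pos hX0]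
      have e4 : -(ε ^ 2 * k / 32) ≤ 1 + Real.log X * (-(4 * ρ)) := by
        rw [hρ]
        have e5 : ε ^ 2 ≤ 1 := by nlinarith
        have e6 : 0 ≤ ε ^ 2 := by positivity
        nlinarith [mul_nonneg e6 (by linarith : 0 ≤ (k : ℝ) + 1 - η * Real.log X)]
      calc Real.exp (-(ε ^ 2 * k / 32)) ≤ Real.exp (1 + Real.log X * (-(4 * ρ))) := Real.exp_le_exp.2 e4
        _ = Real.exp 1 * Real.exp (Real.log X * (-(4 * ρ))) := Real.exp_add _ _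
        _ ≤ 3 * Real.exp (Real.log X * (-(4 * ρ))) := by
            gcongr
            linarith [Real.exp_one_lt_d9]
    gcongr
  -- the small `n`
  obtain ⟨A₁, hA₁⟩ : ∃ A₁ : Finset ℕ, A₁ = A.filter (fun n => n < n₀ ∨ (n : ℝ) < 2 / lo * (X : ℝ) ^ (1 / 4 : ℝ)) := ⟨_, rfl⟩
  obtain ⟨A₂, hA₂⟩ : ∃ A₂ : Finset ℕ, A₂ = A.filter (fun n => ¬ (n < n₀ ∨ (n : ℝ) < 2 / lo * (X : ℝ) ^ (1 / 4 : ℝ))) := ⟨_, rfl⟩
  have hcard : A.card = A₁.card + A₂.card := by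
    rw [hA₁, hA₂]
    exact (card_filter_add_card_filter_not _).symm
  have hX4 : 1 ≤ (X : ℝ) ^ (1 / 4 : ℝ) := Real.one_le_rpow hX1 (by norm_num)
  have hX4ρ : (X : ℝ) ^ (1 / 4 : ℝ) ≤ (X : ℝ) ^ (1 - ρ) := Real.rpow_le_rpow_of_exponent_le hX1 (by linarith)
  have hc1 : (A₁.card : ℝ) ≤ (n₀ + 2 / lo + 1) * (X : ℝ) ^ (1 - ρ) := by
    have e1 : A₁ ⊆ range (n₀ + ⌈2 / lo * (X : ℝ) ^ (1 / 4 : ℝ)⌉₊) := by
      intro n hn
      rw [hA₁, mem_filter] at hn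
      rw [mem_range]
      rcases hn.2 with h3 | h3
      · omega
      · have h4 : (n : ℝ) < ⌈2 / lo * (X : ℝ) ^ (1 / 4 : ℝ)⌉₊ := h3.trans_le (Nat.le_ceil _)
        have h5 : n < ⌈2 / lo * (X : ℝ) ^ (1 / 4 : ℝ)⌉₊ := by exact_mod_cast h4
        omega
    have e2 := card_le_card e1
    rw [card_range] at e2
    have e3 : (A₁.card : ℝ) ≤ n₀ + ⌈2 / lo * (X : ℝ) ^ (1 / 4 : ℝ)⌉₊ := by exact_mod_cast e2
    have e4 := Nat.ceil_lt_add_one (by positivity : 0 ≤ 2 / lo * (X : ℝ) ^ (1 / 4 : ℝ))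
    have e5 : (n₀ : ℝ) ≤ n₀ * (X : ℝ) ^ (1 - ρ) := le_mul_of_one_le_right (Nat.cast_nonneg _) hXρ1
    have e6 : 2 / lo * (X : ℝ) ^ (1 / 4 : ℝ) ≤ 2 / lo * (X : ℝ) ^ (1 - ρ) := by gcongr
    calc (A₁.card : ℝ) ≤ n₀ * (X : ℝ) ^ (1 - ρ) + 2 / lo * (X : ℝ) ^ (1 - ρ) + (X : ℝ) ^ (1 - ρ) := by linarith
      _ = _ := by ring
  -- the shifts
  have hXρ' : 1 ≤ (X : ℝ) ^ ρ := Real.one_le_rpow hX1 hρ0.le
  obtain ⟨Q, hQ⟩ : ∃ Q : ℕ, Q = ⌈(X : ℝ) ^ ρ⌉₊ + 1 := ⟨_, rfl⟩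
  have hQ1 : (X : ℝ) ^ ρ + 1 ≤ Q := by rw [hQ]; push_cast; linarith [Nat.le_ceil ((X : ℝ) ^ ρ)]
  have hQ2 : 2 * (Q : ℝ) + 1 ≤ 7 * (X : ℝ) ^ ρ := by
    have : (Q : ℝ) ≤ (X : ℝ) ^ ρ + 2 := by
      rw [hQ]; push_cast
      linarith [Nat.ceil_lt_add_one (by linarith : 0 ≤ (X : ℝ) ^ ρ)]
    linarith
  have hpiece : ∀ τ : ℤ, ∀ v : Fin k → Bool, ((A.filter (fun n : ℕ => 0 < ⌊gp F a 0 (n : ℝ)⌋ + τ ∧
      pv k (⌊gp F a 0 (n : ℝ)⌋ + τ).toNat = v)).card : ℝ) ≤ K * X / 2 ^ k := by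
    intro τ v
    rcases (A.filter (fun n : ℕ => 0 < ⌊gp F a 0 (n : ℝ)⌋ + τ ∧
      pv k (⌊gp F a 0 (n : ℝ)⌋ + τ).toNat = v)).eq_empty_or_nonempty with h0 | ⟨n₁, hn₁⟩
    · rw [h0, card_empty, Nat.cast_zero]
      positivity
    · rw [le_div_iff₀ h2k]
      apply h1 X hX k (by rw [← hY]; exact hk1) ⌊gp F a 0 (n₁ : ℝ)⌋ _ ((filter_subset _ _).trans hA)
      intro n hn
      rw [mem_filter] at hn hn₁
      have e1 := modEq_of_pv (hn.2.2.trans hn₁.2.2.symm)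
      have e2 : (((⌊gp F a 0 (n : ℝ)⌋ + τ).toNat : ℕ) : ℤ) ≡ (((⌊gp F a 0 (n₁ : ℝ)⌋ + τ).toNat : ℕ) : ℤ) [ZMOD ((2 ^ k : ℕ) : ℤ)] :=
        (Int.natCast_modEq_iff).2 e1
      rw [Int.toNat_of_nonneg hn.2.1.le, Int.toNat_of_nonneg hn₁.2.1.le] at e2
      have e3 := e2.symm.dvd
      push_cast at e3
      have e4 : ⌊gp F a 0 (n : ℝ)⌋ + τ - (⌊gp F a 0 (n₁ : ℝ)⌋ + τ) = ⌊gp F a 0 (n : ℝ)⌋ - ⌊gp F a 0 (n₁ : ℝ)⌋ := by ring
      rw [e4] at e3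
      exact e3
  have hsub : A₂ ⊆ (Icc (-(Q : ℤ)) Q).biUnion (fun τ => (Bad k (ε * k / 4)).biUnion (fun v =>
      A.filter (fun n : ℕ => 0 < ⌊gp F a 0 (n : ℝ)⌋ + τ ∧ pv k (⌊gp F a 0 (n : ℝ)⌋ + τ).toNat = v))) := by
    intro n hn
    rw [hA₂, mem_filter] at hn
    obtain ⟨hnA, hn2⟩ := hn
    push Not at hn2
    obtain ⟨m, hm1, hm2⟩ := hm n hnA
    have g1 := h2 n hn2.1
    have g2 : 2 * (X : ℝ) ^ (1 / 4 : ℝ) ≤ lo * n := by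
      have := hn2.2
      calc 2 * (X : ℝ) ^ (1 / 4 : ℝ) = lo * (2 / lo * (X : ℝ) ^ (1 / 4 : ℝ)) := by field_simp
        _ ≤ lo * n := by gcongr
    have g3 : (X : ℝ) ^ ρ ≤ (X : ℝ) ^ (1 / 4 : ℝ) := Real.rpow_le_rpow_of_exponent_le hX1 hρ1
    have g4 := abs_le.mp hm1
    have g5 : (X : ℝ) ^ (1 / 4 : ℝ) ≤ m := by linarith [g4.1]
    have g6 : (0 : ℝ) < m := by linarith
    have g7 : 0 < m := by exact_mod_cast g6
    have g8 := Int.floor_le (gp F a 0 (n : ℝ))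
    have g9 := Int.lt_floor_add_one (gp F a 0 (n : ℝ))
    have e0 : ⌊gp F a 0 (n : ℝ)⌋ + (m - ⌊gp F a 0 (n : ℝ)⌋) = m := by ring
    rw [mem_biUnion]
    refine ⟨m - ⌊gp F a 0 (n : ℝ)⌋, ?_, ?_⟩
    · rw [mem_Icc]
      have g10 : ((m - ⌊gp F a 0 (n : ℝ)⌋ : ℤ) : ℝ) = (m : ℝ) - (⌊gp F a 0 (n : ℝ)⌋ : ℝ) := by push_cast; ring
      constructor
      · have : ((-(Q : ℤ) : ℤ) : ℝ) ≤ ((m - ⌊gp F a 0 (n : ℝ)⌋ : ℤ) : ℝ) := by
          rw [g10]; push_cast; linarith [g4.1]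
        exact_mod_cast this
      · have : ((m - ⌊gp F a 0 (n : ℝ)⌋ : ℤ) : ℝ) ≤ ((Q : ℤ) : ℝ) := by
          rw [g10]; push_cast; linarith [g4.2]
        exact_mod_cast this
    · rw [mem_biUnion]
      refine ⟨pv k m.toNat, ?_, ?_⟩
      · by_contra hnb
        apply hm2
        refine ⟨g5, ?_⟩
        unfold Ty
        rw [← hY]
        apply typ_of hε hk1 hk2 hYε hY1
        · rw [Polynomial.eval_C]
          refine le_trans ?_ g5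
          calc Y ^ (1 - ε / 4) ≤ Y ^ (1 : ℝ) := Real.rpow_le_rpow_of_exponent_le hY1 (by linarith)
            _ = Y := Real.rpow_one _
            _ ≤ (X : ℝ) ^ (1 / 4 : ℝ) := by
                rw [hY]
                exact Real.rpow_le_rpow_of_exponent_le hX1 hη1
        · rw [Polynomial.eval_C]
          exact hnb
      · rw [mem_filter, e0]
        exact ⟨hnA, g7, rfl⟩
  have hc2 : (A₂.card : ℝ) ≤ (2 * Q + 1) * ((Bad k (ε * k / 4)).card * (K * X / 2 ^ k)) := by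
    have e1 : A₂.card ≤ ∑ τ ∈ Icc (-(Q : ℤ)) Q, ∑ v ∈ Bad k (ε * k / 4),
        (A.filter (fun n : ℕ => 0 < ⌊gp F a 0 (n : ℝ)⌋ + τ ∧ pv k (⌊gp F a 0 (n : ℝ)⌋ + τ).toNat = v)).card := by
      refine (card_le_card hsub).trans (card_biUnion_le.trans (sum_le_sum fun τ _ => card_biUnion_le))
    have e2 : (A₂.card : ℝ) ≤ ∑ τ ∈ Icc (-(Q : ℤ)) Q, ∑ v ∈ Bad k (ε * k / 4),
        ((A.filter (fun n : ℕ => 0 < ⌊gp F a 0 (n : ℝ)⌋ + τ ∧ pv k (⌊gp F a 0 (n : ℝ)⌋ + τ).toNat = v)).card : ℝ) := by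
      exact_mod_cast e1
    refine e2.trans ((sum_le_sum fun τ _ => sum_le_sum fun v _ => hpiece τ v).trans (le_of_eq ?_))
    rw [sum_const, sum_const, Int.card_Icc, nsmul_eq_mul, nsmul_eq_mul]
    have h9 : ((Q : ℤ) + 1 - -(Q : ℤ)).toNat = 2 * Q + 1 := by omega
    rw [h9]
    push_cast
    ring
  have hc3 : (A₂.card : ℝ) ≤ 42 * (1 + 1 / ρ) * K * (X : ℝ) ^ (1 - ρ) := by
    have e5 : (X : ℝ) ^ ρ * (X : ℝ) ^ ρ * (X : ℝ) ^ (-(4 * ρ)) * X ≤ (X : ℝ) ^ (1 - ρ) := by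
      have : (X : ℝ) ^ ρ * (X : ℝ) ^ ρ * (X : ℝ) ^ (-(4 * ρ)) * X = (X : ℝ) ^ (1 - 2 * ρ) := by
        rw [← Real.rpow_add hX0, ← Real.rpow_add hX0, ← Real.rpow_add_one hX0.ne']
        congr 1
        ring
      rw [this]
      exact Real.rpow_le_rpow_of_exponent_le hX1 (by linarith)
    calc (A₂.card : ℝ) ≤ (2 * Q + 1) * ((Bad k (ε * k / 4)).card * (K * X / 2 ^ k)) := hc2
      _ ≤ (7 * (X : ℝ) ^ ρ) * ((2 * ((1 + 1 / ρ) * (X : ℝ) ^ ρ) * (2 ^ k * (3 * (X : ℝ) ^ (-(4 * ρ))))) * (K * X / 2 ^ k)) := by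
          gcongr
          refine hBad.trans ?_
          gcongr
      _ = 42 * (1 + 1 / ρ) * K * ((X : ℝ) ^ ρ * (X : ℝ) ^ ρ * (X : ℝ) ^ (-(4 * ρ)) * X) := by
          field_simp
          ring
      _ ≤ _ := by gcongr
  calc (A.card : ℝ) = A₁.card + A₂.card := by rw [hcard]; push_cast; rfl
    _ ≤ (n₀ + 2 / lo + 1) * (X : ℝ) ^ (1 - ρ) + 42 * (1 + 1 / ρ) * K * (X : ℝ) ^ (1 - ρ) := add_le_add hc1 hc3
    _ ≤ _ := by
        have : 0 ≤ X₁ * (X : ℝ) ^ (1 - ρ) := by positivity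
        linarith

/-- a typical trajectory falls -/
theorem falls_of {η ε σ D c X : ℝ} {m : ℤ} (hη : 0 < η) (hη1 : η ≤ 1 / 4) (hc : 1 < c)
    (hσ0 : 0 < σ) (hσ : c * σ < κ * η) (hε : 0 < ε) (hεσ : η * ε ≤ (κ * η - c * σ) / 2)
    (hX : 1 < X) (hD : 1 ≤ D) (hXD : 4 * D ≤ X ^ ((κ * η - c * σ) / 4)) (hm : X ^ (1 / 4 : ℝ) ≤ m) (hmD : (m : ℝ) ≤ D * X ^ c)
    (hty : Ty ε (X ^ η) m) : 0 < m ∧ ∃ k : ℕ, Pool.Agent.Y927.CP.Col^[k] m.toNat < m.toNat ∧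
      (Pool.Agent.Y927.CP.Col^[k] m.toNat : ℝ) ≤ (m : ℝ) ^ (1 - σ) := by
  have hX0 : 0 < X := by linarith
  have hX1 : 1 ≤ X := hX.le
  have hκ := κ_pos
  have hκ1 := κ_lt
  have hσ1 : σ ≤ 1 := by
    have e1 : 1 * σ ≤ c * σ := mul_le_mul_of_nonneg_right hc.le hσ0.le
    have e2 : κ * η ≤ 1 * (1 / 4) := mul_le_mul hκ1.le hη1 hη.le zero_le_one
    linarith
  obtain ⟨Y, hY⟩ : ∃ Y : ℝ, Y = X ^ η := ⟨_, rfl⟩
  rw [← hY] at hty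
  have hY1 : 1 ≤ Y := by rw [hY]; exact Real.one_le_rpow hX1 hη.le
  have hY0 : 0 < Y := by linarith
  obtain ⟨k, hk1, hk2, _⟩ := scale Y hY1
  have h2k : (0 : ℝ) < 2 ^ k := by positivity
  unfold Ty Typ at hty
  rw [Polynomial.eval_C] at hty
  obtain ⟨hm0, h1⟩ := hty
  have h2 := (h1 k hk1).2
  have hmr : (1 : ℝ) < m := by
    have : (1 : ℝ) < X ^ (1 / 4 : ℝ) := Real.one_lt_rpow hX (by norm_num)
    linarith
  have hm00 : (0 : ℝ) < m := by linarith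
  have hT : (T^[k] m.toNat : ℝ) ≤ (m : ℝ) ^ (1 - σ) := by
    have e1 : (√3 / 2 : ℝ) ^ k ≤ 2 * Y ^ (-κ) := by
      rw [ratio_pow]
      have e2 : Y / 2 ≤ 2 ^ k := by
        rw [pow_succ] at hk2
        linarith
      calc ((2 : ℝ) ^ k) ^ (-κ) ≤ (Y / 2) ^ (-κ) := Real.rpow_le_rpow_of_nonpos (by positivity) e2 (by linarith)
        _ = 2 ^ κ * Y ^ (-κ) := by
            rw [Real.div_rpow hY0.le (by norm_num), Real.rpow_neg (by norm_num : (0 : ℝ) ≤ 2), div_inv_eq_mul, mul_comm]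
        _ ≤ 2 ^ (1 : ℝ) * Y ^ (-κ) := by
            gcongr
            norm_num
        _ = 2 * Y ^ (-κ) := by rw [Real.rpow_one]
    have e3 : (m : ℝ) ^ σ ≤ D * X ^ (c * σ) := by
      calc (m : ℝ) ^ σ ≤ (D * X ^ c) ^ σ := Real.rpow_le_rpow hm00.le hmD hσ0.le
        _ = D ^ σ * X ^ (c * σ) := by
            rw [Real.mul_rpow (by linarith) (by positivity), ← Real.rpow_mul hX0.le]
        _ ≤ D ^ (1 : ℝ) * X ^ (c * σ) := by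
            gcongr
        _ = D * X ^ (c * σ) := by rw [Real.rpow_one]
    have e4 : (m : ℝ) = (m : ℝ) ^ (1 - σ) * (m : ℝ) ^ σ := by
      rw [← Real.rpow_add hm00]; simp
    have e5 : Y ^ ε * (2 * Y ^ (-κ)) * (D * X ^ (c * σ)) ≤ 1 := by
      have e6 : Y ^ ε * Y ^ (-κ) * X ^ (c * σ) ≤ X ^ (-((κ * η - c * σ) / 2)) := by
        rw [hY, ← Real.rpow_mul hX0.le, ← Real.rpow_mul hX0.le, ← Real.rpow_add hX0, ← Real.rpow_add hX0]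
        apply Real.rpow_le_rpow_of_exponent_le hX1
        linarith
      have e7 : X ^ (-((κ * η - c * σ) / 2)) * X ^ ((κ * η - c * σ) / 4) ≤ 1 := by
        rw [← Real.rpow_add hX0]
        apply Real.rpow_le_one_of_one_le_of_nonpos hX1
        linarith
      have hp : 0 < X ^ (-((κ * η - c * σ) / 2)) := Real.rpow_pos_of_pos hX0 _
      calc Y ^ ε * (2 * Y ^ (-κ)) * (D * X ^ (c * σ)) = (2 * D) * (Y ^ ε * Y ^ (-κ) * X ^ (c * σ)) := by ring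
        _ ≤ (4 * D) * X ^ (-((κ * η - c * σ) / 2)) := by
            have : 2 * D ≤ 4 * D := by linarith
            gcongr
        _ ≤ X ^ ((κ * η - c * σ) / 4) * X ^ (-((κ * η - c * σ) / 2)) := by gcongr
        _ ≤ 1 := by rw [mul_comm]; exact e7
    have hms : 0 < (m : ℝ) ^ (1 - σ) := Real.rpow_pos_of_pos hm00 _
    calc (T^[k] m.toNat : ℝ) ≤ Y ^ ε * (√3 / 2) ^ k * m := h2
      _ ≤ Y ^ ε * (2 * Y ^ (-κ)) * m := by gcongr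
      _ = (m : ℝ) ^ (1 - σ) * (Y ^ ε * (2 * Y ^ (-κ)) * (m : ℝ) ^ σ) := by
          conv_lhs => rw [e4]
          ring
      _ ≤ (m : ℝ) ^ (1 - σ) * (Y ^ ε * (2 * Y ^ (-κ)) * (D * X ^ (c * σ))) := by gcongr
      _ ≤ (m : ℝ) ^ (1 - σ) * 1 := by gcongr
      _ = _ := mul_one _
  obtain ⟨o, ho⟩ := iter_T k m.toNat
  refine ⟨hm0, o, ?_, ?_⟩
  · rw [← ho]
    have e1 : (m : ℝ) ^ (1 - σ) < m := by
      conv_rhs => rw [← Real.rpow_one (m : ℝ)]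
      exact Real.rpow_lt_rpow_of_exponent_lt hmr (by linarith)
    have e2 : ((m.toNat : ℕ) : ℝ) = m := by
      have := Int.toNat_of_nonneg hm0.le
      exact_mod_cast this
    have e3 : (T^[k] m.toNat : ℝ) < (m.toNat : ℝ) := by rw [e2]; linarith
    exact_mod_cast e3
  · rw [← ho]
    exact hT

/-- **All the integers near almost all values fall.** -/
theorem col_falls {F : Finset ℝ} {a : ℝ → ℝ} {c : ℝ} (h : GH F a c) (η : ℝ) (hη : 0 < η) (hη1 : η ≤ 1 / 4)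
    (hmain : ∀ ε : ℝ, 0 < ε → ε ≤ 1 → ∃ δ C : ℝ, 0 < δ ∧ δ ≤ 1 / 4 ∧ 0 < C ∧
      ∀ X : ℕ, 1 ≤ X → ∀ A : Finset ℕ, A ⊆ Icc 1 X →
      (∀ n ∈ A, ∃ m : ℤ, |(m : ℝ) - gp F a 0 n| ≤ (X : ℝ) ^ δ ∧
        ¬ ((X : ℝ) ^ (1 / 4 : ℝ) ≤ m ∧ Ty ε ((X : ℝ) ^ η) m)) →
      (A.card : ℝ) ≤ C * (X : ℝ) ^ (1 - δ)) (σ : ℝ) (hσ0 : 0 < σ) (hσ : c * σ < κ * η) :
    ∃ δ C : ℝ, 0 < δ ∧ 0 < C ∧ ∀ X : ℕ, 1 ≤ X → ∀ A : Finset ℕ, A ⊆ Icc 1 X →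
      (∀ n ∈ A, ∃ m : ℤ, |(m : ℝ) - gp F a 0 n| ≤ (X : ℝ) ^ δ ∧
        ¬ (0 < m ∧ ∃ k : ℕ, Pool.Agent.Y927.CP.Col^[k] m.toNat < m.toNat ∧
          (Pool.Agent.Y927.CP.Col^[k] m.toNat : ℝ) ≤ (m : ℝ) ^ (1 - σ))) →
      (A.card : ℝ) ≤ C * (X : ℝ) ^ (1 - δ) := by
  have hc := h.one
  obtain ⟨D, hD, hD2⟩ := gp_abs1 h
  obtain ⟨β, hβ⟩ : ∃ β : ℝ, β = κ * η - c * σ := ⟨_, rfl⟩
  have hβ0 : 0 < β := by rw [hβ]; linarith
  obtain ⟨ε, hε⟩ : ∃ ε : ℝ, ε = min 1 (β / 2) := ⟨_, rfl⟩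
  have hε0 : 0 < ε := by rw [hε]; exact lt_min one_pos (by linarith)
  have hε1 : ε ≤ 1 := by rw [hε]; exact min_le_left _ _
  have hε2 : ε ≤ β / 2 := by rw [hε]; exact min_le_right _ _
  obtain ⟨δ, C, hδ, hδ1, hC, h1⟩ := hmain ε hε0 hε1
  obtain ⟨X₁, hX₁⟩ : ∃ X₁ : ℝ, X₁ = (4 * (D + 1)) ^ (4 / β) := ⟨_, rfl⟩
  have hX₁1 : 1 < X₁ := by rw [hX₁]; exact Real.one_lt_rpow (by linarith) (by positivity)
  refine ⟨δ, X₁ + C, hδ, by positivity, fun X hX A hA hm => ?_⟩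
  have hX1 : (1 : ℝ) ≤ X := by exact_mod_cast hX
  have hX0 : (0 : ℝ) < X := by linarith
  have hXδ : 0 < (X : ℝ) ^ (1 - δ) := Real.rpow_pos_of_pos hX0 _
  rcases lt_or_ge (X : ℝ) X₁ with hsmall | hlarge
  · have hAX : (A.card : ℝ) ≤ X := by
      have := card_le_card hA
      rw [Nat.card_Icc, Nat.add_sub_cancel] at this
      exact_mod_cast this
    have e1 : (X : ℝ) = (X : ℝ) ^ δ * (X : ℝ) ^ (1 - δ) := by
      rw [← Real.rpow_add hX0]; simp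
    have e2 : (X : ℝ) ^ δ ≤ X₁ := by
      calc (X : ℝ) ^ δ ≤ (X : ℝ) ^ (1 : ℝ) := Real.rpow_le_rpow_of_exponent_le hX1 (by linarith)
        _ = X := Real.rpow_one _
        _ ≤ X₁ := hsmall.le
    calc (A.card : ℝ) ≤ X := hAX
      _ = (X : ℝ) ^ δ * (X : ℝ) ^ (1 - δ) := e1
      _ ≤ X₁ * (X : ℝ) ^ (1 - δ) := by gcongr
      _ ≤ _ := by
          gcongr
          linarith
  · have hkey := h1 X hX A hA (fun n hn => by
      obtain ⟨m, hm1, hm2⟩ := hm n hn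
      refine ⟨m, hm1, fun hcon => hm2 ?_⟩
      have hn1 := mem_Icc.mp (hA hn)
      have hnX : (n : ℝ) ≤ X := by exact_mod_cast hn1.2
      refine falls_of (D := D + 1) (c := c) hη hη1 hc hσ0 hσ hε0 ?_ (hX₁1.trans_le hlarge) (by linarith) ?_ hcon.1 ?_ hcon.2
      · rw [← hβ]
        calc η * ε ≤ 1 * ε := by gcongr; linarith
          _ ≤ β / 2 := by linarith
      · rw [← hβ]
        have e1 : X₁ ^ (β / 4) = 4 * (D + 1) := by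
          rw [hX₁, ← Real.rpow_mul (by positivity)]
          have : 4 / β * (β / 4) = 1 := by field_simp
          rw [this, Real.rpow_one]
        calc 4 * (D + 1) = X₁ ^ (β / 4) := e1.symm
          _ ≤ (X : ℝ) ^ (β / 4) := Real.rpow_le_rpow (by linarith) hlarge (by positivity)
      · have g1 := (abs_le.mp hm1).2
        have g2 := hD2 n hn1.1
        have g3 : (n : ℝ) ^ c ≤ (X : ℝ) ^ c := Real.rpow_le_rpow (by positivity) hnX (by linarith)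
        have g4 : (X : ℝ) ^ δ ≤ (X : ℝ) ^ c := Real.rpow_le_rpow_of_exponent_le hX1 (by linarith)
        calc (m : ℝ) ≤ D * (n : ℝ) ^ c + (X : ℝ) ^ δ := by linarith
          _ ≤ D * (X : ℝ) ^ c + (X : ℝ) ^ c := by gcongr
          _ = (D + 1) * (X : ℝ) ^ c := by ring)
    refine hkey.trans ?_
    gcongr
    linarith

end Pool.Agent.N666.PS
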