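import Mathlib

set_option autoImplicit false

/-!
From an inequality of the van der Corput type to a power saving.
-/

namespace Pool.Agent.N666.PS

open Filter

lemma ev_pow (a b C : ℝ) (h : a < b) : ∀ᶠ M : ℝ in atTop, C * M ^ a ≤ M ^ b := by
  have h1 : Tendsto (fun M : ℝ => M ^ (b - a)) atTop atTop := tendsto_rpow_atTop (by linarith)
  filter_upwards [h1.eventually_ge_atTop C, eventually_gt_atTop 0] with M hM hM0
  have h2 : 0 < M ^ a := Real.rpow_pos_of_pos hM0 a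
  calc C * M ^ a ≤ M ^ (b - a) * M ^ a := mul_le_mul_of_nonneg_right hM h2.le
    _ = M ^ b := by rw [← Real.rpow_add hM0]; congr 1; ring

lemma ev_log (j : ℕ) (ε : ℝ) (hε : 0 < ε) : ∀ᶠ M : ℝ in atTop, (1 + Real.log M) ^ j ≤ M ^ ε := by
  have hs : 0 < ε / (j + 1) := by positivity
  have h1 := (isLittleO_log_rpow_atTop hs).bound (show (0 : ℝ) < 1 / 2 by norm_num)
  have h2 : ∀ᶠ M : ℝ in atTop, 2 ≤ M ^ (ε / (j + 1)) := (tendsto_rpow_atTop hs).eventually_ge_atTop 2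
  filter_upwards [h1, h2, eventually_ge_atTop (1 : ℝ)] with M h1 h2 h3
  have h4 : 0 ≤ Real.log M := Real.log_nonneg h3
  rw [Real.norm_eq_abs, abs_of_nonneg h4, Real.norm_eq_abs, abs_of_nonneg (by positivity)] at h1
  have h5 : 1 + Real.log M ≤ M ^ (ε / (j + 1)) := by linarith
  calc (1 + Real.log M) ^ j ≤ (M ^ (ε / (j + 1))) ^ j := pow_le_pow_left₀ (by linarith) h5 j
    _ = M ^ (ε / (j + 1) * j) := by rw [← Real.rpow_natCast, ← Real.rpow_mul (by linarith)]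
    _ ≤ M ^ ε := by
        apply Real.rpow_le_rpow_of_exponent_le h3
        rw [div_mul_eq_mul_div, div_le_iff₀ (by positivity)]
        nlinarith

lemma root_le (x y : ℝ) (k : ℕ) (hx : 0 ≤ x) (h : x ^ (2 ^ k) ≤ y) : x ≤ y ^ ((1 : ℝ) / 2 ^ k) := by
  have h1 : x = (x ^ (2 ^ k)) ^ ((1 : ℝ) / 2 ^ k) := by
    rw [← Real.rpow_natCast, ← Real.rpow_mul hx]
    push_cast
    rw [mul_one_div_cancel (by positivity), Real.rpow_one]
  rw [h1]
  exact Real.rpow_le_rpow (by positivity) h (by positivity)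

/-- The power saving. -/
lemma core (j : ℕ) (hj : 1 ≤ j) (lo hi δ Cj : ℝ) (hlo : 0 < lo) (hhi : 0 < hi) (hδ : 0 < δ)
    (hδ1 : δ ≤ 1 / 2) (hC : 0 ≤ Cj) :
    ∃ η : ℝ, 0 < η ∧ ∀ᶠ X : ℝ in atTop, ∀ lam : ℝ, X ^ (-1 - δ) ≤ lam → lam ≤ X ^ (-δ) →
      ∀ S : ℝ, 0 ≤ S →
      (∀ H : ℕ, 1 ≤ H → (H : ℝ) ≤ X → 2 * (hi * lam * (H : ℝ) ^ j) ≤ 1 →
        (S / X) ^ (2 ^ j) ≤ Cj * (1 / H + 2 / (lo * lam) / X * ((1 + Real.log H) / H) ^ j)) →
      S ≤ X ^ (1 - η) := by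
  obtain ⟨c0, hc0⟩ : ∃ c0 : ℝ, c0 = min 1 (1 / (2 * hi)) := ⟨_, rfl⟩
  have hc0p : 0 < c0 := by rw [hc0]; positivity
  have hc01 : c0 ≤ 1 := by rw [hc0]; exact min_le_left _ _
  have hc02 : 2 * hi * c0 ≤ 1 := by
    have : c0 ≤ 1 / (2 * hi) := by rw [hc0]; exact min_le_right _ _
    rw [le_div_iff₀ (by positivity)] at this
    linarith
  obtain ⟨η1, hη1⟩ : ∃ η1 : ℝ, η1 = min (δ / (2 * (j + 1))) (1 / 16) := ⟨_, rfl⟩
  have hη1p : 0 < η1 := by rw [hη1]; positivity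
  have hη1a : η1 ≤ δ / (2 * (j + 1)) := by rw [hη1]; exact min_le_left _ _
  have hη1b : η1 ≤ 1 / 16 := by rw [hη1]; exact min_le_right _ _
  have hj' : (1 : ℝ) ≤ j := by exact_mod_cast hj
  obtain ⟨r, hr⟩ : ∃ r : ℝ, r = 1 / ((j : ℝ) + 1) := ⟨_, rfl⟩
  have hr0 : 0 < r := by rw [hr]; positivity
  have hr1 : r ≤ 1 / 2 := by
    rw [hr]
    apply one_div_le_one_div_of_le (by norm_num)
    linarith
  obtain ⟨K1, hK1⟩ : ∃ K1 : ℝ, K1 = Cj * (2 / c0 ^ r) := ⟨_, rfl⟩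
  obtain ⟨K2, hK2⟩ : ∃ K2 : ℝ, K2 = Cj * (2 ^ (j + 1) / (lo * c0)) := ⟨_, rfl⟩
  have hδr : η1 < δ * r := by
    have h1 : δ / (2 * ((j : ℝ) + 1)) = δ * r / 2 := by rw [hr]; field_simp
    rw [h1] at hη1a
    have : 0 < δ * r := by positivity
    linarith
  refine ⟨η1 / 2 ^ j, by positivity, ?_⟩
  filter_upwards [ev_pow (-(δ * r)) (-η1) (2 * K1) (by linarith),
    ev_pow (-(1 / 8)) (-η1) (2 * K2) (by linarith), ev_pow 0 δ (1 / c0) hδ,
    ev_log j (1 / 8) (by norm_num), eventually_ge_atTop (1 : ℝ)] with X e1 e2 e3 e4 hX lam hl1 hl2 S hS hH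
  have hX0 : 0 < X := by linarith
  have hlam : 0 < lam := lt_of_lt_of_le (Real.rpow_pos_of_pos hX0 _) hl1
  obtain ⟨T, hT⟩ : ∃ T : ℝ, T = (c0 / lam) ^ r := ⟨_, rfl⟩
  have hcl : 0 < c0 / lam := by positivity
  have hT0 : 0 < T := by rw [hT]; exact Real.rpow_pos_of_pos hcl _
  have hTj : T ^ (j + 1) = c0 / lam := by
    rw [hT, ← Real.rpow_natCast, ← Real.rpow_mul hcl.le, hr]
    push_cast
    rw [one_div_mul_cancel (by positivity), Real.rpow_one]
  rw [Real.rpow_zero, mul_one] at e3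
  have hle : c0 * X ^ δ ≤ c0 / lam := by
    rw [le_div_iff₀ hlam, mul_assoc]
    apply mul_le_of_le_one_right hc0p.le
    calc X ^ δ * lam ≤ X ^ δ * X ^ (-δ) := by gcongr
      _ = 1 := by rw [← Real.rpow_add hX0]; simp
  have hcX : 1 ≤ c0 * X ^ δ := by
    rw [div_le_iff₀ hc0p] at e3
    linarith
  have hTlow : (c0 * X ^ δ) ^ r ≤ T := by
    rw [hT]
    exact Real.rpow_le_rpow (by positivity) hle hr0.le
  have hT1 : 1 ≤ T := (Real.one_le_rpow hcX hr0.le).trans hTlow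
  have hTup : T ≤ X ^ (3 / 4 : ℝ) := by
    have h1 : c0 / lam ≤ X ^ (1 + δ) := by
      rw [div_le_iff₀ hlam]
      calc c0 ≤ 1 := hc01
        _ = X ^ (1 + δ) * X ^ (-1 - δ) := by rw [← Real.rpow_add hX0]; ring_nf; simp
        _ ≤ X ^ (1 + δ) * lam := by gcongr
    calc T = (c0 / lam) ^ r := hT
      _ ≤ (X ^ (1 + δ)) ^ r := Real.rpow_le_rpow hcl.le h1 hr0.le
      _ = X ^ ((1 + δ) * r) := by rw [← Real.rpow_mul hX0.le]
      _ ≤ X ^ (3 / 4 : ℝ) := by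
          apply Real.rpow_le_rpow_of_exponent_le hX
          nlinarith
  have hTX : T ≤ X := by
    refine hTup.trans ?_
    conv_rhs => rw [← Real.rpow_one X]
    exact Real.rpow_le_rpow_of_exponent_le hX (by norm_num)
  obtain ⟨H, hHd⟩ : ∃ H : ℕ, H = ⌊T⌋₊ := ⟨_, rfl⟩
  have hHT : (H : ℝ) ≤ T := by rw [hHd]; exact Nat.floor_le hT0.le
  have hH1 : 1 ≤ H := by rw [hHd, Nat.one_le_floor_iff]; exact hT1
  have hH1' : (1 : ℝ) ≤ H := by exact_mod_cast hH1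
  have hTH : T ≤ 2 * H := by
    have := Nat.lt_floor_add_one T
    rw [← hHd] at this
    linarith
  have hH0 : (0 : ℝ) < H := by linarith
  have h1 := hH H hH1 (hHT.trans hTX) (by
    have h2 : lam * T ^ (j + 1) = c0 := by rw [hTj]; field_simp
    have h3 : lam * T ^ j ≤ c0 := by
      rw [← h2]
      exact mul_le_mul_of_nonneg_left (pow_le_pow_right₀ hT1 (Nat.le_succ j)) hlam.le
    calc 2 * (hi * lam * (H : ℝ) ^ j) ≤ 2 * (hi * lam * T ^ j) := by gcongr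
      _ = 2 * hi * (lam * T ^ j) := by ring
      _ ≤ 2 * hi * c0 := by gcongr
      _ ≤ 1 := hc02)
  have hlogT : 0 ≤ Real.log T := Real.log_nonneg hT1
  have hlogH : 0 ≤ Real.log (H : ℝ) := Real.log_nonneg hH1'
  have t1 : Cj * (1 / (H : ℝ)) ≤ X ^ (-η1) / 2 := by
    have h2 : 1 / (H : ℝ) ≤ 2 / T := by
      rw [div_le_div_iff₀ hH0 hT0]
      linarith
    have h3 : (2 : ℝ) / T ≤ 2 / c0 ^ r * X ^ (-(δ * r)) := by
      rw [Real.mul_rpow hc0p.le (by positivity), ← Real.rpow_mul hX0.le] at hTlow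
      have hc0r : 0 < c0 ^ r := by positivity
      have h4 : 0 < X ^ (δ * r) := by positivity
      rw [Real.rpow_neg hX0.le]
      calc (2 : ℝ) / T ≤ 2 / (c0 ^ r * X ^ (δ * r)) := by gcongr
        _ = _ := by field_simp
    calc Cj * (1 / (H : ℝ)) ≤ Cj * (2 / c0 ^ r * X ^ (-(δ * r))) := by
          gcongr
          exact h2.trans h3
      _ = (2 * K1 * X ^ (-(δ * r))) / 2 := by rw [hK1]; ring
      _ ≤ _ := by gcongr
  have t2 : Cj * (2 / (lo * lam) / X * ((1 + Real.log H) / H) ^ j) ≤ X ^ (-η1) / 2 := by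
    have hlX : 0 ≤ Real.log X := Real.log_nonneg hX
    have h2 : ((1 + Real.log H) / H) ^ j ≤ (2 * (1 + Real.log X) / T) ^ j := by
      apply pow_le_pow_left₀ (by positivity)
      rw [div_le_div_iff₀ hH0 hT0]
      have h3 : Real.log H ≤ Real.log X := Real.log_le_log hH0 (hHT.trans hTX)
      calc (1 + Real.log H) * T ≤ (1 + Real.log X) * (2 * H) :=
            mul_le_mul (by linarith) hTH hT0.le (by linarith)
        _ = _ := by ring
    have h3 : 2 / (lo * lam) / X = 2 * T ^ (j + 1) / (lo * c0 * X) := by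
      rw [hTj]
      field_simp
    have h4 : 2 / (lo * lam) / X * ((1 + Real.log H) / H) ^ j ≤
        2 ^ (j + 1) / (lo * c0) * (T * (1 + Real.log X) ^ j / X) := by
      calc 2 / (lo * lam) / X * ((1 + Real.log H) / H) ^ j
          ≤ 2 * T ^ (j + 1) / (lo * c0 * X) * (2 * (1 + Real.log X) / T) ^ j := by
            rw [h3]; gcongr
        _ = _ := by
            rw [div_pow, mul_pow]
            field_simp
            ring
    have h5 : T * (1 + Real.log X) ^ j / X ≤ X ^ (-(1 / 8 : ℝ)) := by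
      calc T * (1 + Real.log X) ^ j / X ≤ X ^ (3 / 4 : ℝ) * X ^ (1 / 8 : ℝ) / X := by gcongr
        _ = X ^ (-(1 / 8 : ℝ)) := by
            rw [← Real.rpow_add hX0, ← Real.rpow_sub_one hX0.ne']
            norm_num
    calc Cj * (2 / (lo * lam) / X * ((1 + Real.log H) / H) ^ j)
        ≤ Cj * (2 ^ (j + 1) / (lo * c0) * X ^ (-(1 / 8 : ℝ))) :=
          mul_le_mul_of_nonneg_left (h4.trans (mul_le_mul_of_nonneg_left h5 (by positivity))) hC
      _ = (2 * K2 * X ^ (-(1 / 8 : ℝ))) / 2 := by rw [hK2]; ring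
      _ ≤ _ := by gcongr
  have h6 : (S / X) ^ (2 ^ j) ≤ X ^ (-η1) := by
    refine h1.trans ?_
    rw [mul_add]
    linarith
  have h7 := root_le (S / X) _ j (by positivity) h6
  rw [← Real.rpow_mul hX0.le, div_le_iff₀ hX0] at h7
  refine h7.trans (le_of_eq ?_)
  rw [← Real.rpow_add_one hX0.ne']
  congr 1
  ring

end Pool.Agent.N666.PS
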