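import Pool.Agent.N666.PS.Gen

set_option autoImplicit false

/-!
From exponential sums to additive energies, without integrals.
-/

namespace Pool.Agent.N666.PS

open Finset Filter
open Pool.Agent.H469R2.NK (e norm_e e_add conj_e e_zero)

/-- the exponential sum of a finite family of reals -/
noncomputable def Fz {Q : Type} [Fintype Q] (z : Q → ℝ) (θ : ℝ) : ℂ := ∑ q, e (θ * z q)

lemma Fz_zero {Q : Type} [Fintype Q] (z : Q → ℝ) : Fz z 0 = Fintype.card Q := by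
  unfold Fz
  simp [e_zero]

lemma Fz_neg {Q : Type} [Fintype Q] (z : Q → ℝ) (θ : ℝ) : ‖Fz z (-θ)‖ = ‖Fz z θ‖ := by
  have : Fz z (-θ) = (starRingEnd ℂ) (Fz z θ) := by
    unfold Fz
    rw [map_sum]
    apply sum_congr rfl
    intro q _
    rw [conj_e]
    congr 1
    ring
  rw [this, RCLike.norm_conj]

lemma sum_pairs {Q : Type} [Fintype Q] (z : Q → ℝ) (t : ℝ) :
    ∑ q : Q, ∑ q' : Q, e (t * (z q - z q')) = ((‖Fz z t‖ ^ 2 : ℝ) : ℂ) := by
  have h1 : ((‖Fz z t‖ ^ 2 : ℝ) : ℂ) = Fz z t * (starRingEnd ℂ) (Fz z t) := by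
    rw [Complex.mul_conj, Complex.normSq_eq_norm_sq]
  rw [h1]
  unfold Fz
  rw [map_sum, sum_mul_sum]
  apply sum_congr rfl
  intro q _
  apply sum_congr rfl
  intro q' _
  rw [conj_e, ← e_add]
  congr 1
  ring

lemma kernel_low (R : ℕ) (ξ w : ℝ) (hw : |w| * (ξ * R) ≤ 1 / 8) (hξ : 0 ≤ ξ) :
    (R : ℝ) ^ 2 / 2 ≤ ‖∑ l ∈ range R, e (l * (ξ * w))‖ ^ 2 := by
  have h1 : ∀ l ∈ range R, √2 / 2 ≤ (e (l * (ξ * w))).re := by
    intro l hl
    have hl' : (l : ℝ) ≤ R := by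
      have := mem_range.mp hl
      exact_mod_cast this.le
    have e1 : (e (l * (ξ * w))).re = Real.cos (2 * Real.pi * (l * (ξ * w))) := by
      unfold e
      rw [Complex.exp_ofReal_mul_I_re]
    rw [e1, ← Real.cos_abs, ← Real.cos_pi_div_four]
    have hpi := Real.pi_pos
    have h2 : |2 * Real.pi * (l * (ξ * w))| ≤ Real.pi / 4 := by
      rw [abs_mul, abs_of_pos (by positivity : (0 : ℝ) < 2 * Real.pi), abs_mul, abs_mul, abs_of_nonneg hξ,
        abs_of_nonneg (Nat.cast_nonneg l)]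
      have h3 : (l : ℝ) * (ξ * |w|) ≤ 1 / 8 := by
        calc (l : ℝ) * (ξ * |w|) ≤ R * (ξ * |w|) := by gcongr
          _ = |w| * (ξ * R) := by ring
          _ ≤ 1 / 8 := hw
      calc 2 * Real.pi * ((l : ℝ) * (ξ * |w|)) ≤ 2 * Real.pi * (1 / 8) := by gcongr
        _ = Real.pi / 4 := by ring
    apply Real.cos_le_cos_of_nonneg_of_le_pi (abs_nonneg _) (by linarith) h2
  have h2 : (R : ℝ) * (√2 / 2) ≤ ‖∑ l ∈ range R, e (l * (ξ * w))‖ := by
    calc (R : ℝ) * (√2 / 2) = ∑ l ∈ range R, √2 / 2 := by simp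
      _ ≤ ∑ l ∈ range R, (e (l * (ξ * w))).re := sum_le_sum h1
      _ = (∑ l ∈ range R, e (l * (ξ * w))).re := by rw [Complex.re_sum]
      _ ≤ _ := Complex.re_le_norm _
  calc (R : ℝ) ^ 2 / 2 = (R * (√2 / 2)) ^ 2 := by
        rw [mul_pow, div_pow, Real.sq_sqrt (by norm_num)]
        ring
    _ ≤ _ := pow_le_pow_left₀ (by positivity) h2 2

lemma shift_sum (R l : ℕ) (hl : l < R) (g : ℕ → ℝ) (hg : ∀ m, 0 ≤ g m) :
    ∑ l' ∈ range R, (if l' ≤ l then g (l - l') else g (l' - l)) ≤ 2 * ∑ m ∈ range R, g m := by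
  have h1 : ∑ l' ∈ range R, (if l' ≤ l then g (l - l') else 0) ≤ ∑ m ∈ range R, g m := by
    rw [← sum_filter]
    have hinj : Set.InjOn (fun l' => l - l') (↑((range R).filter (fun l' => l' ≤ l)) : Set ℕ) := by
      intro x hx y hy hxy
      simp only [coe_filter, Set.mem_ofPred_eq, mem_range] at hx hy hxy
      omega
    rw [← sum_image (f := g) hinj]
    apply sum_le_sum_of_subset_of_nonneg
    · intro m hm
      rw [mem_image] at hm
      obtain ⟨l', hl', hm⟩ := hm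
      rw [mem_filter, mem_range] at hl'
      rw [mem_range]
      omega
    · intro i _ _
      exact hg i
  have h2 : ∑ l' ∈ range R, (if l' ≤ l then 0 else g (l' - l)) ≤ ∑ m ∈ range R, g m := by
    have : ∑ l' ∈ range R, (if l' ≤ l then 0 else g (l' - l)) = ∑ l' ∈ range R with ¬ l' ≤ l, g (l' - l) := by
      rw [sum_filter]
      apply sum_congr rfl
      intro x _
      by_cases hx : x ≤ l
      · simp [hx]
      · simp [hx]
    rw [this]
    have hinj : Set.InjOn (fun l' => l' - l) (↑((range R).filter (fun l' => ¬ l' ≤ l)) : Set ℕ) := by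
      intro x hx y hy hxy
      simp only [coe_filter, Set.mem_ofPred_eq, mem_range] at hx hy hxy
      omega
    rw [← sum_image (f := g) hinj]
    apply sum_le_sum_of_subset_of_nonneg
    · intro m hm
      rw [mem_image] at hm
      obtain ⟨l', hl', hm⟩ := hm
      rw [mem_filter, mem_range] at hl'
      rw [mem_range]
      omega
    · intro i _ _
      exact hg i
  have h3 : ∀ l' ∈ range R, (if l' ≤ l then g (l - l') else g (l' - l)) =
      (if l' ≤ l then g (l - l') else 0) + (if l' ≤ l then 0 else g (l' - l)) := by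
    intro l' _
    split_ifs <;> simp
  rw [sum_congr rfl h3, sum_add_distrib]
  linarith

open Classical in
/-- **Counting close pairs.** -/
theorem close_le {Q : Type} [Fintype Q] (z : Q → ℝ) (w : ℝ) (hw : 0 < w) (R : ℕ) (hR : 1 ≤ R) :
    ((univ.filter (fun p : Q × Q => |z p.1 - z p.2| ≤ w)).card : ℝ) ≤
      4 / R * ∑ m ∈ range R, ‖Fz z (m / (8 * w * R))‖ ^ 2 := by
  have hR' : (1 : ℝ) ≤ R := by exact_mod_cast hR
  have hR0 : (0 : ℝ) < R := by linarith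
  obtain ⟨ξ, hξ⟩ : ∃ ξ : ℝ, ξ = 1 / (8 * w * R) := ⟨_, rfl⟩
  have hξ0 : 0 < ξ := by rw [hξ]; positivity
  have hξR : w * (ξ * R) = 1 / 8 := by rw [hξ]; field_simp
  obtain ⟨g, hg⟩ : ∃ g : ℕ → ℝ, g = fun m : ℕ => ‖Fz z ((m : ℝ) * ξ)‖ ^ 2 := ⟨_, rfl⟩
  have hg0 : ∀ m, 0 ≤ g m := by intro m; rw [hg]; positivity
  have hsum : ∑ p : Q × Q, ‖∑ l ∈ range R, e (l * (ξ * (z p.1 - z p.2)))‖ ^ 2 ≤
      R * (2 * ∑ m ∈ range R, g m) := by
    have e1 : ((∑ p : Q × Q, ‖∑ l ∈ range R, e (l * (ξ * (z p.1 - z p.2)))‖ ^ 2 : ℝ) : ℂ) =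
        ((∑ l ∈ range R, ∑ l' ∈ range R, ‖Fz z (((l : ℝ) - l') * ξ)‖ ^ 2 : ℝ) : ℂ) := by
      push_cast
      have e2 : ∀ p : Q × Q, ((‖∑ l ∈ range R, e (l * (ξ * (z p.1 - z p.2)))‖ : ℝ) : ℂ) ^ 2 =
          ∑ l ∈ range R, ∑ l' ∈ range R, e (((l : ℝ) - l') * ξ * (z p.1 - z p.2)) := by
        intro p
        have h1 : ∀ u : ℂ, ((‖u‖ : ℝ) : ℂ) ^ 2 = u * (starRingEnd ℂ) u := by
          intro u
          rw [Complex.mul_conj, Complex.normSq_eq_norm_sq]
          push_cast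
          rfl
        rw [h1, map_sum, sum_mul_sum]
        apply sum_congr rfl
        intro l _
        apply sum_congr rfl
        intro l' _
        rw [conj_e, ← e_add]
        congr 1
        ring
      rw [sum_congr rfl (fun p _ => e2 p), sum_comm]
      apply sum_congr rfl
      intro l _
      rw [sum_comm]
      apply sum_congr rfl
      intro l' _
      have h2 := sum_pairs z (((l : ℝ) - l') * ξ)
      rw [Fintype.sum_prod_type]
      rw [h2]
      push_cast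
      rfl
    have e3 : ∑ p : Q × Q, ‖∑ l ∈ range R, e (l * (ξ * (z p.1 - z p.2)))‖ ^ 2 =
        ∑ l ∈ range R, ∑ l' ∈ range R, ‖Fz z (((l : ℝ) - l') * ξ)‖ ^ 2 := by exact_mod_cast e1
    rw [e3]
    calc ∑ l ∈ range R, ∑ l' ∈ range R, ‖Fz z (((l : ℝ) - l') * ξ)‖ ^ 2
        ≤ ∑ l ∈ range R, 2 * ∑ m ∈ range R, g m := by
          apply sum_le_sum
          intro l hl
          refine le_trans (le_of_eq ?_) (shift_sum R l (mem_range.mp hl) g hg0)
          apply sum_congr rfl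
          intro l' _
          rw [hg]
          split_ifs with hc
          · simp only
            rw [Nat.cast_sub hc]
          · simp only
            rw [Nat.cast_sub (by omega), ← Fz_neg]
            congr 3
            ring
      _ = R * (2 * ∑ m ∈ range R, g m) := by
          rw [sum_const, card_range, nsmul_eq_mul]
  have hlow : ((univ.filter (fun p : Q × Q => |z p.1 - z p.2| ≤ w)).card : ℝ) * ((R : ℝ) ^ 2 / 2) ≤
      ∑ p : Q × Q, ‖∑ l ∈ range R, e (l * (ξ * (z p.1 - z p.2)))‖ ^ 2 := by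
    rw [← nsmul_eq_mul, ← sum_const]
    refine (sum_le_sum (fun p hp => ?_)).trans (sum_le_sum_of_subset_of_nonneg (filter_subset _ _)
      (fun p _ _ => by positivity))
    rw [mem_filter] at hp
    apply kernel_low R ξ _ _ hξ0.le
    rw [← hξR]
    have := hp.2
    gcongr
  have h3 := hlow.trans hsum
  have h4 : ∑ m ∈ range R, ‖Fz z (m / (8 * w * R))‖ ^ 2 = ∑ m ∈ range R, g m := by
    apply sum_congr rfl
    intro m _
    rw [hg, hξ]
    simp only
    congr 3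
    ring
  rw [h4]
  have h5 : (((univ.filter (fun p : Q × Q => |z p.1 - z p.2| ≤ w)).card : ℝ)) * ((R : ℝ) ^ 2 / 2) ≤
      (4 / R * ∑ m ∈ range R, g m) * ((R : ℝ) ^ 2 / 2) := by
    refine h3.trans (le_of_eq ?_)
    field_simp
    ring
  exact le_of_mul_le_mul_right h5 (by positivity)

open Classical in
/-- the number of pairs of `r`-tuples whose sums differ by at most `w` -/
noncomputable def cl (r : ℕ) {ι : Type} [Fintype ι] (z : ι → ℝ) (w : ℝ) : ℕ :=
  (univ.filter (fun p : (Fin r → ι) × (Fin r → ι) => |∑ i, z (p.1 i) - ∑ i, z (p.2 i)| ≤ w)).card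

lemma Fz_tup {ι : Type} [Fintype ι] (r : ℕ) (z : ι → ℝ) (θ : ℝ) :
    Fz (fun q : Fin r → ι => ∑ i, z (q i)) θ = Fz z θ ^ r := by
  unfold Fz
  rw [Fintype.sum_pow]
  apply sum_congr rfl
  intro q _
  have : ∀ s : Finset (Fin r), e (θ * ∑ i ∈ s, z (q i)) = ∏ i ∈ s, e (θ * z (q i)) := by
    classical
    intro s
    induction s using Finset.induction_on with
    | empty => simp [e_zero]
    | insert x s hx ih =>
      rw [sum_insert hx, prod_insert hx, mul_add, e_add, ih]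
  exact this univ

lemma cl_le (r : ℕ) {ι : Type} [Fintype ι] (z : ι → ℝ) (w : ℝ) (hw : 0 < w) (R : ℕ) (hR : 1 ≤ R) :
    (cl r z w : ℝ) ≤ 4 / R * ∑ m ∈ range R, ‖Fz z (m / (8 * w * R))‖ ^ (2 * r) := by
  unfold cl
  refine (close_le (fun q : Fin r → ι => ∑ i, z (q i)) w hw R hR).trans (le_of_eq ?_)
  congr 1
  apply sum_congr rfl
  intro m _
  rw [Fz_tup, norm_pow, ← pow_mul, mul_comm r 2]

/-- **The energy.** -/
theorem energy_main {F : Finset ℝ} {a : ℝ → ℝ} {c : ℝ} (h : GH F a c) :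
    ∃ r₀ : ℕ, 1 ≤ r₀ ∧ ∀ r : ℕ, r₀ ≤ r → ∀ w : ℝ, 1 ≤ w → ∃ K : ℝ, 0 < K ∧ ∀ᶠ X : ℝ in atTop, ∀ N : ℕ, (N : ℝ) = X →
      (cl r (fun i : Fin N => gp F a 0 (X + (i : ℕ))) w : ℝ) ≤ K * X ^ (2 * r - c) := by
  obtain ⟨η, C, hη, hC, h1⟩ := exp_main h
  have hc := h.one
  refine ⟨⌈c / η⌉₊ + 1, by omega, fun r hr w hw => ?_⟩
  have hrη : c ≤ 2 * r * η := by
    have h2 : c / η ≤ ⌈c / η⌉₊ := Nat.le_ceil _
    have h3 : ((⌈c / η⌉₊ + 1 : ℕ) : ℝ) ≤ r := by exact_mod_cast hr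
    push_cast at h3
    rw [div_le_iff₀ hη] at h2
    have h4 : (⌈c / η⌉₊ : ℝ) * η ≤ r * η := by
      apply mul_le_mul_of_nonneg_right _ hη.le
      linarith
    have h5 : 0 ≤ (r : ℝ) * η := by positivity
    linarith
  have hr1 : 1 ≤ r := by omega
  obtain ⟨D, hD⟩ : ∃ D : ℝ, D = 16 * w * C := ⟨_, rfl⟩
  have hD0 : 0 < D := by rw [hD]; positivity
  refine ⟨4 * (1 + 2 ^ (2 * r) * D ^ (2 * r) * 2) + 4 * 2 ^ (2 * r), by positivity, ?_⟩
  filter_upwards [h1, eventually_ge_atTop (1 : ℝ)] with X e1 hX N hN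
  have hX0 : 0 < X := by linarith
  obtain ⟨R, hR⟩ : ∃ R : ℕ, R = ⌈X ^ c⌉₊ := ⟨_, rfl⟩
  have hXc : 1 ≤ X ^ c := Real.one_le_rpow hX (by linarith)
  have hXc0 : 0 < X ^ c := by linarith
  have hR1 : X ^ c ≤ R := by rw [hR]; exact Nat.le_ceil _
  have hR2 : (R : ℝ) ≤ 2 * X ^ c := by
    have := Nat.ceil_lt_add_one hXc0.le
    rw [← hR] at this
    linarith
  have hR0 : (1 : ℝ) ≤ R := hXc.trans hR1
  have hRn : 1 ≤ R := by exact_mod_cast hR0
  refine (cl_le r _ w (by linarith) R hRn).trans ?_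
  have hS0 : ‖Fz (fun i : Fin N => gp F a 0 (X + (i : ℕ))) 0‖ ^ (2 * r) = X ^ (2 * r) := by
    rw [Fz_zero, Fintype.card_fin, Complex.norm_natCast, hN]
  have hS : ∀ m : ℕ, 1 ≤ m → m < R → ‖Fz (fun i : Fin N => gp F a 0 (X + (i : ℕ))) (m / (8 * w * R))‖ ^ (2 * r) ≤
      2 ^ (2 * r) * (D ^ (2 * r) * X ^ (2 * r) * (((m : ℝ) ^ 2)⁻¹) + X ^ (2 * r - c)) := by
    intro m hm hmR
    have hm' : (1 : ℝ) ≤ m := by exact_mod_cast hm
    have hmR' : (m : ℝ) ≤ R := by exact_mod_cast hmR.le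
    have hθ0 : 0 < (m : ℝ) / (8 * w * R) := by positivity
    have hθ1 : (m : ℝ) / (8 * w * R) ≤ 1 := by
      rw [div_le_one (by positivity)]
      nlinarith
    have e2 := e1 N hN _ hθ0 hθ1 N le_rfl
    have e3 : Fz (fun i : Fin N => gp F a 0 (X + (i : ℕ))) (m / (8 * w * R)) =
        ∑ n ∈ range N, e (m / (8 * w * R) * gp F a 0 (X + n)) := by
      unfold Fz
      rw [Fin.sum_univ_eq_sum_range (fun n => e ((m : ℝ) / (8 * w * R) * gp F a 0 (X + (n : ℕ))))]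
    rw [e3]
    have e4 : C * (X ^ (1 - c) / (m / (8 * w * R))) ≤ D * X / m := by
      have h5 : X ^ (1 - c) * (2 * X ^ c) = 2 * X := by
        calc X ^ (1 - c) * (2 * X ^ c) = 2 * (X ^ (1 - c) * X ^ c) := by ring
          _ = 2 * X := by rw [← Real.rpow_add hX0]; simp
      have h6 : 0 < X ^ (1 - c) := Real.rpow_pos_of_pos hX0 _
      calc C * (X ^ (1 - c) / (m / (8 * w * R))) = 8 * w * C * (X ^ (1 - c) * R) / m := by
            field_simp
        _ ≤ 8 * w * C * (X ^ (1 - c) * (2 * X ^ c)) / m := by gcongr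
        _ = D * X / m := by rw [h5, hD]; ring
    have h7 : 0 < X ^ (1 - η) := Real.rpow_pos_of_pos hX0 _
    have h8 : (X ^ (1 - η)) ^ (2 * r) ≤ X ^ (2 * r - c) := by
      rw [← Real.rpow_natCast, ← Real.rpow_mul hX0.le]
      apply Real.rpow_le_rpow_of_exponent_le hX
      push_cast
      linarith
    have h9 : ((m : ℝ) ^ (2 * r))⁻¹ ≤ ((m : ℝ) ^ 2)⁻¹ := by
      apply inv_anti₀ (by positivity)
      apply pow_le_pow_right₀ hm'
      omega
    calc ‖∑ n ∈ range N, e (m / (8 * w * R) * gp F a 0 (X + n))‖ ^ (2 * r)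
        ≤ (D * X / m + X ^ (1 - η)) ^ (2 * r) := by
          apply pow_le_pow_left₀ (norm_nonneg _)
          linarith
      _ ≤ 2 ^ (2 * r - 1) * ((D * X / m) ^ (2 * r) + (X ^ (1 - η)) ^ (2 * r)) :=
          add_pow_le (by positivity) h7.le _
      _ ≤ 2 ^ (2 * r) * (D ^ (2 * r) * X ^ (2 * r) * (((m : ℝ) ^ 2)⁻¹) + X ^ (2 * r - c)) := by
          have h10 : (2 : ℝ) ^ (2 * r - 1) ≤ 2 ^ (2 * r) := pow_le_pow_right₀ (by norm_num) (by omega)
          have h11 : (D * X / m) ^ (2 * r) ≤ D ^ (2 * r) * X ^ (2 * r) * (((m : ℝ) ^ 2)⁻¹) := by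
            rw [div_pow, mul_pow, div_eq_mul_inv]
            gcongr
          have h12 : 0 < X ^ (2 * (r : ℝ) - c) := Real.rpow_pos_of_pos hX0 _
          gcongr
  have hsplit : ∑ m ∈ range R, ‖Fz (fun i : Fin N => gp F a 0 (X + (i : ℕ))) (m / (8 * w * R))‖ ^ (2 * r) ≤
      X ^ (2 * r) + 2 ^ (2 * r) * (D ^ (2 * r) * X ^ (2 * r) * 2 + R * X ^ (2 * r - c)) := by
    have hr' : range R = insert 0 (Ioo 0 R) := by
      ext m
      simp only [mem_range, mem_insert, mem_Ioo]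
      omega
    rw [hr', sum_insert (by simp)]
    simp only [Nat.cast_zero, zero_div]
    rw [hS0]
    gcongr
    calc ∑ m ∈ Ioo 0 R, ‖Fz (fun i : Fin N => gp F a 0 (X + (i : ℕ))) (m / (8 * w * R))‖ ^ (2 * r)
        ≤ ∑ m ∈ Ioo 0 R, 2 ^ (2 * r) * (D ^ (2 * r) * X ^ (2 * r) * (((m : ℝ) ^ 2)⁻¹) + X ^ (2 * r - c)) := by
          apply sum_le_sum
          intro m hm
          rw [mem_Ioo] at hm
          exact hS m (by omega) hm.2
      _ = 2 ^ (2 * r) * (D ^ (2 * r) * X ^ (2 * r) * (∑ m ∈ Ioo 0 R, ((m : ℝ) ^ 2)⁻¹) +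
            (Ioo 0 R).card * X ^ (2 * r - c)) := by
          rw [← mul_sum, sum_add_distrib, ← mul_sum, sum_const, nsmul_eq_mul]
      _ ≤ _ := by
          have h12 : 0 < X ^ (2 * (r : ℝ) - c) := Real.rpow_pos_of_pos hX0 _
          have h13 : ∑ m ∈ Ioo 0 R, ((m : ℝ) ^ 2)⁻¹ ≤ 2 := by
            have := sum_Ioo_inv_sq_le (α := ℝ) 0 R
            simpa using this
          have h14 : (((Ioo 0 R).card : ℕ) : ℝ) ≤ R := by
            rw [Nat.card_Ioo]
            exact_mod_cast (by omega : R - 0 - 1 ≤ R)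
          gcongr
  have h15 : X ^ (2 * (r : ℝ) - c) = X ^ (2 * r) / X ^ c := by
    rw [Real.rpow_sub hX0]
    congr 1
    rw [← Real.rpow_natCast]
    push_cast
    rfl
  have h16 : 0 < X ^ (2 * (r : ℝ) - c) := Real.rpow_pos_of_pos hX0 _
  calc 4 / R * ∑ m ∈ range R, ‖Fz (fun i : Fin N => gp F a 0 (X + (i : ℕ))) (m / (8 * w * R))‖ ^ (2 * r)
      ≤ 4 / R * (X ^ (2 * r) + 2 ^ (2 * r) * (D ^ (2 * r) * X ^ (2 * r) * 2 + R * X ^ (2 * r - c))) := by
        gcongr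
    _ = 4 * (1 + 2 ^ (2 * r) * D ^ (2 * r) * 2) * (X ^ (2 * r) / R) + 4 * 2 ^ (2 * r) * X ^ (2 * r - c) := by
        have h17 : (R : ℝ) ≠ 0 := by positivity
        field_simp
        ring
    _ ≤ 4 * (1 + 2 ^ (2 * r) * D ^ (2 * r) * 2) * (X ^ (2 * r) / X ^ c) + 4 * 2 ^ (2 * r) * X ^ (2 * r - c) := by
        gcongr
    _ = _ := by rw [← h15]; ring

end Pool.Agent.N666.PS
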