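import Pool.Agent.TH915.PW.Exp

set_option autoImplicit false

/-!
The exponential sum bound of `TH915/PW/Exp.lean` with the gain of the harmonic sums kept, and its reflected form
for a derivative which is increasing.
-/

namespace Pool.Agent.N666.PS

open Finset
open Pool.Agent.H469R2.NK (e norm_e e_add conj_e vdcH kusmin_landau_anti norm_sum_neg Av Av_le
  Cq Cq_pos iterate harm_le)
open Pool.Agent.TH915.PW (Hy ED SD SD_sq SD_le)

/-- The exponential sum bound for positive frequencies. -/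
theorem exp_bound' {k : ℕ} {A B lo hi : ℝ} {φ : ℕ → ℝ → ℝ} (hlo : 0 < lo) (hhi : 0 ≤ hi) (θ : ℝ)
    (hθ : 0 < θ) (h : Hy k A B lo hi φ) (u : ℝ) (N L H : ℕ) (hN : 1 ≤ N) (hL : L ≤ N)
    (hu : A ≤ u) (huL : u + L ≤ B) (hH : 1 ≤ H) (hHN : H ≤ N)
    (hup : 2 * (θ * (hi * (H : ℝ) ^ k)) ≤ 1) :
    (‖∑ n ∈ range L, e (θ * φ 0 (u + n))‖ / N) ^ (2 ^ k) ≤
      Cq k * (1 / H + 2 / (θ * lo) / N * ((1 + Real.log H) / H) ^ k) := by
  have hN' : (1 : ℝ) ≤ N := by exact_mod_cast hN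
  have hH' : (1 : ℝ) ≤ H := by exact_mod_cast hH
  have hL' : (L : ℝ) ≤ N := by exact_mod_cast hL
  have hHN' : (H : ℝ) ≤ N := by exact_mod_cast hHN
  have hstep : ∀ ls : List ℕ, (‖SD φ θ u L ls‖ / N) ^ 2 ≤
      2 / H + 4 * ((∑ l ∈ Ico 1 H, ‖SD φ θ u L (l :: ls)‖ / N) / H) := by
    intro ls
    have h := SD_sq φ θ u L H ls
    set Sg := ∑ l ∈ Ico 1 H, ‖SD φ θ u L (l :: ls)‖ with hSg
    have hSg0 : 0 ≤ Sg := sum_nonneg fun _ _ => norm_nonneg _
    have h2 : (H : ℝ) * ‖SD φ θ u L ls‖ ^ 2 ≤ (2 * N) * (N + 2 * Sg) := by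
      refine h.trans ?_
      have : (L : ℝ) + H ≤ 2 * N := by linarith
      gcongr
    rw [← sum_div, ← hSg]
    have e1 : 2 / (H : ℝ) + 4 * (Sg / N / H) = ((2 * N) * (N + 2 * Sg)) / (H * N ^ 2) := by
      field_simp
      ring
    rw [e1, div_pow, div_le_div_iff₀ (by positivity) (by positivity)]
    calc ‖SD φ θ u L ls‖ ^ 2 * (H * N ^ 2) = ((H : ℝ) * ‖SD φ θ u L ls‖ ^ 2) * N ^ 2 := by ring
      _ ≤ _ := by gcongr
  have hit := iterate hH (fun ls => ‖SD φ θ u L ls‖ / N) (fun ls => by positivity) hstep k []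
  have hSS : ∑ n ∈ range L, e (θ * φ 0 (u + n)) = SD φ θ u L [] := by
    unfold SD
    simp only [List.sum_nil, Nat.sub_zero]
    rfl
  rw [hSS]
  refine hit.trans ?_
  have hC := Cq_pos k
  gcongr
  have h1 := Av_le (H := H) (T := fun ls => ‖SD φ θ u L ls‖ / N)
    (κ := 2 / (θ * lo) / N) k (by
      intro ls hlen hent
      have hpos : 0 < ls.prod := List.prod_pos fun l hl => (hent l hl).1
      have hle : ls.prod ≤ H ^ k := by
        have := List.prod_le_pow_card ls H (fun l hl => (hent l hl).2.le)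
        rwa [hlen] at this
      have hle' : ((ls.prod : ℕ) : ℝ) ≤ (H : ℝ) ^ k := by exact_mod_cast hle
      have h1 := SD_le hlo θ hθ h u L hu huL ls hpos hlen (by
        refine le_trans ?_ hup
        gcongr)
      have hP : (0 : ℝ) < (ls.prod : ℕ) := by exact_mod_cast hpos
      calc ‖SD φ θ u L ls‖ / N ≤ (2 / (θ * lo * (ls.prod : ℕ))) / N := by
            gcongr
        _ = _ := by field_simp) k [] (by simp) (by simp)
  have h2 : (∑ l ∈ Ico 1 H, (1 : ℝ) / l) / H ≤ (1 + Real.log H) / H := by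
    gcongr
    exact harm_le H
  have h3 : ((∑ l ∈ Ico 1 H, (1 : ℝ) / l) / H) ^ k ≤ ((1 + Real.log H) / H) ^ k := by
    apply pow_le_pow_left₀ _ h2
    positivity
  have h4 : 0 ≤ 2 / (θ * lo) / (N : ℝ) := by positivity
  calc Av H (fun ls => ‖SD φ θ u L ls‖ / N) k [] ≤
        2 / (θ * lo) / N * ((∑ l ∈ Ico 1 H, (1 : ℝ) / l) / H) ^ k / (([] : List ℕ).prod : ℕ) := h1
    _ = 2 / (θ * lo) / N * ((∑ l ∈ Ico 1 H, (1 : ℝ) / l) / H) ^ k := by simp
    _ ≤ _ := by gcongr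

/-- the reflected phase -/
noncomputable def rf (k : ℕ) (A B : ℝ) (φ : ℕ → ℝ → ℝ) (m : ℕ) (t : ℝ) : ℝ :=
  (-1) ^ (k + 1 + m) * φ m (A + B - t)

/-- hypotheses on the phase, with a derivative of order `k + 1` which is increasing -/
structure Hy' (k : ℕ) (A B lo hi : ℝ) (φ : ℕ → ℝ → ℝ) : Prop where
  der : ∀ m ≤ k + 1, ∀ t ∈ Set.Icc A B, HasDerivAt (φ m) (φ (m + 1) t) t
  lo : ∀ t ∈ Set.Icc A B, lo ≤ φ (k + 1) t
  hi : ∀ t ∈ Set.Icc A B, φ (k + 1) t ≤ hi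
  inc : ∀ t ∈ Set.Icc A B, 0 ≤ φ (k + 2) t

lemma rf_hy {k : ℕ} {A B lo hi : ℝ} {φ : ℕ → ℝ → ℝ} (h : Hy' k A B lo hi φ) : Hy k A B lo hi (rf k A B φ) := by
  have hm : ∀ t ∈ Set.Icc A B, A + B - t ∈ Set.Icc A B := fun t ht => ⟨by linarith [ht.2], by linarith [ht.1]⟩
  have e1 : ∀ m : ℕ, (-1 : ℝ) ^ (k + 1 + (m + 1)) = - (-1) ^ (k + 1 + m) := by
    intro m
    rw [← add_assoc, pow_succ]
    ring
  have e2 : (-1 : ℝ) ^ (k + 1 + (k + 1)) = 1 := by
    rw [← two_mul, pow_mul]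
    norm_num
  refine ⟨?_, ?_, ?_, ?_⟩
  · intro m hmk t ht
    have h1 := h.der m hmk _ (hm t ht)
    have h2 : HasDerivAt (fun t : ℝ => A + B - t) (-1) t := by
      simpa using (hasDerivAt_id t).const_sub (A + B)
    have h3 := (h1.comp t h2).const_mul ((-1 : ℝ) ^ (k + 1 + m))
    have h4 : rf k A B φ (m + 1) t = (-1) ^ (k + 1 + m) * (φ (m + 1) (A + B - t) * -1) := by
      unfold rf
      rw [e1]
      ring
    rw [h4]
    exact h3
  · intro t ht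
    unfold rf
    rw [e2, one_mul]
    exact h.lo _ (hm t ht)
  · intro t ht
    unfold rf
    rw [e2, one_mul]
    exact h.hi _ (hm t ht)
  · intro t ht
    unfold rf
    have h1 := h.inc _ (hm t ht)
    rw [show k + 2 = (k + 1) + 1 by ring, e1, e2]
    rw [show k + 2 = (k + 1) + 1 by ring] at h1
    linarith

lemma norm_sum_sign (s : ℝ) (hs : s = 1 ∨ s = -1) (L : ℕ) (x : ℕ → ℝ) :
    ‖∑ n ∈ range L, e (s * x n)‖ = ‖∑ n ∈ range L, e (x n)‖ := by
  rcases hs with rfl | rfl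
  · simp
  · rw [← norm_sum_neg]
    simp

/-- The exponential sum bound for an increasing derivative. -/
theorem exp_bound_inc {k : ℕ} {A B lo hi : ℝ} {φ : ℕ → ℝ → ℝ} (hlo : 0 < lo) (hhi : 0 ≤ hi) (θ : ℝ)
    (hθ : 0 < θ) (h : Hy' k A B lo hi φ) (u : ℝ) (N L H : ℕ) (hN : 1 ≤ N) (hL : L ≤ N)
    (hu : A + 1 ≤ u) (huL : u + L ≤ B) (hH : 1 ≤ H) (hHN : H ≤ N)
    (hup : 2 * (θ * (hi * (H : ℝ) ^ k)) ≤ 1) :
    (‖∑ n ∈ range L, e (θ * φ 0 (u + n))‖ / N) ^ (2 ^ k) ≤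
      Cq k * (1 / H + 2 / (θ * lo) / N * ((1 + Real.log H) / H) ^ k) := by
  rcases Nat.eq_zero_or_pos L with hL0 | hL0
  · subst hL0
    simp only [range_zero, sum_empty, norm_zero, zero_div]
    rw [zero_pow (by positivity)]
    have hC := Cq_pos k
    have hH' : (1 : ℝ) ≤ H := by exact_mod_cast hH
    have := Real.log_nonneg hH'
    positivity
  have hL1 : (1 : ℝ) ≤ L := by exact_mod_cast hL0
  set u' : ℝ := A + B - (u + L - 1) with hu'
  have key := exp_bound' hlo hhi θ hθ (rf_hy h) u' N L H hN hL (by rw [hu']; linarith) (by rw [hu']; linarith) hH hHN hup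
  refine le_of_eq_of_le ?_ key
  congr 2
  have h1 : ∀ n ∈ range L, e (θ * rf k A B φ 0 (u' + n)) =
      e ((-1) ^ (k + 1 + 0) * (θ * φ 0 (u + ((L - 1 - n : ℕ) : ℝ)))) := by
    intro n hn
    rw [mem_range] at hn
    have e1 : ((L - 1 - n : ℕ) : ℝ) = (L : ℝ) - 1 - n := by
      rw [Nat.cast_sub (by omega), Nat.cast_sub (by omega)]
      simp
    rw [e1]
    congr 1
    unfold rf
    rw [hu', show A + B - (A + B - (u + L - 1) + (n : ℝ)) = u + ((L : ℝ) - 1 - n) by ring]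
    ring
  have h2 := norm_sum_sign ((-1) ^ (k + 1 + 0)) (by
    rcases Nat.even_or_odd (k + 1 + 0) with h2 | h2
    · left; exact h2.neg_one_pow
    · right; exact h2.neg_one_pow) L (fun n => θ * φ 0 (u + ((L - 1 - n : ℕ) : ℝ)))
  rw [sum_congr rfl h1, h2]
  exact congrArg norm (sum_range_reflect (fun n => e (θ * φ 0 (u + (n : ℝ)))) L).symm

end Pool.Agent.N666.PS
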