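import Pool.Agent.N666.PS.Full
import Pool.Agent.N666.PS.Blk
import Pool.Agent.R459.Nbhd

set_option autoImplicit false

/-!
Families of integers close to a translate of the values of a generalised polynomial.
-/

namespace Pool.Agent.N666.PS

open Finset Filter
open Pool.Agent.TH935.GF (En)

theorem fam_energy {F : Finset ℝ} {a : ℝ → ℝ} {c : ℝ} (h : GH F a c) :
    ∃ r₀ : ℕ, 1 ≤ r₀ ∧ ∀ r : ℕ, r₀ ≤ r → ∀ B C W : ℕ, ∃ N₀ : ℕ, ∀ N : ℕ, N₀ ≤ N → ∀ X : ℕ,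
      (X : ℝ) ^ c ≤ B * N → (N : ℝ) ≤ Real.log N ^ C * (X : ℝ) ^ c → ∀ (t : ℤ) (v : Fin X → ℤ),
      (∀ i, |(v i : ℝ) - t - gp F a 0 (((i : ℕ) + 1 : ℕ) : ℝ)| ≤ Real.log N ^ W) →
      1 ≤ X ∧ (En r v : ℝ) * N ≤ Real.log N ^ (2 * r * W + 2 * r + C + 1) * (X : ℝ) ^ (2 * r) := by
  have hc := h.one
  obtain ⟨r₀, hr₀, h1⟩ := energy_full h
  refine ⟨r₀, hr₀, fun r hr B C W => ?_⟩
  obtain ⟨K, hK, h2⟩ := h1 r hr
  obtain ⟨n1, e1⟩ := Pool.Agent.H373R2.T7.ev_L' (K * (6 * r) ^ (2 * r) + 1)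
  refine ⟨n1 + B + 3, fun N hN X hX1 hX2 t v hv => ?_⟩
  have hL := e1 N (by omega)
  have hr1 : (1 : ℝ) ≤ r := by exact_mod_cast hr₀.trans hr
  have hN3 : (3 : ℝ) ≤ N := by exact_mod_cast (by omega : 3 ≤ N)
  have hN0 : (0 : ℝ) < N := by linarith
  obtain ⟨L, hLd⟩ : ∃ L : ℝ, L = Real.log N := ⟨_, rfl⟩
  rw [← hLd] at hL hX2 hv ⊢
  have hL1 : 1 ≤ L := by
    have : 0 ≤ K * (6 * r) ^ (2 * r) := by positivity
    linarith
  have hX : 1 ≤ X := by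
    by_contra h0
    have h0' : X = 0 := by omega
    rw [h0', Nat.cast_zero, Real.zero_rpow (by linarith), mul_zero] at hX2
    linarith
  refine ⟨hX, ?_⟩
  have hXr : (1 : ℝ) ≤ X := by exact_mod_cast hX
  have hX0 : (0 : ℝ) < X := by linarith
  have hlX : 1 + Real.log X ≤ 3 * L := by
    have h3 : (X : ℝ) ≤ N ^ 2 := by
      calc (X : ℝ) = (X : ℝ) ^ (1 : ℝ) := (Real.rpow_one _).symm
        _ ≤ (X : ℝ) ^ c := Real.rpow_le_rpow_of_exponent_le hXr hc.le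
        _ ≤ B * N := hX1
        _ ≤ N * N := by
            apply mul_le_mul_of_nonneg_right _ hN0.le
            exact_mod_cast (by omega : B ≤ N)
        _ = N ^ 2 := by ring
    have h4 := Real.log_le_log hX0 h3
    rw [Real.log_pow, ← hLd] at h4
    push_cast at h4
    linarith
  have hlX0 : 0 ≤ Real.log X := Real.log_nonneg hXr
  have hLW : 1 ≤ L ^ W := one_le_pow₀ hL1
  have hEn : En r v = En r (fun i => v i + -t) := (Pool.Agent.R459.En_shift r v (-t)).symm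
  have h5 : (En r v : ℝ) ≤ cl r (fun i : Fin X => gp F a 0 (((i : ℕ) + 1 : ℕ) : ℝ)) (2 * r * L ^ W) := by
    rw [hEn]
    exact_mod_cast En_le_cl r _ _ (L ^ W) (fun i => by
      have := hv i
      push_cast at this ⊢
      rw [← sub_eq_add_neg]
      exact this)
  have h6 := h2 X hX (2 * r * L ^ W) (by nlinarith)
  have hXc : 0 < (X : ℝ) ^ c := Real.rpow_pos_of_pos hX0 _
  have h7 : 0 < (X : ℝ) ^ (2 * (r : ℝ) - c) := Real.rpow_pos_of_pos hX0 _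
  calc (En r v : ℝ) * N ≤ (K * (2 * r * L ^ W) ^ (2 * r) * (1 + Real.log X) ^ (2 * r) * (X : ℝ) ^ (2 * r - c)) *
        (L ^ C * (X : ℝ) ^ c) := mul_le_mul (h5.trans h6) hX2 hN0.le (by positivity)
    _ ≤ (K * (2 * r * L ^ W) ^ (2 * r) * (3 * L) ^ (2 * r) * (X : ℝ) ^ (2 * r - c)) *
        (L ^ C * (X : ℝ) ^ c) := by gcongr
    _ = (K * (6 * r) ^ (2 * r)) * (L ^ (2 * r * W + 2 * r + C) * ((X : ℝ) ^ (2 * r - c) * (X : ℝ) ^ c)) := by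
        rw [mul_pow (2 * (r : ℝ)) (L ^ W), mul_pow 3 L, ← pow_mul, pow_add, pow_add,
          show (6 * (r : ℝ)) = (2 * r) * 3 by ring, mul_pow (2 * (r : ℝ)) 3, show W * (2 * r) = 2 * r * W by ring]
        ring
    _ = (K * (6 * r) ^ (2 * r)) * (L ^ (2 * r * W + 2 * r + C) * (X : ℝ) ^ (2 * r)) := by
        rw [← Real.rpow_add hX0]
        congr 2
        rw [← Real.rpow_natCast]
        congr 1
        push_cast
        ring
    _ ≤ L * (L ^ (2 * r * W + 2 * r + C) * (X : ℝ) ^ (2 * r)) := by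
        gcongr
        linarith
    _ = _ := by rw [pow_succ L]; ring

/-- trivial bound for the values -/
lemma gp_abs {F : Finset ℝ} {a : ℝ → ℝ} {c : ℝ} (h : GH F a c) : ∃ D : ℕ, ∀ n : ℕ, 1 ≤ n →
    |gp F a 0 n| ≤ D * (n : ℝ) ^ c := by
  refine ⟨⌈∑ x ∈ F, |a x|⌉₊, fun n hn => ?_⟩
  have hn1 : (1 : ℝ) ≤ n := by exact_mod_cast hn
  rw [gp_zero]
  calc |∑ x ∈ F, a x * (n : ℝ) ^ x| ≤ ∑ x ∈ F, |a x * (n : ℝ) ^ x| := abs_sum_le_sum_abs _ _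
    _ ≤ ∑ x ∈ F, |a x| * (n : ℝ) ^ c := by
        apply sum_le_sum
        intro x hx
        rw [abs_mul, abs_of_nonneg (by positivity : (0 : ℝ) ≤ (n : ℝ) ^ x)]
        gcongr
        exact h.max x hx
    _ = (∑ x ∈ F, |a x|) * (n : ℝ) ^ c := by rw [sum_mul]
    _ ≤ _ := by
        gcongr
        exact Nat.le_ceil _

/-- lower bound for the values -/
lemma gp_low {F : Finset ℝ} {a : ℝ → ℝ} {c : ℝ} (h : GH F a c) : ∃ D : ℕ, ∀ n : ℕ, 1 ≤ n → -(D : ℝ) ≤ gp F a 0 n := by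
  obtain ⟨D₀, h0⟩ := gp_abs h
  obtain ⟨lo, hi, hlo, hhi, h1⟩ := gp_size h 0 (by omega)
  obtain ⟨X₀, h2⟩ := eventually_atTop.mp h1
  refine ⟨⌈(D₀ : ℝ) * ((⌈X₀⌉₊ : ℝ) + 1) ^ c⌉₊, fun n hn => ?_⟩
  have hn1 : (1 : ℝ) ≤ n := by exact_mod_cast hn
  rcases le_or_gt X₀ n with h3 | h3
  · have h4 := (h2 n h3 n ⟨by linarith, by linarith⟩).1
    have h5 : 0 ≤ lo * (n : ℝ) ^ (c - (0 : ℕ)) := by positivity
    have h6 : (0 : ℝ) ≤ (⌈(D₀ : ℝ) * ((⌈X₀⌉₊ : ℝ) + 1) ^ c⌉₊ : ℝ) := Nat.cast_nonneg _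
    linarith
  · have h4 := (abs_le.mp (h0 n hn)).1
    have h5 : (n : ℝ) ^ c ≤ ((⌈X₀⌉₊ : ℝ) + 1) ^ c := by
      apply Real.rpow_le_rpow (by linarith) _ (by linarith [h.one])
      linarith [Nat.le_ceil X₀]
    have h6 : (D₀ : ℝ) * (n : ℝ) ^ c ≤ ⌈(D₀ : ℝ) * ((⌈X₀⌉₊ : ℝ) + 1) ^ c⌉₊ := by
      refine le_trans ?_ (Nat.le_ceil _)
      gcongr
    linarith

/-- energies in the sense of families indexed by `1, ..., X` -/
lemma energy_icc (r X : ℕ) (s : ℕ → ℤ) :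
    (((Fintype.piFinset fun _ : Fin r => Icc 1 X) ×ˢ (Fintype.piFinset fun _ : Fin r => Icc 1 X)).filter
      (fun q => ∑ i, s (q.1 i) = ∑ i, s (q.2 i))).card ≤ En r (fun i : Fin X => s ((i : ℕ) + 1)) := by
  classical
  unfold En
  rw [Nat.card_eq_fintype_card, Fintype.card_subtype]
  refine card_le_card_of_surjOn (fun q => (fun i => ((q.1 i : ℕ) + 1), fun i => ((q.2 i : ℕ) + 1))) ?_
  intro p hp
  rw [mem_coe, mem_filter, mem_product, Fintype.mem_piFinset, Fintype.mem_piFinset] at hp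
  obtain ⟨⟨hp1, hp2⟩, hp3⟩ := hp
  have g1 : ∀ i, p.1 i - 1 < X := fun i => by have := mem_Icc.mp (hp1 i); omega
  have g2 : ∀ i, p.2 i - 1 < X := fun i => by have := mem_Icc.mp (hp2 i); omega
  have k1 : ∀ i, p.1 i - 1 + 1 = p.1 i := fun i => by have := mem_Icc.mp (hp1 i); omega
  have k2 : ∀ i, p.2 i - 1 + 1 = p.2 i := fun i => by have := mem_Icc.mp (hp2 i); omega
  refine ⟨(fun i => ⟨p.1 i - 1, g1 i⟩, fun i => ⟨p.2 i - 1, g2 i⟩), ?_, ?_⟩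
  · rw [mem_coe, mem_filter]
    refine ⟨mem_univ _, ?_⟩
    simp only [k1, k2]
    exact hp3
  · ext i
    · exact k1 i
    · exact k2 i

end Pool.Agent.N666.PS
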