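import Pool.Agent.N666.PS.En

set_option autoImplicit false

/-!
Exponential sums and energies for all the values `f 1, ..., f X` of a generalised polynomial.
-/

namespace Pool.Agent.N666.PS

open Finset Filter
open Pool.Agent.H469R2.NK (e norm_e e_add conj_e e_zero)

/-- the exponential sum over `1 ≤ n ≤ X` -/
noncomputable def SX (F : Finset ℝ) (a : ℝ → ℝ) (θ : ℝ) (X : ℕ) : ℂ := ∑ n ∈ Icc 1 X, e (θ * gp F a 0 n)

lemma SX_triv (F : Finset ℝ) (a : ℝ → ℝ) (θ : ℝ) (X : ℕ) : ‖SX F a θ X‖ ≤ X := by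
  unfold SX
  refine (norm_sum_le _ _).trans ?_
  simp [norm_e]

lemma sum_Icc_eq_range (X : ℕ) (g : ℕ → ℂ) : ∑ n ∈ Icc 1 X, g n = ∑ n ∈ range X, g (n + 1) := by
  have h1 : Icc 1 X = Ico 1 (X + 1) := by
    ext n
    simp only [mem_Icc, mem_Ico]
    omega
  rw [h1, sum_Ico_eq_sum_range, Nat.add_sub_cancel]
  apply sum_congr rfl
  intro n _
  rw [add_comm]

lemma SX_split (F : Finset ℝ) (a : ℝ → ℝ) (θ : ℝ) (X M : ℕ) (hM : M ≤ X) :
    SX F a θ X = SX F a θ M + ∑ n ∈ range (X - M), e (θ * gp F a 0 (((M + 1 : ℕ) : ℝ) + n)) := by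
  unfold SX
  have h1 : Icc 1 X = Icc 1 M ∪ Ico (M + 1) (X + 1) := by
    ext n
    simp only [mem_Icc, mem_union, mem_Ico]
    omega
  have h2 : Disjoint (Icc 1 M) (Ico (M + 1) (X + 1)) := by
    rw [disjoint_left]
    intro n hn hn2
    rw [mem_Icc] at hn
    rw [mem_Ico] at hn2
    omega
  rw [h1, sum_union h2, sum_Ico_eq_sum_range]
  congr 1
  rw [show X + 1 - (M + 1) = X - M by omega]
  apply sum_congr rfl
  intro n _
  congr 3
  push_cast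
  ring

theorem exp_full {F : Finset ℝ} {a : ℝ → ℝ} {c : ℝ} (h : GH F a c) :
    ∃ η C : ℝ, 0 < η ∧ η ≤ 1 ∧ 1 ≤ C ∧ ∀ X : ℕ, 1 ≤ X → ∀ θ : ℝ, 0 < θ → θ ≤ 1 →
      ‖SX F a θ X‖ ≤ C * (1 + Real.log X) * (θ ^ (-(1 / c)) + (X : ℝ) ^ (1 - η)) := by
  obtain ⟨η₀, C, hη₀, hC, h1⟩ := exp_main h
  obtain ⟨X₀, h2⟩ := eventually_atTop.mp h1
  have hc := h.one
  obtain ⟨η, hη⟩ : ∃ η : ℝ, η = min η₀ 1 := ⟨_, rfl⟩
  have hη0 : 0 < η := by rw [hη]; exact lt_min hη₀ one_pos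
  have hηη : η ≤ η₀ := by rw [hη]; exact min_le_left _ _
  have hη1 : η ≤ 1 := by rw [hη]; exact min_le_right _ _
  obtain ⟨N₀, hN₀⟩ : ∃ N₀ : ℕ, N₀ = ⌈X₀⌉₊ + 1 := ⟨_, rfl⟩
  have hN₀1 : 1 ≤ N₀ := by omega
  have hN₀X : X₀ ≤ N₀ := by
    rw [hN₀]
    push_cast
    linarith [Nat.le_ceil X₀]
  obtain ⟨C₁, hC₁⟩ : ∃ C₁ : ℝ, C₁ = C * 2 ^ (c - 1) := ⟨_, rfl⟩
  have hC₁0 : 0 < C₁ := by rw [hC₁]; positivity
  have key : ∀ θ : ℝ, 0 < θ → θ ≤ 1 → ∀ X : ℕ, ‖SX F a θ X‖ ≤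
      2 * N₀ + θ ^ (-(1 / c)) + Nat.log 2 X * (C₁ * θ ^ (-(1 / c)) + (X : ℝ) ^ (1 - η)) := by
    intro θ hθ hθ1 X
    induction X using Nat.strong_induction_on with
    | _ X ih =>
      have hT : 0 < θ ^ (-(1 / c)) := Real.rpow_pos_of_pos hθ _
      have hXη : 0 ≤ (X : ℝ) ^ (1 - η) := by positivity
      have hnn : 0 ≤ (Nat.log 2 X : ℝ) * (C₁ * θ ^ (-(1 / c)) + (X : ℝ) ^ (1 - η)) := by positivity
      rcases Nat.lt_or_ge X (2 * N₀) with hlt | hge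
      · have h3 := SX_triv F a θ X
        have h4 : (X : ℝ) ≤ 2 * N₀ := by exact_mod_cast hlt.le
        linarith
      rcases le_or_gt (X : ℝ) (θ ^ (-(1 / c))) with hle | hgt
      · have h3 := SX_triv F a θ X
        have h4 : (0 : ℝ) ≤ 2 * N₀ := by positivity
        linarith
      have hX2 : 2 ≤ X := by omega
      have hX0 : (0 : ℝ) < X := by exact_mod_cast (by omega : 0 < X)
      have hX1 : (1 : ℝ) ≤ X := by exact_mod_cast (by omega : 1 ≤ X)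
      rw [SX_split F a θ X (X / 2) (Nat.div_le_self _ _)]
      have hM : X / 2 + 1 ≤ X := by omega
      have hM1 : N₀ ≤ X / 2 + 1 := by omega
      have e1 := h2 ((X / 2 + 1 : ℕ) : ℝ) (hN₀X.trans (by exact_mod_cast hM1)) (X / 2 + 1) rfl θ hθ hθ1
        (X - X / 2) (by omega)
      have hMX : (X : ℝ) / 2 ≤ ((X / 2 + 1 : ℕ) : ℝ) := by
        have : X ≤ 2 * (X / 2 + 1) := by omega
        have h5 : (X : ℝ) ≤ 2 * ((X / 2 + 1 : ℕ) : ℝ) := by exact_mod_cast this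
        linarith
      have hM0 : (0 : ℝ) < ((X / 2 + 1 : ℕ) : ℝ) := by positivity
      have t1 : ((X / 2 + 1 : ℕ) : ℝ) ^ (1 - c) / θ ≤ 2 ^ (c - 1) * θ ^ (-(1 / c)) := by
        have h6 : ((X / 2 + 1 : ℕ) : ℝ) ^ (1 - c) ≤ ((X : ℝ) / 2) ^ (1 - c) :=
          Real.rpow_le_rpow_of_nonpos (by linarith) hMX (by linarith)
        have h7 : ((X : ℝ) / 2) ^ (1 - c) = 2 ^ (c - 1) * (X : ℝ) ^ (1 - c) := by
          rw [Real.div_rpow hX0.le (by norm_num), div_eq_inv_mul, ← Real.rpow_neg (by norm_num)]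
          congr 2
          ring
        have h8 : (X : ℝ) ^ (1 - c) ≤ (θ ^ (-(1 / c))) ^ (1 - c) :=
          Real.rpow_le_rpow_of_nonpos hT hgt.le (by linarith)
        have h9 : (θ ^ (-(1 / c))) ^ (1 - c) / θ = θ ^ (-(1 / c)) := by
          rw [← Real.rpow_mul hθ.le, ← Real.rpow_sub_one hθ.ne']
          congr 1
          have : c ≠ 0 := by linarith
          field_simp
          ring
        calc ((X / 2 + 1 : ℕ) : ℝ) ^ (1 - c) / θ ≤ (2 ^ (c - 1) * (θ ^ (-(1 / c))) ^ (1 - c)) / θ := by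
              gcongr
              rw [h7] at h6
              refine h6.trans ?_
              gcongr
          _ = 2 ^ (c - 1) * ((θ ^ (-(1 / c))) ^ (1 - c) / θ) := by ring
          _ = _ := by rw [h9]
      have t2 : ((X / 2 + 1 : ℕ) : ℝ) ^ (1 - η₀) ≤ (X : ℝ) ^ (1 - η) := by
        calc ((X / 2 + 1 : ℕ) : ℝ) ^ (1 - η₀) ≤ ((X / 2 + 1 : ℕ) : ℝ) ^ (1 - η) := by
              apply Real.rpow_le_rpow_of_exponent_le _ (by linarith)
              exact_mod_cast (by omega : 1 ≤ X / 2 + 1)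
          _ ≤ (X : ℝ) ^ (1 - η) := by
              apply Real.rpow_le_rpow hM0.le _ (by linarith)
              exact_mod_cast hM
      have t3 := ih (X / 2) (by omega)
      have t4 : (((X / 2 : ℕ) : ℕ) : ℝ) ^ (1 - η) ≤ (X : ℝ) ^ (1 - η) := by
        apply Real.rpow_le_rpow (by positivity) _ (by linarith)
        exact_mod_cast Nat.div_le_self _ _
      have t5 : (Nat.log 2 X : ℝ) = Nat.log 2 (X / 2) + 1 := by
        have h10 : Nat.log 2 X = Nat.log 2 (X / 2) + 1 := by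
          rw [Nat.log_div_base]
          have : 0 < Nat.log 2 X := Nat.log_pos (by norm_num) hX2
          omega
        rw [h10]
        push_cast
        rfl
      calc ‖SX F a θ (X / 2) + ∑ n ∈ range (X - X / 2), e (θ * gp F a 0 (((X / 2 + 1 : ℕ) : ℝ) + n))‖
          ≤ ‖SX F a θ (X / 2)‖ + ‖∑ n ∈ range (X - X / 2), e (θ * gp F a 0 (((X / 2 + 1 : ℕ) : ℝ) + n))‖ :=
            norm_add_le _ _
        _ ≤ (2 * N₀ + θ ^ (-(1 / c)) + Nat.log 2 (X / 2) * (C₁ * θ ^ (-(1 / c)) + (X : ℝ) ^ (1 - η))) +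
            (C * (2 ^ (c - 1) * θ ^ (-(1 / c))) + (X : ℝ) ^ (1 - η)) := by
            apply add_le_add
            · refine t3.trans ?_
              gcongr
            · refine e1.trans ?_
              gcongr
        _ = _ := by rw [t5, hC₁]; ring
  refine ⟨η, 2 * N₀ + 2 * C₁ + 3, hη0, hη1, by
    have : (0 : ℝ) ≤ N₀ := by positivity
    linarith, fun X hX θ hθ hθ1 => ?_⟩
  have k1 := key θ hθ hθ1 X
  have hX1 : (1 : ℝ) ≤ X := by exact_mod_cast hX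
  have hl0 : 0 ≤ Real.log X := Real.log_nonneg hX1
  have hlog : (Nat.log 2 X : ℝ) ≤ 2 * Real.log X := by
    have h5 : (2 : ℕ) ^ Nat.log 2 X ≤ X := Nat.pow_log_le_self 2 (by omega)
    have h6 : ((2 : ℝ)) ^ Nat.log 2 X ≤ X := by exact_mod_cast h5
    have h7 := Real.log_le_log (by positivity) h6
    rw [Real.log_pow] at h7
    have h8 := Real.log_two_gt_d9
    have h9 : (0 : ℝ) ≤ Nat.log 2 X := by positivity
    nlinarith
  have hT : 1 ≤ θ ^ (-(1 / c)) := Real.one_le_rpow_of_pos_of_le_one_of_nonpos hθ hθ1 (by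
    have : 0 < 1 / c := by positivity
    linarith)
  have hXη : 0 ≤ (X : ℝ) ^ (1 - η) := by positivity
  have hN : (0 : ℝ) ≤ N₀ := by positivity
  have hCC : 0 ≤ C₁ * θ ^ (-(1 / c)) + (X : ℝ) ^ (1 - η) := by positivity
  calc ‖SX F a θ X‖ ≤ 2 * N₀ + θ ^ (-(1 / c)) + Nat.log 2 X * (C₁ * θ ^ (-(1 / c)) + (X : ℝ) ^ (1 - η)) := k1
    _ ≤ 2 * N₀ * (θ ^ (-(1 / c)) + (X : ℝ) ^ (1 - η)) + (θ ^ (-(1 / c)) + (X : ℝ) ^ (1 - η)) +
        2 * Real.log X * ((C₁ + 1) * (θ ^ (-(1 / c)) + (X : ℝ) ^ (1 - η))) := by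
        apply add_le_add (add_le_add _ _) _
        · apply le_mul_of_one_le_right (by positivity)
          linarith
        · linarith
        · apply mul_le_mul hlog _ hCC (by positivity)
          nlinarith
    _ = (2 * N₀ + 1 + 2 * Real.log X * (C₁ + 1)) * (θ ^ (-(1 / c)) + (X : ℝ) ^ (1 - η)) := by ring
    _ ≤ (2 * N₀ + 2 * C₁ + 3) * (1 + Real.log X) * (θ ^ (-(1 / c)) + (X : ℝ) ^ (1 - η)) := by
        gcongr
        nlinarith [mul_nonneg hN hl0, mul_nonneg hC₁0.le hl0]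

/-- **The energy of all the values.** -/
theorem energy_full {F : Finset ℝ} {a : ℝ → ℝ} {c : ℝ} (h : GH F a c) :
    ∃ r₀ : ℕ, 1 ≤ r₀ ∧ ∀ r : ℕ, r₀ ≤ r → ∃ K : ℝ, 0 < K ∧ ∀ X : ℕ, 1 ≤ X → ∀ w : ℝ, 1 ≤ w →
      (cl r (fun i : Fin X => gp F a 0 (((i : ℕ) + 1 : ℕ) : ℝ)) w : ℝ) ≤
        K * w ^ (2 * r) * (1 + Real.log X) ^ (2 * r) * (X : ℝ) ^ (2 * r - c) := by
  obtain ⟨η, C, hη, hη1, hC, h1⟩ := exp_full h
  have hc := h.one
  refine ⟨⌈c / η⌉₊ + ⌈c⌉₊ + 1, by omega, fun r hr => ?_⟩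
  have hrR : (⌈c / η⌉₊ : ℝ) + ⌈c⌉₊ + 1 ≤ r := by exact_mod_cast hr
  have hrη : c ≤ 2 * r * η := by
    have h2 : c / η ≤ ⌈c / η⌉₊ := Nat.le_ceil _
    have h3 : (⌈c / η⌉₊ : ℝ) ≤ r := by linarith [(Nat.cast_nonneg (α := ℝ) ⌈c⌉₊)]
    rw [div_le_iff₀ hη] at h2
    have h4 : (⌈c / η⌉₊ : ℝ) * η ≤ r * η := by
      apply mul_le_mul_of_nonneg_right _ hη.le
      linarith
    have h5 : 0 ≤ (r : ℝ) * η := by positivity
    linarith
  have hrc : c ≤ r := by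
    have h2 : c ≤ ⌈c⌉₊ := Nat.le_ceil _
    have h3 : (⌈c⌉₊ : ℝ) ≤ r := by linarith [(Nat.cast_nonneg (α := ℝ) ⌈c / η⌉₊)]
    linarith
  have hr1 : 1 ≤ r := by omega
  refine ⟨4 * (1 + (2 * C) ^ (2 * r) * 16 ^ (2 * r) * 2) + 4 * (2 * C) ^ (2 * r), by positivity, ?_⟩
  intro X hX w hw
  have hX1 : (1 : ℝ) ≤ X := by exact_mod_cast hX
  have hX0 : (0 : ℝ) < X := by linarith
  obtain ⟨L, hL⟩ : ∃ L : ℝ, L = 1 + Real.log X := ⟨_, rfl⟩
  have hL1 : 1 ≤ L := by rw [hL]; linarith [Real.log_nonneg hX1]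
  rw [← hL]
  obtain ⟨z, hz⟩ : ∃ z : Fin X → ℝ, z = fun i : Fin X => gp F a 0 (((i : ℕ) + 1 : ℕ) : ℝ) := ⟨_, rfl⟩
  rw [← hz]
  obtain ⟨R, hR⟩ : ∃ R : ℕ, R = ⌈(X : ℝ) ^ c⌉₊ := ⟨_, rfl⟩
  have hXc : 1 ≤ (X : ℝ) ^ c := Real.one_le_rpow hX1 (by linarith)
  have hXc0 : 0 < (X : ℝ) ^ c := by linarith
  have hR1 : (X : ℝ) ^ c ≤ R := by rw [hR]; exact Nat.le_ceil _
  have hR2 : (R : ℝ) ≤ 2 * (X : ℝ) ^ c := by
    have := Nat.ceil_lt_add_one hXc0.le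
    rw [← hR] at this
    linarith
  have hR0 : (1 : ℝ) ≤ R := hXc.trans hR1
  have hRn : 1 ≤ R := by exact_mod_cast hR0
  refine (cl_le r _ w (by linarith) R hRn).trans ?_
  have hFz : ∀ θ : ℝ, Fz z θ = SX F a θ X := by
    intro θ
    unfold Fz SX
    rw [hz, Fin.sum_univ_eq_sum_range (fun n => e (θ * gp F a 0 ((n + 1 : ℕ) : ℝ))), sum_Icc_eq_range]
  have hS0 : ‖Fz z 0‖ ^ (2 * r) = (X : ℝ) ^ (2 * r) := by
    rw [Fz_zero, Fintype.card_fin, Complex.norm_natCast]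
  have h12 : 0 < (X : ℝ) ^ (2 * (r : ℝ) - c) := Real.rpow_pos_of_pos hX0 _
  have hS : ∀ m : ℕ, 1 ≤ m → m < R → ‖Fz z (m / (8 * w * R))‖ ^ (2 * r) ≤
      (2 * C) ^ (2 * r) * L ^ (2 * r) * ((16 * w) ^ (2 * r) * (X : ℝ) ^ (2 * r) * (((m : ℝ) ^ 2)⁻¹) + (X : ℝ) ^ (2 * r - c)) := by
    intro m hm hmR
    have hm' : (1 : ℝ) ≤ m := by exact_mod_cast hm
    have hmR' : (m : ℝ) ≤ R := by exact_mod_cast hmR.le
    have hθ0 : 0 < (m : ℝ) / (8 * w * R) := by positivity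
    have hθ1 : (m : ℝ) / (8 * w * R) ≤ 1 := by
      rw [div_le_one (by positivity)]
      nlinarith
    have e2 := h1 X hX _ hθ0 hθ1
    rw [← hL] at e2
    rw [hFz]
    have hmc : 0 < (m : ℝ) ^ (-(1 / c)) := Real.rpow_pos_of_pos (by linarith) _
    have e4 : ((m : ℝ) / (8 * w * R)) ^ (-(1 / c)) ≤ 16 * w * X * (m : ℝ) ^ (-(1 / c)) := by
      have h5 : ((m : ℝ) / (8 * w * R)) ^ (-(1 / c)) = (m : ℝ) ^ (-(1 / c)) * (8 * w * R) ^ (1 / c) := by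
        rw [Real.div_rpow (by positivity) (by positivity), div_eq_mul_inv, ← Real.rpow_neg (by positivity),
          neg_neg]
      have h6 : (8 * w * R) ^ (1 / c) ≤ 16 * w * X := by
        calc (8 * w * R) ^ (1 / c) ≤ (16 * w * (X : ℝ) ^ c) ^ (1 / c) := by
              apply Real.rpow_le_rpow (by positivity) _ (by positivity)
              nlinarith
          _ = (16 * w) ^ (1 / c) * X := by
              rw [Real.mul_rpow (by positivity) (by positivity), ← Real.rpow_mul hX0.le,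
                mul_one_div_cancel (by linarith), Real.rpow_one]
          _ ≤ (16 * w) ^ (1 : ℝ) * X := by
              gcongr
              · linarith
              · rw [div_le_one (by linarith)]
                exact hc.le
          _ = 16 * w * X := by rw [Real.rpow_one]
      rw [h5]
      calc (m : ℝ) ^ (-(1 / c)) * (8 * w * R) ^ (1 / c) ≤ (m : ℝ) ^ (-(1 / c)) * (16 * w * X) := by gcongr
        _ = _ := by ring
    have h7 : 0 < (X : ℝ) ^ (1 - η) := Real.rpow_pos_of_pos hX0 _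
    have h8 : ((X : ℝ) ^ (1 - η)) ^ (2 * r) ≤ (X : ℝ) ^ (2 * r - c) := by
      rw [← Real.rpow_natCast, ← Real.rpow_mul hX0.le]
      apply Real.rpow_le_rpow_of_exponent_le hX1
      push_cast
      linarith
    have h9 : ((m : ℝ) ^ (-(1 / c))) ^ (2 * r) ≤ ((m : ℝ) ^ 2)⁻¹ := by
      have h10 : ((m : ℝ) ^ 2)⁻¹ = (m : ℝ) ^ (-2 : ℝ) := by
        rw [Real.rpow_neg (by linarith)]
        norm_num
      rw [h10, ← Real.rpow_natCast, ← Real.rpow_mul (by linarith)]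
      apply Real.rpow_le_rpow_of_exponent_le hm'
      push_cast
      have h11 : 1 ≤ (r : ℝ) / c := by rw [one_le_div (by linarith)]; exact hrc
      have h13 : -(1 / c) * (2 * (r : ℝ)) = -(2 * (r / c)) := by ring
      rw [h13]
      linarith
    calc ‖SX F a (m / (8 * w * R)) X‖ ^ (2 * r)
        ≤ (C * L * (16 * w * X * (m : ℝ) ^ (-(1 / c)) + (X : ℝ) ^ (1 - η))) ^ (2 * r) := by
          apply pow_le_pow_left₀ (norm_nonneg _)
          refine e2.trans ?_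
          gcongr
      _ = (C * L) ^ (2 * r) * (16 * w * X * (m : ℝ) ^ (-(1 / c)) + (X : ℝ) ^ (1 - η)) ^ (2 * r) := by rw [mul_pow]
      _ ≤ (C * L) ^ (2 * r) * (2 ^ (2 * r - 1) * ((16 * w * X * (m : ℝ) ^ (-(1 / c))) ^ (2 * r) +
            ((X : ℝ) ^ (1 - η)) ^ (2 * r))) := by
          gcongr
          exact add_pow_le (by positivity) h7.le _
      _ ≤ (C * L) ^ (2 * r) * (2 ^ (2 * r) * ((16 * w) ^ (2 * r) * (X : ℝ) ^ (2 * r) * (((m : ℝ) ^ 2)⁻¹) + (X : ℝ) ^ (2 * r - c))) := by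
          have h10 : (2 : ℝ) ^ (2 * r - 1) ≤ 2 ^ (2 * r) := pow_le_pow_right₀ (by norm_num) (by omega)
          have h11 : (16 * w * X * (m : ℝ) ^ (-(1 / c))) ^ (2 * r) ≤ (16 * w) ^ (2 * r) * (X : ℝ) ^ (2 * r) * (((m : ℝ) ^ 2)⁻¹) := by
            rw [mul_pow, mul_pow (16 * w) (X : ℝ)]
            gcongr
          gcongr
      _ = _ := by
          rw [mul_pow 2 C, mul_pow C L]
          ring
  have hsplit : ∑ m ∈ range R, ‖Fz z (m / (8 * w * R))‖ ^ (2 * r) ≤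
      (X : ℝ) ^ (2 * r) + (2 * C) ^ (2 * r) * L ^ (2 * r) * ((16 * w) ^ (2 * r) * (X : ℝ) ^ (2 * r) * 2 + R * (X : ℝ) ^ (2 * r - c)) := by
    have hr' : range R = insert 0 (Ioo 0 R) := by
      ext m
      simp only [mem_range, mem_insert, mem_Ioo]
      omega
    rw [hr', sum_insert (by simp)]
    simp only [Nat.cast_zero, zero_div]
    rw [hS0]
    gcongr
    calc ∑ m ∈ Ioo 0 R, ‖Fz z (m / (8 * w * R))‖ ^ (2 * r)
        ≤ ∑ m ∈ Ioo 0 R, (2 * C) ^ (2 * r) * L ^ (2 * r) * ((16 * w) ^ (2 * r) * (X : ℝ) ^ (2 * r) * (((m : ℝ) ^ 2)⁻¹) + (X : ℝ) ^ (2 * r - c)) := by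
          apply sum_le_sum
          intro m hm
          rw [mem_Ioo] at hm
          exact hS m (by omega) hm.2
      _ = (2 * C) ^ (2 * r) * L ^ (2 * r) * ((16 * w) ^ (2 * r) * (X : ℝ) ^ (2 * r) * (∑ m ∈ Ioo 0 R, ((m : ℝ) ^ 2)⁻¹) +
            (Ioo 0 R).card * (X : ℝ) ^ (2 * r - c)) := by
          rw [← mul_sum, sum_add_distrib, ← mul_sum, sum_const, nsmul_eq_mul]
      _ ≤ _ := by
          have h13 : ∑ m ∈ Ioo 0 R, ((m : ℝ) ^ 2)⁻¹ ≤ 2 := by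
            have := sum_Ioo_inv_sq_le (α := ℝ) 0 R
            simpa using this
          have h14 : (((Ioo 0 R).card : ℕ) : ℝ) ≤ R := by
            rw [Nat.card_Ioo]
            exact_mod_cast (by omega : R - 0 - 1 ≤ R)
          gcongr
  have h15 : (X : ℝ) ^ (2 * (r : ℝ) - c) = (X : ℝ) ^ (2 * r) / (X : ℝ) ^ c := by
    rw [Real.rpow_sub hX0]
    congr 1
    rw [← Real.rpow_natCast]
    push_cast
    rfl
  have hw2 : 1 ≤ w ^ (2 * r) := one_le_pow₀ hw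
  have hL2 : 1 ≤ L ^ (2 * r) := one_le_pow₀ hL1
  calc 4 / R * ∑ m ∈ range R, ‖Fz z (m / (8 * w * R))‖ ^ (2 * r)
      ≤ 4 / R * ((X : ℝ) ^ (2 * r) + (2 * C) ^ (2 * r) * L ^ (2 * r) * ((16 * w) ^ (2 * r) * (X : ℝ) ^ (2 * r) * 2 + R * (X : ℝ) ^ (2 * r - c))) := by
        gcongr
    _ = 4 * (1 + (2 * C) ^ (2 * r) * L ^ (2 * r) * (16 * w) ^ (2 * r) * 2) * ((X : ℝ) ^ (2 * r) / R) +
          4 * (2 * C) ^ (2 * r) * L ^ (2 * r) * (X : ℝ) ^ (2 * r - c) := by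
        have h17 : (R : ℝ) ≠ 0 := by positivity
        field_simp
        ring
    _ ≤ 4 * (w ^ (2 * r) * L ^ (2 * r) + (2 * C) ^ (2 * r) * L ^ (2 * r) * (16 * w) ^ (2 * r) * 2) * ((X : ℝ) ^ (2 * r) / (X : ℝ) ^ c) +
          4 * (2 * C) ^ (2 * r) * (w ^ (2 * r) * L ^ (2 * r)) * (X : ℝ) ^ (2 * r - c) := by
        have h18 : 1 ≤ w ^ (2 * r) * L ^ (2 * r) := by nlinarith
        have h19 : L ^ (2 * r) ≤ w ^ (2 * r) * L ^ (2 * r) := by nlinarith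
        gcongr ?_ * ?_ + ?_ * _
        · gcongr
        · gcongr
        · gcongr
    _ = _ := by
        rw [← h15, mul_pow 16 w]
        ring

end Pool.Agent.N666.PS
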