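import Pool.Agent.N666.PS.Core

set_option autoImplicit false

/-!
Derivatives of generalised polynomials `∑ a_x t ^ x` with a leading exponent `c` which is not an integer.
-/

namespace Pool.Agent.N666.PS

open Finset Filter

/-- the derivatives of `α t ^ c` -/
noncomputable def pw (α c : ℝ) (m : ℕ) (t : ℝ) : ℝ :=
  α * (∏ j ∈ range m, (c - j)) * t ^ (c - m)

lemma pw_der (α c : ℝ) (m : ℕ) (t : ℝ) (ht : 0 < t) : HasDerivAt (pw α c m) (pw α c (m + 1) t) t := by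
  have h1 : HasDerivAt (fun t : ℝ => t ^ (c - m)) ((c - m) * t ^ (c - m - 1)) t :=
    Real.hasDerivAt_rpow_const (Or.inl ht.ne')
  have h2 := h1.const_mul (α * ∏ j ∈ range m, (c - j))
  have e1 : pw α c (m + 1) t = α * (∏ j ∈ range m, (c - j)) * ((c - m) * t ^ (c - m - 1)) := by
    unfold pw
    rw [prod_range_succ]
    push_cast
    rw [show c - (m + 1 : ℝ) = c - m - 1 by ring]
    ring
  rw [e1]
  exact h2

/-- the lower terms are small -/
lemma lower_small (F : Finset ℝ) (a : ℝ → ℝ) (c : ℝ) (hF : ∀ x ∈ F, x < c) (m : ℕ) (η : ℝ)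
    (hη : 0 < η) : ∀ᶠ t : ℝ in atTop, |∑ x ∈ F, pw (a x) x m t| ≤ η * t ^ (c - m) := by
  have h1 : ∀ x ∈ F, ∀ᶠ t : ℝ in atTop, |pw (a x) x m t| ≤ η / (F.card + 1) * t ^ (c - m) := by
    intro x hx
    have hxc := hF x hx
    set D : ℝ := |a x * ∏ j ∈ range m, (x - j)| with hD
    filter_upwards [ev_pow (x - m) (c - m) (D * ((F.card + 1) / η)) (by linarith),
      eventually_gt_atTop (0 : ℝ)] with t h1 h2
    unfold pw
    rw [abs_mul, abs_of_pos (Real.rpow_pos_of_pos h2 _), ← hD]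
    have h3 : (0 : ℝ) < F.card + 1 := by positivity
    rw [div_mul_eq_mul_div, le_div_iff₀ h3]
    have h4 : D * t ^ (x - m) * (F.card + 1) = η * (D * ((F.card + 1) / η) * t ^ (x - m)) := by
      field_simp
    rw [h4]
    exact mul_le_mul_of_nonneg_left h1 hη.le
  have h2 := (Filter.eventually_all_finset F).mpr h1
  filter_upwards [h2, eventually_gt_atTop (0 : ℝ)] with t ht ht0
  calc |∑ x ∈ F, pw (a x) x m t| ≤ ∑ x ∈ F, |pw (a x) x m t| := Finset.abs_sum_le_sum_abs _ _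
    _ ≤ ∑ x ∈ F, η / (F.card + 1) * t ^ (c - m) := Finset.sum_le_sum ht
    _ = F.card * (η / (F.card + 1)) * t ^ (c - m) := by
        rw [sum_const, nsmul_eq_mul]; ring
    _ ≤ η * t ^ (c - m) := by
        apply mul_le_mul_of_nonneg_right _ (Real.rpow_nonneg ht0.le _)
        rw [mul_div_assoc', div_le_iff₀ (by positivity)]
        nlinarith

/-- the generalised polynomial and its derivatives -/
noncomputable def gp (F : Finset ℝ) (a : ℝ → ℝ) (m : ℕ) (t : ℝ) : ℝ := ∑ x ∈ F, pw (a x) x m t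

lemma gp_zero (F : Finset ℝ) (a : ℝ → ℝ) (t : ℝ) : gp F a 0 t = ∑ x ∈ F, a x * t ^ x := by
  unfold gp pw
  simp

lemma gp_der (F : Finset ℝ) (a : ℝ → ℝ) (m : ℕ) (t : ℝ) (ht : 0 < t) :
    HasDerivAt (gp F a m) (gp F a (m + 1) t) t := by
  have := HasDerivAt.fun_sum (u := F) (fun x _ => pw_der (a x) x m t ht)
  exact this

/-- hypotheses: a generalised polynomial with leading exponent `c > 1`, not an integer -/
structure GH (F : Finset ℝ) (a : ℝ → ℝ) (c : ℝ) : Prop where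
  mem : c ∈ F
  max : ∀ x ∈ F, x ≤ c
  pos : 0 < a c
  one : 1 < c
  nint : ∀ m : ℕ, c ≠ m

/-- the leading term dominates -/
lemma gp_lead {F : Finset ℝ} {a : ℝ → ℝ} {c : ℝ} (h : GH F a c) (m : ℕ) (η : ℝ) (hη : 0 < η) :
    ∀ᶠ t : ℝ in atTop, |gp F a m t - a c * (∏ j ∈ range m, (c - j)) * t ^ (c - m)| ≤ η * t ^ (c - m) := by
  have hG : ∀ x ∈ F.erase c, x < c := by
    intro x hx
    rw [Finset.mem_erase] at hx
    exact lt_of_le_of_ne (h.max x hx.2) hx.1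
  filter_upwards [lower_small (F.erase c) a c hG m η hη] with t ht
  have : gp F a m t = pw (a c) c m t + ∑ x ∈ F.erase c, pw (a x) x m t :=
    (Finset.add_sum_erase F (fun x => pw (a x) x m t) h.mem).symm
  rw [this]
  unfold pw at ht ⊢
  simpa using ht

/-- the constants -/
noncomputable def cc (c : ℝ) (m : ℕ) : ℝ := ∏ j ∈ range m, (c - j)

lemma cc_pos {c : ℝ} (h : 1 < c) (hn : ∀ m : ℕ, c ≠ m) (m : ℕ) (hm : m ≤ ⌊c⌋₊ + 1) : 0 < cc c m := by
  unfold cc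
  apply prod_pos
  intro j hj
  have h1 : j ≤ ⌊c⌋₊ := by
    have := mem_range.mp hj
    omega
  have h2 : (j : ℝ) ≤ c := (Nat.cast_le.mpr h1).trans (Nat.floor_le (by linarith))
  have h3 : (j : ℝ) ≠ c := (hn j).symm
  have h4 : (j : ℝ) < c := lt_of_le_of_ne h2 h3
  linarith

lemma cc_neg {c : ℝ} (h : 1 < c) (hn : ∀ m : ℕ, c ≠ m) : cc c (⌊c⌋₊ + 2) < 0 := by
  unfold cc
  rw [show ⌊c⌋₊ + 2 = (⌊c⌋₊ + 1) + 1 by ring, prod_range_succ]
  have h1 := cc_pos h hn (⌊c⌋₊ + 1) le_rfl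
  unfold cc at h1
  apply mul_neg_of_pos_of_neg h1
  have := Nat.lt_floor_add_one c
  push_cast
  linarith

/-- size of the derivatives on dyadic intervals -/
lemma gp_size {F : Finset ℝ} {a : ℝ → ℝ} {c : ℝ} (h : GH F a c) (m : ℕ) (hm : m ≤ ⌊c⌋₊ + 1) :
    ∃ lo hi : ℝ, 0 < lo ∧ 0 < hi ∧ ∀ᶠ X : ℝ in atTop, ∀ t ∈ Set.Icc (X / 2) (2 * X),
      lo * X ^ (c - m) ≤ gp F a m t ∧ gp F a m t ≤ hi * X ^ (c - m) := by
  obtain ⟨D, hD⟩ : ∃ D : ℝ, D = a c * cc c m := ⟨_, rfl⟩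
  have hD0 : 0 < D := by rw [hD]; exact mul_pos h.pos (cc_pos h.one h.nint m hm)
  obtain ⟨u, hu⟩ : ∃ u : ℝ, u = (1 / 2) ^ (c - m) := ⟨_, rfl⟩
  obtain ⟨v, hv⟩ : ∃ v : ℝ, v = 2 ^ (c - m) := ⟨_, rfl⟩
  have hu0 : 0 < u := by rw [hu]; positivity
  have hv0 : 0 < v := by rw [hv]; positivity
  refine ⟨D / 2 * min u v, 2 * D * max u v, by positivity, by positivity, ?_⟩
  obtain ⟨t₀, ht₀⟩ := eventually_atTop.mp (gp_lead h m (D / 2) (by positivity))
  filter_upwards [eventually_ge_atTop (2 * t₀), eventually_gt_atTop (0 : ℝ)] with X hX hX0 t ht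
  have h1 := abs_le.mp (ht₀ t ((by linarith : t₀ ≤ X / 2).trans ht.1))
  have e1 : a c * (∏ j ∈ range m, (c - j)) = D := by rw [hD]; rfl
  rw [e1] at h1
  have hX2 : 0 < X / 2 := by linarith
  have ht0 : 0 < t := hX2.trans_le ht.1
  have hXp : 0 < X ^ (c - m) := Real.rpow_pos_of_pos hX0 _
  have htp : 0 < t ^ (c - m) := Real.rpow_pos_of_pos ht0 _
  have hb : min u v * X ^ (c - m) ≤ t ^ (c - m) ∧ t ^ (c - m) ≤ max u v * X ^ (c - m) := by
    have e2 : (X / 2) ^ (c - m) = u * X ^ (c - m) := by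
      rw [hu, ← Real.mul_rpow (by norm_num) hX0.le]
      congr 1
      ring
    have e3 : (2 * X) ^ (c - m) = v * X ^ (c - m) := by
      rw [hv, ← Real.mul_rpow (by norm_num) hX0.le]
    rcases le_total 0 (c - m) with h0 | h0
    · constructor
      · calc min u v * X ^ (c - m) ≤ u * X ^ (c - m) := by
              gcongr; exact min_le_left _ _
          _ = (X / 2) ^ (c - m) := e2.symm
          _ ≤ t ^ (c - m) := Real.rpow_le_rpow hX2.le ht.1 h0
      · calc t ^ (c - m) ≤ (2 * X) ^ (c - m) := Real.rpow_le_rpow ht0.le ht.2 h0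
          _ = v * X ^ (c - m) := e3
          _ ≤ _ := by gcongr; exact le_max_right _ _
    · constructor
      · calc min u v * X ^ (c - m) ≤ v * X ^ (c - m) := by
              gcongr; exact min_le_right _ _
          _ = (2 * X) ^ (c - m) := e3.symm
          _ ≤ t ^ (c - m) := Real.rpow_le_rpow_of_nonpos ht0 ht.2 h0
      · calc t ^ (c - m) ≤ (X / 2) ^ (c - m) := Real.rpow_le_rpow_of_nonpos hX2 ht.1 h0
          _ = u * X ^ (c - m) := e2
          _ ≤ _ := by gcongr; exact le_max_left _ _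
  constructor
  · calc D / 2 * min u v * X ^ (c - m) = D / 2 * (min u v * X ^ (c - m)) := by ring
      _ ≤ D / 2 * t ^ (c - m) := by gcongr; exact hb.1
      _ ≤ _ := by linarith [h1.1]
  · calc gp F a m t ≤ 2 * D * t ^ (c - m) := by nlinarith [h1.2]
      _ ≤ 2 * D * (max u v * X ^ (c - m)) := by gcongr; exact hb.2
      _ = _ := by ring

/-- the derivative of order `⌊c⌋ + 2` is negative -/
lemma gp_neg {F : Finset ℝ} {a : ℝ → ℝ} {c : ℝ} (h : GH F a c) :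
    ∀ᶠ X : ℝ in atTop, ∀ t ∈ Set.Icc (X / 2) (2 * X), gp F a (⌊c⌋₊ + 2) t ≤ 0 := by
  obtain ⟨D, hD⟩ : ∃ D : ℝ, D = -(a c * cc c (⌊c⌋₊ + 2)) := ⟨_, rfl⟩
  have hD0 : 0 < D := by
    rw [hD]
    have := mul_neg_of_pos_of_neg h.pos (cc_neg h.one h.nint)
    linarith
  obtain ⟨t₀, ht₀⟩ := eventually_atTop.mp (gp_lead h (⌊c⌋₊ + 2) D hD0)
  filter_upwards [eventually_ge_atTop (2 * t₀), eventually_gt_atTop (0 : ℝ)] with X hX hX0 t ht
  have h1 := abs_le.mp (ht₀ t ((by linarith : t₀ ≤ X / 2).trans ht.1))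
  have e1 : a c * (∏ j ∈ range (⌊c⌋₊ + 2), (c - j)) = -D := by rw [hD]; unfold cc; ring
  rw [e1] at h1
  linarith [h1.2]

end Pool.Agent.N666.PS
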