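import Pool.Agent.N666.PS.Exp2
import Pool.Agent.N666.PS.Pw

set_option autoImplicit false

/-!
Exponential sums over the values of generalised polynomials.
-/

namespace Pool.Agent.N666.PS

open Finset Filter
open Pool.Agent.H469R2.NK (e Cq Cq_pos)
open Pool.Agent.TH915.PW (Hy)

/-- the inequality of van der Corput for all orders `j ≤ ⌊c⌋` -/
lemma vdc {F : Finset ℝ} {a : ℝ → ℝ} {c : ℝ} (h : GH F a c) (j : ℕ) (hj : j ≤ ⌊c⌋₊) :
    ∃ lo hi : ℝ, 0 < lo ∧ 0 < hi ∧ ∀ᶠ X : ℝ in atTop, ∀ N : ℕ, (N : ℝ) = X → ∀ θ : ℝ, 0 < θ →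
      ∀ L ≤ N, ∀ H : ℕ, 1 ≤ H → (H : ℝ) ≤ X →
      2 * (hi * (θ * X ^ (c - (j + 1 : ℕ))) * (H : ℝ) ^ j) ≤ 1 →
      (‖∑ n ∈ range L, e (θ * gp F a 0 (X + n))‖ / X) ^ (2 ^ j) ≤
        Cq j * (1 / H + 2 / (lo * (θ * X ^ (c - (j + 1 : ℕ)))) / X * ((1 + Real.log H) / H) ^ j) := by
  obtain ⟨lo, hi, hlo, hhi, hb⟩ := gp_size h (j + 1) (by omega)
  refine ⟨lo, hi, hlo, hhi, ?_⟩
  rcases Nat.lt_or_ge j ⌊c⌋₊ with hlt | hge
  · obtain ⟨lo2, hi2, hlo2, hhi2, hb2⟩ := gp_size h (j + 2) (by omega)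
    filter_upwards [hb, hb2, eventually_ge_atTop (2 : ℝ)] with X hX1 hX2 hX N hN θ hθ L hL H hH hHX hup
    have hX0 : 0 < X := by linarith
    have hp : 0 < X ^ (c - (j + 1 : ℕ)) := Real.rpow_pos_of_pos hX0 _
    have hp2 : 0 < X ^ (c - (j + 2 : ℕ)) := Real.rpow_pos_of_pos hX0 _
    have hN1 : 1 ≤ N := by
      have : (1 : ℝ) ≤ N := by rw [hN]; linarith
      exact_mod_cast this
    have hHy : Hy' j (X / 2) (2 * X) (lo * X ^ (c - (j + 1 : ℕ))) (hi * X ^ (c - (j + 1 : ℕ))) (gp F a) := by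
      refine ⟨fun m _ t ht => gp_der F a m t ((by linarith : 0 < X / 2).trans_le ht.1), fun t ht => (hX1 t ht).1,
        fun t ht => (hX1 t ht).2, fun t ht => ?_⟩
      exact (by positivity : 0 ≤ lo2 * X ^ (c - (j + 2 : ℕ))).trans (hX2 t ht).1
    have hLX : (L : ℝ) ≤ X := by rw [← hN]; exact_mod_cast hL
    have key := exp_bound_inc (by positivity) (by positivity) θ hθ hHy X N L H hN1 hL (by linarith) (by linarith)
      hH (by rw [← hN] at hHX; exact_mod_cast hHX) (by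
        refine le_trans (le_of_eq ?_) hup
        ring)
    rw [hN] at key
    refine key.trans (le_of_eq ?_)
    congr 3
    ring
  · filter_upwards [hb, gp_neg h, eventually_ge_atTop (2 : ℝ)] with X hX1 hX2 hX N hN θ hθ L hL H hH hHX hup
    have hX0 : 0 < X := by linarith
    have hjc : j = ⌊c⌋₊ := le_antisymm hj hge
    have hp : 0 < X ^ (c - (j + 1 : ℕ)) := Real.rpow_pos_of_pos hX0 _
    have hN1 : 1 ≤ N := by
      have : (1 : ℝ) ≤ N := by rw [hN]; linarith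
      exact_mod_cast this
    have hHy : Hy j (X / 2) (2 * X) (lo * X ^ (c - (j + 1 : ℕ))) (hi * X ^ (c - (j + 1 : ℕ))) (gp F a) := by
      refine ⟨fun m _ t ht => gp_der F a m t ((by linarith : 0 < X / 2).trans_le ht.1), fun t ht => (hX1 t ht).1,
        fun t ht => (hX1 t ht).2, fun t ht => ?_⟩
      rw [hjc]
      exact hX2 t ht
    have hLX : (L : ℝ) ≤ X := by rw [← hN]; exact_mod_cast hL
    have key := exp_bound' (by positivity) (by positivity) θ hθ hHy X N L H hN1 hL (by linarith) (by linarith)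
      hH (by rw [← hN] at hHX; exact_mod_cast hHX) (by
        refine le_trans (le_of_eq ?_) hup
        ring)
    rw [hN] at key
    refine key.trans (le_of_eq ?_)
    congr 3
    ring

/-- the power savings of all orders at once -/
lemma saving {F : Finset ℝ} {a : ℝ → ℝ} {c : ℝ} (h : GH F a c) (δ : ℝ) (hδ : 0 < δ) (hδ1 : δ ≤ 1 / 2) (K : ℕ)
    (hK : K ≤ ⌊c⌋₊) :
    ∃ η : ℝ, 0 < η ∧ ∀ᶠ X : ℝ in atTop, ∀ N : ℕ, (N : ℝ) = X → ∀ θ : ℝ, 0 < θ →
      ∀ L ≤ N, ∀ j : ℕ, 1 ≤ j → j ≤ K → X ^ (-1 - δ) ≤ θ * X ^ (c - (j + 1 : ℕ)) →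
        θ * X ^ (c - (j + 1 : ℕ)) ≤ X ^ (-δ) →
      ‖∑ n ∈ range L, e (θ * gp F a 0 (X + n))‖ ≤ X ^ (1 - η) := by
  induction K with
  | zero =>
    refine ⟨1, one_pos, Eventually.of_forall ?_⟩
    intro X N _ θ _ L _ j h1 h2
    omega
  | succ K ih =>
    obtain ⟨η, hη, h1⟩ := ih (by omega)
    obtain ⟨lo, hi, hlo, hhi, h2⟩ := vdc h (K + 1) hK
    obtain ⟨η', hη', h3⟩ := core (K + 1) (by omega) lo hi δ (Cq (K + 1)) hlo hhi hδ hδ1 (Cq_pos _).le
    refine ⟨min η η', lt_min hη hη', ?_⟩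
    filter_upwards [h1, h2, h3, eventually_ge_atTop (1 : ℝ)] with X e1 e2 e3 hX N hN θ hθ L hL j hj1 hj2 hl1 hl2
    rcases Nat.lt_or_ge j (K + 1) with hlt | hge
    · refine (e1 N hN θ hθ L hL j hj1 (by omega) hl1 hl2).trans ?_
      apply Real.rpow_le_rpow_of_exponent_le hX
      have := min_le_left η η'
      linarith
    · have hjK : j = K + 1 := le_antisymm hj2 hge
      subst hjK
      refine (e3 _ hl1 hl2 _ (norm_nonneg _) (fun H hH hHX hup => e2 N hN θ hθ L hL H hH hHX hup)).trans ?_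
      apply Real.rpow_le_rpow_of_exponent_le hX
      have := min_le_right η η'
      linarith

/-- **Exponential sums over generalised polynomials.** -/
theorem exp_main {F : Finset ℝ} {a : ℝ → ℝ} {c : ℝ} (h : GH F a c) :
    ∃ η C : ℝ, 0 < η ∧ 0 < C ∧ ∀ᶠ X : ℝ in atTop, ∀ N : ℕ, (N : ℝ) = X → ∀ θ : ℝ, 0 < θ → θ ≤ 1 →
      ∀ L ≤ N, ‖∑ n ∈ range L, e (θ * gp F a 0 (X + n))‖ ≤ C * (X ^ (1 - c) / θ) + X ^ (1 - η) := by
  have hc := h.one
  obtain ⟨k, hk⟩ : ∃ k : ℕ, k = ⌊c⌋₊ := ⟨_, rfl⟩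
  have hk1 : 1 ≤ k := by
    rw [hk, Nat.one_le_floor_iff]
    exact hc.le
  have hkc : c < k + 1 := by rw [hk]; exact Nat.lt_floor_add_one _
  obtain ⟨δ, hδd⟩ : ∃ δ : ℝ, δ = min (1 / 2) (k + 1 - c) := ⟨_, rfl⟩
  have hδ : 0 < δ := by rw [hδd]; exact lt_min (by norm_num) (by linarith)
  have hδ1 : δ ≤ 1 / 2 := by rw [hδd]; exact min_le_left _ _
  have hδ2 : δ ≤ k + 1 - c := by rw [hδd]; exact min_le_right _ _
  obtain ⟨η, hη, h1⟩ := saving h δ hδ hδ1 k hk.le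
  obtain ⟨lo, hi, hlo, hhi, h2⟩ := vdc h 0 (by omega)
  have hC0 := Cq_pos 0
  refine ⟨η, Cq 0 * (1 / (2 * hi) + 2 / lo), hη, by positivity, ?_⟩
  filter_upwards [h1, h2, eventually_ge_atTop (1 : ℝ), ev_pow (-1 - δ) (-1) (2 * hi) (by linarith)]
    with X e1 e2 hX e3 N hN θ hθ hθ1 L hL
  have hX0 : 0 < X := by linarith
  have hXc : 0 < X ^ (1 - c) := Real.rpow_pos_of_pos hX0 _
  have hXη : 0 < X ^ (1 - η) := Real.rpow_pos_of_pos hX0 _
  rcases le_or_gt θ (X ^ (1 - c) / (2 * hi)) with hA | hB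
  · -- small frequencies
    have hN1 : 1 ≤ N := by
      have : (1 : ℝ) ≤ N := by rw [hN]; exact hX
      exact_mod_cast this
    have e4 : X ^ (1 - c) * X ^ (c - 1) = 1 := by
      rw [← Real.rpow_add hX0]; simp
    have hXc1 : 0 < X ^ (c - 1) := Real.rpow_pos_of_pos hX0 _
    have key := e2 N hN θ hθ L hL N hN1 hN.le (by
      simp only [zero_add, Nat.cast_one, pow_zero, mul_one]
      rw [le_div_iff₀ (by positivity)] at hA
      calc 2 * (hi * (θ * X ^ (c - 1))) = (θ * (2 * hi)) * X ^ (c - 1) := by ring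
        _ ≤ X ^ (1 - c) * X ^ (c - 1) := by gcongr
        _ = 1 := e4)
    simp only [pow_zero, pow_one, zero_add, Nat.cast_one, mul_one] at key
    rw [div_le_iff₀ hX0, hN] at key
    have e5 : X ^ (c - 1) = 1 / X ^ (1 - c) := by
      rw [eq_div_iff hXc.ne', mul_comm]; exact e4
    have e6 : 1 ≤ 1 / (2 * hi) * (X ^ (1 - c) / θ) := by
      have h7 : 1 / (2 * hi) * (X ^ (1 - c) / θ) = (X ^ (1 - c) / (2 * hi)) / θ := by ring
      rw [h7, one_le_div hθ]
      exact hA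
    calc ‖∑ n ∈ range L, e (θ * gp F a 0 (X + n))‖
        ≤ Cq 0 * (1 / X + 2 / (lo * (θ * X ^ (c - 1))) / X) * X := key
      _ = Cq 0 * (1 + 2 / lo * (X ^ (1 - c) / θ)) := by
          rw [e5]
          field_simp
      _ ≤ Cq 0 * (1 / (2 * hi) * (X ^ (1 - c) / θ) + 2 / lo * (X ^ (1 - c) / θ)) := by
          gcongr
      _ = Cq 0 * (1 / (2 * hi) + 2 / lo) * (X ^ (1 - c) / θ) := by ring
      _ ≤ _ := by linarith
  · -- the other frequencies
    have hex : ∃ j : ℕ, 1 ≤ j ∧ θ * X ^ (c - (j + 1 : ℕ)) ≤ X ^ (-δ) := by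
      refine ⟨k, hk1, ?_⟩
      calc θ * X ^ (c - (k + 1 : ℕ)) ≤ 1 * X ^ (c - (k + 1 : ℕ)) := by
            gcongr
        _ = X ^ (c - (k + 1 : ℕ)) := one_mul _
        _ ≤ X ^ (-δ) := by
            apply Real.rpow_le_rpow_of_exponent_le hX
            push_cast
            linarith
    classical
    obtain ⟨j, hj⟩ : ∃ j : ℕ, j = Nat.find hex := ⟨_, rfl⟩
    have hj1 := Nat.find_spec hex
    rw [← hj] at hj1
    have hjk : j ≤ k := by
      rw [hj]
      apply Nat.find_min' hex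
      refine ⟨hk1, ?_⟩
      calc θ * X ^ (c - (k + 1 : ℕ)) ≤ 1 * X ^ (c - (k + 1 : ℕ)) := by
            gcongr
        _ = X ^ (c - (k + 1 : ℕ)) := one_mul _
        _ ≤ X ^ (-δ) := by
            apply Real.rpow_le_rpow_of_exponent_le hX
            push_cast
            linarith
    have hlow : X ^ (-1 - δ) ≤ θ * X ^ (c - (j + 1 : ℕ)) := by
      rcases Nat.lt_or_ge 1 j with hgt | hle
      · have hnot : ¬ (1 ≤ j - 1 ∧ θ * X ^ (c - (j - 1 + 1 : ℕ)) ≤ X ^ (-δ)) :=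
          Nat.find_min hex (by omega)
        rw [not_and] at hnot
        have h8 := not_le.mp (hnot (by omega))
        rw [show (j - 1 + 1 : ℕ) = j by omega] at h8
        have e7 : θ * X ^ (c - (j + 1 : ℕ)) = θ * X ^ (c - j) * X ^ (-1 : ℝ) := by
          rw [mul_assoc, ← Real.rpow_add hX0]
          congr 2
          push_cast
          ring
        have e8 : X ^ (-1 - δ) = X ^ (-δ) * X ^ (-1 : ℝ) := by
          rw [← Real.rpow_add hX0]
          congr 1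
          ring
        rw [e7, e8]
        gcongr
      · have hj11 : j = 1 := le_antisymm hle hj1.1
        rw [hj11]
        rw [div_lt_iff₀ (by positivity)] at hB
        have e7 : X ^ (1 - c) * X ^ (c - (1 + 1 : ℕ)) = X ^ (-1 : ℝ) := by
          rw [← Real.rpow_add hX0]
          congr 1
          push_cast
          ring
        have h9 : 2 * hi * X ^ (-1 - δ) ≤ 2 * hi * (θ * X ^ (c - (1 + 1 : ℕ))) := by
          calc 2 * hi * X ^ (-1 - δ) ≤ X ^ (-1 : ℝ) := e3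
            _ = X ^ (1 - c) * X ^ (c - (1 + 1 : ℕ)) := e7.symm
            _ ≤ (θ * (2 * hi)) * X ^ (c - (1 + 1 : ℕ)) := by gcongr
            _ = _ := by ring
        exact le_of_mul_le_mul_left h9 (by positivity)
    have key := e1 N hN θ hθ L hL j hj1.1 hjk hlow hj1.2
    have : 0 ≤ Cq 0 * (1 / (2 * hi) + 2 / lo) * (X ^ (1 - c) / θ) := by positivity
    linarith

end Pool.Agent.N666.PS
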