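import Pool.Agent.N666.PS.Blk
import Pool.Agent.R459.Nbhd

set_option autoImplicit false

/-!
All the even integers near almost all values of a generalised polynomial.
-/

namespace Pool.Agent.N666.PS

open Finset Filter
open Pool.Agent.TH935.GF (En)

lemma rpow_ceil (N : ℕ) (hN : 1 ≤ N) (c : ℝ) (hc : 1 < c) :
    N ≤ ⌈(N : ℝ) ^ c⌉₊ ∧ (N : ℝ) ^ c ≤ (⌈(N : ℝ) ^ c⌉₊ : ℝ) ∧ ((⌈(N : ℝ) ^ c⌉₊ : ℕ) : ℝ) ≤ 2 * (N : ℝ) ^ c := by
  have hN' : (1 : ℝ) ≤ N := by exact_mod_cast hN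
  have h1 : (1 : ℝ) ≤ (N : ℝ) ^ c := Real.one_le_rpow hN' (by linarith)
  have h2 : (N : ℝ) ≤ (N : ℝ) ^ c := by
    conv_lhs => rw [← Real.rpow_one (N : ℝ)]
    exact Real.rpow_le_rpow_of_exponent_le hN' hc.le
  have h3 := Nat.le_ceil ((N : ℝ) ^ c)
  refine ⟨by exact_mod_cast h2.trans h3, h3, ?_⟩
  have := Nat.ceil_lt_add_one (by linarith : 0 ≤ (N : ℝ) ^ c)
  linarith

theorem near_block {F : Finset ℝ} {a : ℝ → ℝ} {c : ℝ} (h : GH F a c) (A W U m₀ : ℕ) (ε : ℝ) (hε : 0 < ε)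
    (P : ℕ → Prop) (hP : ∀ m : ℕ, m₀ ≤ m → 2 ∣ m → Pool.Agent.W93.PG.WinP ε A m → P m) :
    ∃ N₀ : ℕ, ∀ N : ℕ, N₀ ≤ N → ∀ S : Finset (Fin N), (∀ i ∈ S, ∃ m : ℕ, 0 < m ∧ Even m ∧
      |(m : ℝ) - gp F a 0 ((N : ℝ) + (i : ℕ))| ≤ Real.log N ^ W ∧ ¬ P m) → (S.card : ℝ) ≤ N / Real.log N ^ U := by
  obtain ⟨r, hr1, h1⟩ := energy_int h
  obtain ⟨K, hK, n0, h2⟩ := h1 r le_rfl 1 le_rfl
  obtain ⟨lo, hi, hlo, hhi, h3⟩ := gp_size h 0 (by omega)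
  obtain ⟨X₀, h4⟩ := eventually_atTop.mp h3
  obtain ⟨n1, h5⟩ := Pool.Agent.R459.near_even r A ⌈hi⌉₊ 1 (W + 1) U m₀ hr1 ε hε P hP
  obtain ⟨n2, h6⟩ := Pool.Agent.H373R2.T7.ev_L' (2 * K + 2)
  refine ⟨n0 + n1 + n2 + ⌈X₀⌉₊ + 3, fun N hN S hS => ?_⟩
  have hL := h6 N (by omega)
  have hN3 : (3 : ℝ) ≤ N := by exact_mod_cast (by omega : 3 ≤ N)
  have hN0 : (0 : ℝ) < N := by linarith
  obtain ⟨hT1, hT2, hT3⟩ := rpow_ceil N (by omega) c h.one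
  obtain ⟨T, hT⟩ : ∃ T : ℕ, T = ⌈(N : ℝ) ^ c⌉₊ := ⟨_, rfl⟩
  rw [← hT] at hT1 hT2 hT3
  have hT1' : (N : ℝ) ≤ T := by exact_mod_cast hT1
  have hlog : Real.log N ≤ Real.log T := Real.log_le_log hN0 hT1'
  have hlog2 : 2 ≤ Real.log N := by linarith
  have hXN : X₀ ≤ N := (Nat.le_ceil X₀).trans (by exact_mod_cast (by omega : ⌈X₀⌉₊ ≤ N))
  obtain ⟨v, hv⟩ : ∃ v : Fin N → ℤ, v = fun i : Fin N => ⌊gp F a 0 ((N : ℝ) + (i : ℕ))⌋ := ⟨_, rfl⟩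
  have hv1 : ∀ i, |(v i : ℝ) - gp F a 0 ((N : ℝ) + (i : ℕ))| ≤ 1 := by
    intro i
    rw [hv]
    simp only
    have h7 := Int.floor_le (gp F a 0 ((N : ℝ) + (i : ℕ)))
    have h8 := Int.lt_floor_add_one (gp F a 0 ((N : ℝ) + (i : ℕ)))
    rw [abs_le]
    constructor <;> linarith
  have hE := h2 N (by omega) v hv1
  have key := h5 T (by omega) (Fin N) v (fun i => by
    have hi' : ((i : ℕ) : ℝ) ≤ N := by exact_mod_cast i.2.le
    have h7 := (h4 N hXN ((N : ℝ) + (i : ℕ)) ⟨by linarith [Nat.cast_nonneg (α := ℝ) (i : ℕ)], by linarith⟩).2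
    have h8 : (v i : ℝ) ≤ (⌈hi⌉₊ : ℝ) * T := by
      rw [hv]
      simp only
      refine (Int.floor_le _).trans (h7.trans ?_)
      simp only [Nat.cast_zero, sub_zero]
      exact mul_le_mul (Nat.le_ceil hi) hT2 (by positivity) (by positivity)
    exact_mod_cast h8) (by
    rw [Fintype.card_fin, pow_one]
    calc (En r v : ℝ) * T ≤ En r v * (2 * (N : ℝ) ^ c) := by gcongr
      _ = 2 * (En r v * (N : ℝ) ^ c) := by ring
      _ ≤ 2 * (K * (N : ℝ) ^ (2 * r)) := by gcongr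
      _ = (2 * K) * (N : ℝ) ^ (2 * r) := by ring
      _ ≤ Real.log T * (N : ℝ) ^ (2 * r) := by
        gcongr
        linarith) S (fun i hi' => by
    obtain ⟨m, m1, m2, m3, m4⟩ := hS i hi'
    refine ⟨m, m1, m2, ?_, m4⟩
    have h7 := hv1 i
    have h8 : |(m : ℝ) - v i| ≤ |(m : ℝ) - gp F a 0 ((N : ℝ) + (i : ℕ))| + |(v i : ℝ) - gp F a 0 ((N : ℝ) + (i : ℕ))| := by
      have e1 : (m : ℝ) - v i = ((m : ℝ) - gp F a 0 ((N : ℝ) + (i : ℕ))) - ((v i : ℝ) - gp F a 0 ((N : ℝ) + (i : ℕ))) := by ring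
      rw [e1]
      exact abs_sub _ _
    have h9 : Real.log N ^ W ≤ Real.log T ^ W := pow_le_pow_left₀ (by linarith) hlog W
    have h10 : 1 ≤ Real.log T ^ W := one_le_pow₀ (by linarith)
    push_cast
    calc |(m : ℝ) - v i| ≤ Real.log T ^ W * 2 := by linarith
      _ ≤ Real.log T ^ W * Real.log T := by gcongr; linarith
      _ = Real.log T ^ (W + 1) := by rw [pow_succ])
  rw [Fintype.card_fin] at key
  refine key.trans ?_
  have h11 : Real.log N ^ U ≤ Real.log T ^ U := pow_le_pow_left₀ (by linarith) hlog U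
  have h12 : 0 < Real.log N ^ U := pow_pos (by linarith) U
  exact div_le_div_of_nonneg_left hN0.le h12 h11

/-- from dyadic blocks to all `n ≤ X`: the bad sets may depend on `X` through a power of `log X` -/
theorem all_of_blocks (U W : ℕ) (bad : ℝ → ℕ → Prop) (hmono : ∀ w w' : ℝ, w ≤ w' → ∀ n, bad w n → bad w' n)
    (hb : ∀ U W : ℕ, ∃ N₀ : ℕ, ∀ N : ℕ, N₀ ≤ N → ∀ S : Finset (Fin N), (∀ i ∈ S, bad (Real.log N ^ W) (N + i)) →
      (S.card : ℝ) ≤ N / Real.log N ^ U) :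
    ∃ X₀ : ℕ, ∀ X : ℕ, X₀ ≤ X → ∀ S : Finset ℕ, S ⊆ Icc 1 X → (∀ n ∈ S, bad (Real.log X ^ W) n) →
      (S.card : ℝ) ≤ X / Real.log X ^ U := by
  classical
  obtain ⟨N₀, h0⟩ := hb (U + 1) (2 * W)
  obtain ⟨n1, h1⟩ := Pool.Agent.H373R2.T7.ev_L' 4
  obtain ⟨n2, h2⟩ := Pool.Agent.H373R2.T7.ev_log' U 4
  obtain ⟨n3, h3⟩ := Pool.Agent.H373R2.T7.ev_L' (2 * 4 ^ (U + 2))
  refine ⟨(N₀ + n1 + n2 + n3 + 3) ^ 2, fun X hX S hSX hS => ?_⟩
  obtain ⟨s, hs⟩ : ∃ s : ℕ, s = Nat.sqrt X := ⟨_, rfl⟩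
  have hs1 : N₀ + n1 + n2 + n3 + 3 ≤ s := by
    rw [hs, Nat.le_sqrt']
    exact hX
  have hXs : N₀ + n1 + n2 + n3 + 3 ≤ X := hs1.trans (by rw [hs]; exact Nat.sqrt_le_self X)
  have hX3 : (3 : ℝ) ≤ X := by exact_mod_cast (by omega : 3 ≤ X)
  have hX0 : (0 : ℝ) < X := by linarith
  obtain ⟨L, hL⟩ : ∃ L : ℝ, L = Real.log X := ⟨_, rfl⟩
  have e2 := h2 X (by omega)
  have e3 := h3 X (by omega)
  rw [← hL] at e2 e3
  have hL1 : 1 ≤ L := by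
    have : (1 : ℝ) ≤ 2 * 4 ^ (U + 2) := by
      have : (1 : ℝ) ≤ 4 ^ (U + 2) := one_le_pow₀ (by norm_num)
      linarith
    linarith
  have hLU : 0 < L ^ U := by positivity
  have hLU1 : 0 < L ^ (U + 1) := by positivity
  have hd := dyadic (fun n => n ∈ S) (4 ^ (U + 1) / L ^ (U + 1)) (by positivity) s (by omega) (by
    intro N hN
    have hlN := h1 N (by omega)
    have hN3 : 3 ≤ N := by omega
    have hN3' : (3 : ℝ) ≤ N := by exact_mod_cast hN3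
    have hXN : X < (N + 1) ^ 2 := by
      have : X < (s + 1) ^ 2 := by rw [hs]; exact Nat.lt_succ_sqrt' X
      refine this.trans_le ?_
      gcongr
    have hlX : L ≤ 4 * Real.log N := by
      rw [hL]
      have h5 : (X : ℝ) ≤ (N : ℝ) ^ 4 := by
        have h6 : (X : ℝ) ≤ ((N : ℝ) + 1) ^ 2 := by exact_mod_cast hXN.le
        nlinarith [sq_nonneg ((N : ℝ) ^ 2), sq_nonneg ((N : ℝ) - 1)]
      calc Real.log X ≤ Real.log ((N : ℝ) ^ 4) := Real.log_le_log hX0 h5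
        _ = 4 * Real.log N := by rw [Real.log_pow]; norm_num
    have hlN0 : 0 < Real.log N := by linarith
    have h7 := h0 N (by omega) (univ.filter (fun i : Fin N => (N + (i : ℕ)) ∈ S)) (by
      intro i hi
      rw [mem_filter] at hi
      apply hmono _ _ _ _ (hS _ hi.2)
      rw [← hL]
      calc L ^ W ≤ (4 * Real.log N) ^ W := pow_le_pow_left₀ (by linarith) hlX W
        _ ≤ (Real.log N ^ 2) ^ W := by
            apply pow_le_pow_left₀ (by positivity)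
            nlinarith
        _ = Real.log N ^ (2 * W) := by rw [← pow_mul])
    refine h7.trans ?_
    have h8 : L ^ (U + 1) ≤ 4 ^ (U + 1) * Real.log N ^ (U + 1) := by
      rw [← mul_pow]
      exact pow_le_pow_left₀ (by linarith) hlX _
    rw [div_mul_eq_mul_div, div_le_div_iff₀ (by positivity) hLU1]
    calc (N : ℝ) * L ^ (U + 1) ≤ N * (4 ^ (U + 1) * Real.log N ^ (U + 1)) := by gcongr
      _ = _ := by ring) X
  have hsub : S ⊆ (range (X + 1)).filter (fun n => n ∈ S) := by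
    intro n hn
    rw [mem_filter, mem_range]
    have := mem_Icc.mp (hSX hn)
    exact ⟨by omega, hn⟩
  have hc : (S.card : ℝ) ≤ (((range (X + 1)).filter (fun n => n ∈ S)).card : ℝ) := by
    exact_mod_cast card_le_card hsub
  refine (hc.trans hd).trans ?_
  have hss : (s : ℝ) ≤ √(X : ℝ) := by
    rw [hs]
    exact Real.nat_sqrt_le_real_sqrt
  have hsq : √(X : ℝ) * √(X : ℝ) = X := Real.mul_self_sqrt hX0.le
  have hsq0 : 0 ≤ √(X : ℝ) := Real.sqrt_nonneg _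
  have t1 : 2 * (s : ℝ) ≤ X / (2 * L ^ U) := by
    rw [le_div_iff₀ (by positivity)]
    calc 2 * (s : ℝ) * (2 * L ^ U) = s * (4 * L ^ U) := by ring
      _ ≤ √(X : ℝ) * √(X : ℝ) := by gcongr
      _ = X := hsq
  have t2 : 4 * (4 ^ (U + 1) / L ^ (U + 1)) * X ≤ X / (2 * L ^ U) := by
    rw [le_div_iff₀ (by positivity)]
    have e5 : 4 * ((4 : ℝ) ^ (U + 1) / L ^ (U + 1)) * X * (2 * L ^ U) = (2 * 4 ^ (U + 2)) * X / L := by
      rw [pow_succ L U, pow_succ (4 : ℝ) (U + 1)]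
      field_simp
    rw [e5, div_le_iff₀ (by linarith)]
    calc 2 * 4 ^ (U + 2) * (X : ℝ) ≤ L * X := by gcongr
      _ = X * L := by ring
  rw [← hL]
  calc 2 * (s : ℝ) + 4 * (4 ^ (U + 1) / L ^ (U + 1)) * X ≤ X / (2 * L ^ U) + X / (2 * L ^ U) := add_le_add t1 t2
    _ = X / L ^ U := by
        field_simp
        norm_num

/-- **All the even integers near almost all values.** -/
theorem near_all {F : Finset ℝ} {a : ℝ → ℝ} {c : ℝ} (h : GH F a c) (A W U m₀ : ℕ) (ε : ℝ) (hε : 0 < ε)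
    (P : ℕ → Prop) (hP : ∀ m : ℕ, m₀ ≤ m → 2 ∣ m → Pool.Agent.W93.PG.WinP ε A m → P m) :
    ∃ X₀ : ℕ, ∀ X : ℕ, X₀ ≤ X → ∀ S : Finset ℕ, S ⊆ Icc 1 X → (∀ n ∈ S, ∃ m : ℕ, 0 < m ∧ Even m ∧
      |(m : ℝ) - ∑ x ∈ F, a x * (n : ℝ) ^ x| ≤ Real.log X ^ W ∧ ¬ P m) → (S.card : ℝ) ≤ X / Real.log X ^ U := by
  refine all_of_blocks U W (fun w n => ∃ m : ℕ, 0 < m ∧ Even m ∧
      |(m : ℝ) - ∑ x ∈ F, a x * (n : ℝ) ^ x| ≤ w ∧ ¬ P m) ?_ ?_
  · rintro w w' hw n ⟨m, m1, m2, m3, m4⟩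
    exact ⟨m, m1, m2, m3.trans hw, m4⟩
  · intro U W
    obtain ⟨N₀, h0⟩ := near_block h A W U m₀ ε hε P hP
    refine ⟨N₀, fun N hN S hS => h0 N hN S ?_⟩
    intro i hi
    obtain ⟨m, m1, m2, m3, m4⟩ := hS i hi
    refine ⟨m, m1, m2, ?_, m4⟩
    rw [gp_zero]
    push_cast at m3
    exact m3

end Pool.Agent.N666.PS
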