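import Pool.Agent.N666.PS.Fam

set_option autoImplicit false

/-!
All the integers near almost all values of generalised polynomials: power savings.
-/

namespace Pool.Agent.N666.PS

open Finset Filter
open Pool.Agent.TH935.GF (En)

/-- the union over small additional shifts, for integer families, with power savings -/
theorem near_pow {F : Finset ℝ} {a : ℝ → ℝ} {c : ℝ} (h : GH F a c) :
    ∃ r : ℕ, 1 ≤ r ∧ ∀ B : ℕ, ∃ B' : ℕ, B ≤ B' ∧ ∀ δ : ℝ, 0 < δ → ∃ δ' : ℝ, 0 < δ' ∧ δ' ≤ δ ∧ ∃ N₁ : ℕ,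
      ∀ N : ℕ, N₁ ≤ N → ∀ bad : ℤ → Prop,
      (∀ (x : ℕ) (s : ℕ → ℤ), (∀ m ∈ Icc 1 x, |s m| ≤ B' * N) →
        (((((Fintype.piFinset fun _ : Fin r => Icc 1 x) ×ˢ (Fintype.piFinset fun _ : Fin r => Icc 1 x)).filter
          (fun q => ∑ i, s (q.1 i) = ∑ i, s (q.2 i))).card : ℕ) : ℝ) * N ≤ (N : ℝ) ^ δ * (x : ℝ) ^ (2 * r) →
        ∀ S : Finset ℕ, S ⊆ Icc 1 x → (∀ m ∈ S, bad (s m)) → (S.card : ℝ) ≤ x * (N : ℝ) ^ (-δ)) →
      ∀ X : ℕ, (X : ℝ) ^ c ≤ B * N → (N : ℝ) ^ (1 - δ') ≤ (X : ℝ) ^ c → ∀ t : ℤ, |t| ≤ B * N →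
        ∀ S : Finset ℕ, S ⊆ Icc 1 X →
        (∀ m ∈ S, ∃ b : ℤ, |(b : ℝ) - t - gp F a 0 m| ≤ (N : ℝ) ^ δ' ∧ bad b) →
        (S.card : ℝ) ≤ X * (N : ℝ) ^ (-δ') := by
  classical
  have hc := h.one
  obtain ⟨r, hr1, h1⟩ := energy_full h
  obtain ⟨K, hK, h2⟩ := h1 r le_rfl
  obtain ⟨D, hD⟩ := gp_abs h
  refine ⟨r, hr1, fun B => ⟨B + D * B + 1, by omega, fun δ₀ hδ₀ => ?_⟩⟩
  -- the loss in the energy
  have hr1' : (1 : ℝ) ≤ r := by exact_mod_cast hr1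
  obtain ⟨δ, hδd⟩ : ∃ δ : ℝ, δ = min δ₀ 1 := ⟨_, rfl⟩
  have hδ : 0 < δ := by rw [hδd]; exact lt_min hδ₀ one_pos
  have hδle : δ ≤ δ₀ := by rw [hδd]; exact min_le_left _ _
  have hδ1 : δ ≤ 1 := by rw [hδd]; exact min_le_right _ _
  obtain ⟨δ', hδ'd⟩ : ∃ δ' : ℝ, δ' = δ / (4 * (r + 1)) := ⟨_, rfl⟩
  have hδ' : 0 < δ' := by rw [hδ'd]; positivity
  have hδ'r : (2 * r + 1) * δ' ≤ δ / 2 := by
    rw [hδ'd, mul_div_assoc', div_le_div_iff₀ (by positivity) (by norm_num)]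
    nlinarith
  have hδ'2 : δ' ≤ δ / 8 := by
    rw [hδ'd, div_le_div_iff₀ (by positivity) (by norm_num)]
    nlinarith
  -- large `N`
  have hev : ∀ᶠ N : ℕ in atTop, (K * (30 * r) ^ (2 * r)) * (1 + Real.log N) ^ (2 * r) ≤ (N : ℝ) ^ (δ / 2) ∧
      7 ≤ (N : ℝ) ^ (δ / 2) := by
    have g1 := tendsto_natCast_atTop_atTop (R := ℝ)
    have g2 : ∀ᶠ M : ℝ in atTop, (K * (30 * r) ^ (2 * r)) * (1 + Real.log M) ^ (2 * r) ≤ M ^ (δ / 2) := by
      filter_upwards [ev_log (2 * r) (δ / 4) (by positivity), ev_pow (δ / 4) (δ / 2) (K * (30 * r) ^ (2 * r)) (by linarith)]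
        with M k1 k2
      calc (K * (30 * r) ^ (2 * r)) * (1 + Real.log M) ^ (2 * r) ≤ (K * (30 * r) ^ (2 * r)) * M ^ (δ / 4) := by gcongr
        _ ≤ M ^ (δ / 2) := k2
    have g3 : ∀ᶠ M : ℝ in atTop, 7 ≤ M ^ (δ / 2) := (tendsto_rpow_atTop (by positivity)).eventually_ge_atTop 7
    exact (g1.eventually g2).and (g1.eventually g3)
  obtain ⟨n₁, hn₁⟩ := eventually_atTop.mp hev
  refine ⟨δ', hδ', by linarith, n₁ + B + 3, ?_⟩
  intro N hN bad hbad X hX1 hX2 t ht S hSX hS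
  obtain ⟨c1, c2⟩ := hn₁ N (by omega)
  have hN3 : (3 : ℝ) ≤ N := by exact_mod_cast (by omega : 3 ≤ N)
  have hN0 : (0 : ℝ) < N := by linarith
  have hN1 : (1 : ℝ) ≤ N := by linarith
  have hX : 1 ≤ X := by
    by_contra h0
    have h0' : X = 0 := by omega
    rw [h0', Nat.cast_zero, Real.zero_rpow (by linarith)] at hX2
    have : 0 < (N : ℝ) ^ (1 - δ') := Real.rpow_pos_of_pos hN0 _
    linarith
  have hXr : (1 : ℝ) ≤ X := by exact_mod_cast hX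
  have hX0 : (0 : ℝ) < X := by linarith
  obtain ⟨M, hM⟩ : ∃ M : ℝ, M = (N : ℝ) ^ δ' := ⟨_, rfl⟩
  have hM1 : 1 ≤ M := by rw [hM]; exact Real.one_le_rpow hN1 hδ'.le
  obtain ⟨Q, hQ⟩ : ∃ Q : ℕ, Q = ⌈M⌉₊ + 1 := ⟨_, rfl⟩
  have hQ1 : M + 1 ≤ Q := by rw [hQ]; push_cast; linarith [Nat.le_ceil M]
  have hQ2 : (Q : ℝ) ≤ M + 2 := by
    rw [hQ]; push_cast
    linarith [Nat.ceil_lt_add_one (by linarith : 0 ≤ M)]
  obtain ⟨s, hs⟩ : ∃ s : ℤ → ℕ → ℤ, s = fun (τ : ℤ) (m : ℕ) => t + ⌊gp F a 0 (m : ℝ)⌋ + τ := ⟨_, rfl⟩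
  have hsd : ∀ τ : ℤ, |τ| ≤ Q → ∀ m : ℕ, |(s τ m : ℝ) - t - gp F a 0 (m : ℝ)| ≤ 5 * M := by
    intro τ hτ m
    have g1 := Int.floor_le (gp F a 0 (m : ℝ))
    have g2 := Int.lt_floor_add_one (gp F a 0 (m : ℝ))
    have g4 : ((|τ| : ℤ) : ℝ) ≤ Q := by exact_mod_cast hτ
    rw [Int.cast_abs] at g4
    have g5 := abs_le.mp g4
    rw [hs]
    push_cast
    rw [abs_le]
    constructor <;> linarith [g5.1, g5.2]
  -- the energies
  have hen : ∀ τ : ℤ, |τ| ≤ Q → (En r (fun j : Fin X => s τ ((j : ℕ) + 1)) : ℝ) * N ≤ (N : ℝ) ^ δ * (X : ℝ) ^ (2 * r) := by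
    intro τ hτ
    have hlX : 1 + Real.log X ≤ 3 * (1 + Real.log N) := by
      have h3 : (X : ℝ) ≤ N ^ 2 := by
        calc (X : ℝ) = (X : ℝ) ^ (1 : ℝ) := (Real.rpow_one _).symm
          _ ≤ (X : ℝ) ^ c := Real.rpow_le_rpow_of_exponent_le hXr hc.le
          _ ≤ B * N := hX1
          _ ≤ N * N := by
              apply mul_le_mul_of_nonneg_right _ hN0.le
              exact_mod_cast (by omega : B ≤ N)
          _ = N ^ 2 := by ring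
      have h4 := Real.log_le_log hX0 h3
      rw [Real.log_pow] at h4
      push_cast at h4
      have := Real.log_nonneg hN1
      linarith
    have hlX0 : 0 ≤ Real.log X := Real.log_nonneg hXr
    have hlN0 : 0 ≤ Real.log N := Real.log_nonneg hN1
    have hEn : En r (fun j : Fin X => s τ ((j : ℕ) + 1)) = En r (fun j : Fin X => s τ ((j : ℕ) + 1) + -t) :=
      (Pool.Agent.R459.En_shift r _ (-t)).symm
    have h5 : (En r (fun j : Fin X => s τ ((j : ℕ) + 1)) : ℝ) ≤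
        cl r (fun i : Fin X => gp F a 0 (((i : ℕ) + 1 : ℕ) : ℝ)) (2 * r * (5 * M)) := by
      rw [hEn]
      exact_mod_cast En_le_cl r _ _ (5 * M) (fun i => by
        have := hsd τ hτ ((i : ℕ) + 1)
        push_cast at this ⊢
        rw [← sub_eq_add_neg]
        exact this)
    have h6 := h2 X hX (2 * r * (5 * M)) (by nlinarith)
    have h7 : 0 < (X : ℝ) ^ (2 * (r : ℝ) - c) := Real.rpow_pos_of_pos hX0 _
    have hXc : 0 < (X : ℝ) ^ c := Real.rpow_pos_of_pos hX0 _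
    have hNX : (N : ℝ) ≤ M * (X : ℝ) ^ c := by
      calc (N : ℝ) = (N : ℝ) ^ δ' * (N : ℝ) ^ (1 - δ') := by rw [← Real.rpow_add hN0]; simp
        _ ≤ M * (X : ℝ) ^ c := by rw [hM]; gcongr
    have hMp : M ^ (2 * r) * M ≤ (N : ℝ) ^ (δ / 2) := by
      rw [← pow_succ, hM, ← Real.rpow_natCast, ← Real.rpow_mul hN0.le]
      apply Real.rpow_le_rpow_of_exponent_le hN1
      push_cast
      linarith
    calc (En r (fun j : Fin X => s τ ((j : ℕ) + 1)) : ℝ) * N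
        ≤ (K * (2 * r * (5 * M)) ^ (2 * r) * (1 + Real.log X) ^ (2 * r) * (X : ℝ) ^ (2 * r - c)) * (M * (X : ℝ) ^ c) :=
          mul_le_mul (h5.trans h6) hNX hN0.le (by positivity)
      _ ≤ (K * (2 * r * (5 * M)) ^ (2 * r) * (3 * (1 + Real.log N)) ^ (2 * r) * (X : ℝ) ^ (2 * r - c)) *
          (M * (X : ℝ) ^ c) := by gcongr
      _ = ((K * (30 * r) ^ (2 * r)) * (1 + Real.log N) ^ (2 * r)) * (M ^ (2 * r) * M) *
          ((X : ℝ) ^ (2 * r - c) * (X : ℝ) ^ c) := by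
          rw [show 2 * (r : ℝ) * (5 * M) = (10 * r) * M by ring, mul_pow (10 * (r : ℝ)) M, mul_pow 3 (1 + Real.log (N : ℝ)),
            show (30 * (r : ℝ)) = (10 * r) * 3 by ring, mul_pow (10 * (r : ℝ)) 3]
          ring
      _ ≤ (N : ℝ) ^ (δ / 2) * (N : ℝ) ^ (δ / 2) * ((X : ℝ) ^ (2 * r - c) * (X : ℝ) ^ c) := by gcongr
      _ = (N : ℝ) ^ δ * (X : ℝ) ^ (2 * r) := by
          rw [← Real.rpow_add hN0, ← Real.rpow_add hX0]
          congr 1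
          · congr 1
            ring
          · rw [← Real.rpow_natCast]
            congr 1
            push_cast
            ring
  have key : ∀ τ : ℤ, |τ| ≤ Q → ∀ S : Finset ℕ, S ⊆ Icc 1 X → (∀ m ∈ S, bad (s τ m)) →
      (S.card : ℝ) ≤ X * (N : ℝ) ^ (-δ₀) := by
    intro τ hτ S hS1 hS2
    refine hbad X (s τ) ?_ ?_ S hS1 hS2
    · intro m hm
      rw [mem_Icc] at hm
      have g2 := abs_le.mp (hsd τ hτ m)
      have g3 := abs_le.mp (hD m hm.1)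
      have g4 : (m : ℝ) ^ c ≤ (X : ℝ) ^ c := by
        apply Real.rpow_le_rpow (by positivity) (by exact_mod_cast hm.2)
        linarith
      have g5 : ((|t| : ℤ) : ℝ) ≤ B * N := by exact_mod_cast ht
      rw [Int.cast_abs] at g5
      have g6 := abs_le.mp g5
      have g7 : (D : ℝ) * (m : ℝ) ^ c ≤ D * (B * N) := by gcongr; exact g4.trans hX1
      have g10 : 5 * M ≤ N := by
        have e1 : (N : ℝ) ^ (δ / 2) * M ≤ N := by
          rw [hM, ← Real.rpow_add hN0]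
          calc (N : ℝ) ^ (δ / 2 + δ') ≤ (N : ℝ) ^ (1 : ℝ) := Real.rpow_le_rpow_of_exponent_le hN1 (by linarith)
            _ = N := Real.rpow_one _
        nlinarith
      have g8 : |(s τ m : ℝ)| ≤ (B + D * B + 1) * N := by
        rw [abs_le]
        constructor
        · linarith [g2.1, g3.1, g6.1]
        · linarith [g2.2, g3.2, g6.2]
      have g9 : ((|s τ m| : ℤ) : ℝ) ≤ (((B + D * B + 1 : ℕ) * N : ℤ) : ℝ) := by
        rw [Int.cast_abs]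
        push_cast
        exact g8
      exact_mod_cast g9
    · have g1 : (((((Fintype.piFinset fun _ : Fin r => Icc 1 X) ×ˢ (Fintype.piFinset fun _ : Fin r => Icc 1 X)).filter
          (fun q => ∑ i, s τ (q.1 i) = ∑ i, s τ (q.2 i))).card : ℕ) : ℝ) ≤ En r (fun j : Fin X => s τ ((j : ℕ) + 1)) :=
        Nat.cast_le.mpr (energy_icc r X (s τ))
      calc _ ≤ (En r (fun j : Fin X => s τ ((j : ℕ) + 1)) : ℝ) * N := mul_le_mul_of_nonneg_right g1 hN0.le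
        _ ≤ (N : ℝ) ^ δ * (X : ℝ) ^ (2 * r) := hen τ hτ
        _ ≤ (N : ℝ) ^ δ₀ * (X : ℝ) ^ (2 * r) := by
            gcongr
  have hsub : S ⊆ (Icc (-(Q : ℤ)) Q).biUnion (fun τ => S.filter (fun m => bad (s τ m))) := by
    intro m hm
    obtain ⟨b, hb1, hb2⟩ := hS m hm
    rw [← hM] at hb1
    rw [mem_biUnion]
    refine ⟨b - t - ⌊gp F a 0 (m : ℝ)⌋, ?_, ?_⟩
    · rw [mem_Icc]
      have g1 := abs_le.mp hb1
      have g2 := Int.floor_le (gp F a 0 (m : ℝ))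
      have g3 := Int.lt_floor_add_one (gp F a 0 (m : ℝ))
      have g4 : ((b - t - ⌊gp F a 0 (m : ℝ)⌋ : ℤ) : ℝ) = (b : ℝ) - t - (⌊gp F a 0 (m : ℝ)⌋ : ℝ) := by
        push_cast; ring
      constructor
      · have : ((-(Q : ℤ) : ℤ) : ℝ) ≤ ((b - t - ⌊gp F a 0 (m : ℝ)⌋ : ℤ) : ℝ) := by
          rw [g4]; push_cast; linarith [g1.1]
        exact_mod_cast this
      · have : ((b - t - ⌊gp F a 0 (m : ℝ)⌋ : ℤ) : ℝ) ≤ ((Q : ℤ) : ℝ) := by
          rw [g4]; push_cast; linarith [g1.2]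
        exact_mod_cast this
    · rw [mem_filter]
      refine ⟨hm, ?_⟩
      have e2 : s (b - t - ⌊gp F a 0 (m : ℝ)⌋) m = b := by
        rw [hs]
        simp only
        ring
      rw [e2]
      exact hb2
  have hc1 : (S.card : ℝ) ≤ ∑ τ ∈ Icc (-(Q : ℤ)) Q, (X * (N : ℝ) ^ (-δ₀) : ℝ) := by
    have g1 : S.card ≤ ∑ τ ∈ Icc (-(Q : ℤ)) Q, (S.filter (fun m => bad (s τ m))).card :=
      (card_le_card hsub).trans card_biUnion_le
    have g2 : (S.card : ℝ) ≤ ∑ τ ∈ Icc (-(Q : ℤ)) Q, ((S.filter (fun m => bad (s τ m))).card : ℝ) := by exact_mod_cast g1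
    refine g2.trans (sum_le_sum fun τ hτ => ?_)
    exact key τ (abs_le.mpr (by rwa [mem_Icc] at hτ)) _ ((filter_subset _ _).trans hSX)
      (fun m hm => (mem_filter.mp hm).2)
  refine hc1.trans ?_
  rw [sum_const, nsmul_eq_mul]
  have hcard : (((Icc (-(Q : ℤ)) Q).card : ℕ) : ℝ) ≤ 7 * M := by
    rw [Int.card_Icc]
    have h9 : ((Q : ℤ) + 1 - -(Q : ℤ)).toNat = 2 * Q + 1 := by omega
    rw [h9]
    push_cast
    linarith
  have h8 : 7 * M * (N : ℝ) ^ (-δ₀) ≤ (N : ℝ) ^ (-δ') := by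
    have e1 : (N : ℝ) ^ (-δ₀) ≤ (N : ℝ) ^ (-δ) := Real.rpow_le_rpow_of_exponent_le hN1 (by linarith)
    calc 7 * M * (N : ℝ) ^ (-δ₀) ≤ (N : ℝ) ^ (δ / 2) * M * (N : ℝ) ^ (-δ) := by gcongr
      _ = (N : ℝ) ^ (δ / 2 + δ' + -δ) := by
          rw [hM, ← Real.rpow_add hN0, ← Real.rpow_add hN0]
      _ ≤ (N : ℝ) ^ (-δ') := Real.rpow_le_rpow_of_exponent_le hN1 (by linarith)
  calc (((Icc (-(Q : ℤ)) Q).card : ℕ) : ℝ) * (X * (N : ℝ) ^ (-δ₀))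
      ≤ (7 * M) * (X * (N : ℝ) ^ (-δ₀)) := by gcongr
    _ = X * (7 * M * (N : ℝ) ^ (-δ₀)) := by ring
    _ ≤ X * (N : ℝ) ^ (-δ') := by gcongr

end Pool.Agent.N666.PS
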