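import Pool.Agent.N666.PS.Full

set_option autoImplicit false

/-!
The values of a generalised polynomial in the residue classes modulo powers of two: upper bounds.
-/

namespace Pool.Agent.N666.PS

open Finset Filter
open Pool.Agent.H469R2.NK (e norm_e e_add conj_e e_zero e_nat)

lemma e_int (l : ℤ) : e l = 1 := by
  rcases le_total 0 l with h | h
  · obtain ⟨n, rfl⟩ := Int.eq_ofNat_of_zero_le h
    simpa using e_nat n
  · obtain ⟨n, hn⟩ := Int.eq_ofNat_of_zero_le (by omega : 0 ≤ -l)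
    have h1 : e (l : ℝ) * e (n : ℝ) = 1 := by
      rw [← e_add]
      have : (l : ℝ) + n = 0 := by
        have : (l : ℤ) + n = 0 := by omega
        exact_mod_cast this
      rw [this, e_zero]
    rw [e_nat, mul_one] at h1
    exact h1

lemma SX_neg (F : Finset ℝ) (a : ℝ → ℝ) (θ : ℝ) (X : ℕ) : ‖SX F a (-θ) X‖ = ‖SX F a θ X‖ := by
  have : SX F a (-θ) X = (starRingEnd ℂ) (SX F a θ X) := by
    unfold SX
    rw [map_sum]
    apply sum_congr rfl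
    intro q _
    rw [conj_e]
    congr 1
    ring
  rw [this, RCLike.norm_conj]

/-- The number of the values in a residue class is at most a mean value of exponential sums. -/
lemma count_le (F : Finset ℝ) (a : ℝ → ℝ) (X k R : ℕ) (hR : 1 ≤ R) (hRk : 8 * R ≤ 2 ^ k) (b : ℤ) (A : Finset ℕ)
    (hA : A ⊆ Icc 1 X) (hb : ∀ n ∈ A, (2 ^ k : ℤ) ∣ ⌊gp F a 0 (n : ℝ)⌋ - b) :
    (A.card : ℝ) ≤ 4 / R * ∑ m ∈ range R, ‖SX F a (m / 2 ^ k) X‖ := by
  have hR' : (1 : ℝ) ≤ R := by exact_mod_cast hR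
  have hR0 : (0 : ℝ) < R := by linarith
  have h2k : (0 : ℝ) < 2 ^ k := by positivity
  have hRk' : 8 * (R : ℝ) ≤ 2 ^ k := by exact_mod_cast hRk
  obtain ⟨y, hy⟩ : ∃ y : ℕ → ℝ, y = fun n : ℕ => (gp F a 0 (n : ℝ) - b) / 2 ^ k := ⟨_, rfl⟩
  -- lower bound for the kernel
  have hlow : ∀ n ∈ A, (R : ℝ) ^ 2 / 2 ≤ ‖∑ l ∈ range R, e (l * y n)‖ ^ 2 := by
    intro n hn
    obtain ⟨q, hq⟩ := hb n hn
    obtain ⟨u, hu⟩ : ∃ u : ℝ, u = (gp F a 0 (n : ℝ) - ⌊gp F a 0 (n : ℝ)⌋) / 2 ^ k := ⟨_, rfl⟩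
    have hyn : y n = q + u := by
      have h1 : ((⌊gp F a 0 (n : ℝ)⌋ : ℤ) : ℝ) - b = 2 ^ k * q := by exact_mod_cast hq
      rw [hy, hu]
      simp only
      field_simp
      linarith
    have h2 : ∀ l ∈ range R, e (l * y n) = e (l * (1 * u)) := by
      intro l _
      rw [hyn, mul_add, e_add, one_mul]
      have : e ((l : ℝ) * (q : ℝ)) = 1 := by
        have := e_int ((l : ℤ) * q)
        push_cast at this
        exact this
      rw [this, one_mul]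
    rw [sum_congr rfl h2]
    apply kernel_low R 1 u _ zero_le_one
    have h3 := Int.floor_le (gp F a 0 (n : ℝ))
    have h4 := Int.lt_floor_add_one (gp F a 0 (n : ℝ))
    have h5 : |u| ≤ 1 / 2 ^ k := by
      rw [hu, abs_div, abs_of_pos h2k, abs_of_nonneg (by linarith)]
      apply div_le_div_of_nonneg_right _ h2k.le
      linarith
    calc |u| * (1 * R) ≤ 1 / 2 ^ k * (1 * R) := by gcongr
      _ = R / 2 ^ k := by ring
      _ ≤ 1 / 8 := by
          rw [div_le_div_iff₀ h2k (by norm_num)]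
          linarith
  obtain ⟨g, hg⟩ : ∃ g : ℕ → ℝ, g = fun m : ℕ => ‖SX F a ((m : ℝ) / 2 ^ k) X‖ := ⟨_, rfl⟩
  have hg0 : ∀ m, 0 ≤ g m := by intro m; rw [hg]; positivity
  -- the exponential sums over `y`
  have hS : ∀ t : ℤ, ‖∑ n ∈ Icc 1 X, e (t * y n)‖ = ‖SX F a (t / 2 ^ k) X‖ := by
    intro t
    have h1 : ∀ n ∈ Icc 1 X, e (t * y n) = e (-(t * b / 2 ^ k)) * e (t / 2 ^ k * gp F a 0 (n : ℝ)) := by
      intro n _
      rw [← e_add, hy]
      congr 1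
      simp only
      ring
    rw [sum_congr rfl h1, ← mul_sum, norm_mul, norm_e, one_mul]
    rfl
  have hsum : ∑ n ∈ Icc 1 X, ‖∑ l ∈ range R, e (l * y n)‖ ^ 2 ≤ R * (2 * ∑ m ∈ range R, g m) := by
    have e1 : ((∑ n ∈ Icc 1 X, ‖∑ l ∈ range R, e (l * y n)‖ ^ 2 : ℝ) : ℂ) =
        ∑ l ∈ range R, ∑ l' ∈ range R, ∑ n ∈ Icc 1 X, e ((((l : ℤ) - (l' : ℤ) : ℤ) : ℝ) * y n) := by
      push_cast
      have e2 : ∀ n ∈ Icc 1 X, ((‖∑ l ∈ range R, e (l * y n)‖ : ℝ) : ℂ) ^ 2 =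
          ∑ l ∈ range R, ∑ l' ∈ range R, e (((l : ℝ) - (l' : ℝ)) * y n) := by
        intro n _
        have h1 : ∀ u : ℂ, ((‖u‖ : ℝ) : ℂ) ^ 2 = u * (starRingEnd ℂ) u := by
          intro u
          rw [Complex.mul_conj, Complex.normSq_eq_norm_sq]
          push_cast
          rfl
        rw [h1, map_sum, sum_mul_sum]
        apply sum_congr rfl
        intro l _
        apply sum_congr rfl
        intro l' _
        rw [conj_e, ← e_add]
        congr 1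
        ring
      rw [sum_congr rfl e2, sum_comm]
      apply sum_congr rfl
      intro l _
      rw [sum_comm]
    have e3 : (∑ n ∈ Icc 1 X, ‖∑ l ∈ range R, e (l * y n)‖ ^ 2 : ℝ) =
        ‖∑ l ∈ range R, ∑ l' ∈ range R, ∑ n ∈ Icc 1 X, e ((((l : ℤ) - (l' : ℤ) : ℤ) : ℝ) * y n)‖ := by
      rw [← e1, Complex.norm_real, Real.norm_eq_abs, abs_of_nonneg (sum_nonneg fun _ _ => by positivity)]
    rw [e3]
    calc ‖∑ l ∈ range R, ∑ l' ∈ range R, ∑ n ∈ Icc 1 X, e ((((l : ℤ) - (l' : ℤ) : ℤ) : ℝ) * y n)‖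
        ≤ ∑ l ∈ range R, ∑ l' ∈ range R, ‖∑ n ∈ Icc 1 X, e ((((l : ℤ) - (l' : ℤ) : ℤ) : ℝ) * y n)‖ := by
          refine (norm_sum_le _ _).trans (sum_le_sum fun l _ => norm_sum_le _ _)
      _ ≤ ∑ l ∈ range R, 2 * ∑ m ∈ range R, g m := by
          apply sum_le_sum
          intro l hl
          refine le_trans (le_of_eq ?_) (shift_sum R l (mem_range.mp hl) g hg0)
          apply sum_congr rfl
          intro l' _
          rw [hS, hg]
          split_ifs with hc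
          · simp only
            rw [Nat.cast_sub hc]
            push_cast
            rfl
          · simp only
            rw [Nat.cast_sub (by omega), ← SX_neg]
            congr 2
            push_cast
            ring
      _ = R * (2 * ∑ m ∈ range R, g m) := by
          rw [sum_const, card_range, nsmul_eq_mul]
  have h6 : (A.card : ℝ) * ((R : ℝ) ^ 2 / 2) ≤ R * (2 * ∑ m ∈ range R, g m) := by
    refine le_trans ?_ hsum
    rw [← nsmul_eq_mul, ← sum_const]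
    exact (sum_le_sum hlow).trans (sum_le_sum_of_subset_of_nonneg hA (fun _ _ _ => by positivity))
  have h7 : ∑ m ∈ range R, ‖SX F a (m / 2 ^ k) X‖ = ∑ m ∈ range R, g m := by
    rw [hg]
  rw [h7]
  have h8 : (A.card : ℝ) * ((R : ℝ) ^ 2 / 2) ≤ (4 / R * ∑ m ∈ range R, g m) * ((R : ℝ) ^ 2 / 2) := by
    refine h6.trans (le_of_eq ?_)
    field_simp
    ring
  exact le_of_mul_le_mul_right h8 (by positivity)

/-- **Residue classes modulo `2 ^ k`.** -/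
theorem count_res {F : Finset ℝ} {a : ℝ → ℝ} {c : ℝ} (h : GH F a c) :
    ∃ η K : ℝ, 0 < η ∧ η ≤ 1 / 4 ∧ 0 < K ∧ ∀ X : ℕ, 1 ≤ X → ∀ k : ℕ, (2 : ℝ) ^ k ≤ (X : ℝ) ^ η → ∀ (b : ℤ) (A : Finset ℕ),
      A ⊆ Icc 1 X → (∀ n ∈ A, (2 ^ k : ℤ) ∣ ⌊gp F a 0 (n : ℝ)⌋ - b) → (A.card : ℝ) * 2 ^ k ≤ K * X := by
  obtain ⟨η₀, C, hη₀, hη₀1, hC, h1⟩ := exp_full h
  have hc := h.one
  obtain ⟨η, hη⟩ : ∃ η : ℝ, η = η₀ / 4 := ⟨_, rfl⟩
  obtain ⟨s, hs⟩ : ∃ s : ℝ, s = η₀ / 2 := ⟨_, rfl⟩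
  have hη0 : 0 < η := by rw [hη]; linarith
  have hs0 : 0 < s := by rw [hs]; linarith
  refine ⟨η, 32 + 8 * C * (1 + 1 / s), hη0, by rw [hη]; linarith, by positivity, ?_⟩
  intro X hX k hk b A hA hb
  have hX1 : (1 : ℝ) ≤ X := by exact_mod_cast hX
  have hX0 : (0 : ℝ) < X := by linarith
  have h2k : (0 : ℝ) < 2 ^ k := by positivity
  have hAX : (A.card : ℝ) ≤ X := by
    have := card_le_card hA
    rw [Nat.card_Icc, Nat.add_sub_cancel] at this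
    exact_mod_cast this
  have hCs : 0 ≤ 8 * C * (1 + 1 / s) := by positivity
  rcases Nat.lt_or_ge k 3 with hk3 | hk3
  · have h2 : (2 : ℝ) ^ k ≤ 8 := by
      calc (2 : ℝ) ^ k ≤ 2 ^ 3 := pow_le_pow_right₀ (by norm_num) hk3.le
        _ = 8 := by norm_num
    calc (A.card : ℝ) * 2 ^ k ≤ X * 8 := by gcongr
      _ ≤ (32 + 8 * C * (1 + 1 / s)) * X := by nlinarith
  obtain ⟨R, hR⟩ : ∃ R : ℕ, R = 2 ^ (k - 3) := ⟨_, rfl⟩
  have hR1 : 1 ≤ R := by rw [hR]; exact Nat.one_le_two_pow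
  have hRk : 8 * R = 2 ^ k := by
    rw [hR, show 8 = 2 ^ 3 by norm_num, ← pow_add]
    congr 1
    omega
  have hRk' : 8 * (R : ℝ) = 2 ^ k := by exact_mod_cast hRk
  have hR0 : (1 : ℝ) ≤ R := by exact_mod_cast hR1
  have hlog : 1 + Real.log X ≤ (1 + 1 / s) * (X : ℝ) ^ s := by
    have h3 := Real.log_le_rpow_div hX0.le hs0
    have h4 : (1 : ℝ) ≤ (X : ℝ) ^ s := Real.one_le_rpow hX1 hs0.le
    have h5 : (X : ℝ) ^ s / s = 1 / s * (X : ℝ) ^ s := by ring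
    rw [h5] at h3
    nlinarith
  obtain ⟨L, hL⟩ : ∃ L : ℝ, L = 1 + Real.log X := ⟨_, rfl⟩
  have hL1 : 1 ≤ L := by rw [hL]; linarith [Real.log_nonneg hX1]
  rw [← hL] at hlog
  have h2 := count_le F a X k R hR1 hRk.le b A hA hb
  have h3 : ∀ m ∈ Ioo 0 R, ‖SX F a (m / 2 ^ k) X‖ ≤ C * L * (2 ^ k + (X : ℝ) ^ (1 - η₀)) := by
    intro m hm
    rw [mem_Ioo] at hm
    have hm1 : (1 : ℝ) ≤ m := by exact_mod_cast hm.1
    have hmR : (m : ℝ) ≤ R := by exact_mod_cast hm.2.le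
    have hθ : 0 < (m : ℝ) / 2 ^ k := by positivity
    have hθ1 : (m : ℝ) / 2 ^ k ≤ 1 := by
      rw [div_le_one h2k]
      linarith
    have h4 := h1 X hX _ hθ hθ1
    rw [← hL] at h4
    refine h4.trans ?_
    have h5 : ((m : ℝ) / 2 ^ k) ^ (-(1 / c)) ≤ 2 ^ k := by
      have h6 : 1 / (2 : ℝ) ^ k ≤ (m : ℝ) / 2 ^ k := by gcongr
      calc ((m : ℝ) / 2 ^ k) ^ (-(1 / c)) ≤ ((m : ℝ) / 2 ^ k) ^ (-1 : ℝ) := by
            apply Real.rpow_le_rpow_of_exponent_ge hθ hθ1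
            have : 1 / c ≤ 1 := by rw [div_le_one (by linarith)]; exact hc.le
            linarith
        _ ≤ (1 / (2 : ℝ) ^ k) ^ (-1 : ℝ) := by
            apply Real.rpow_le_rpow_of_nonpos (by positivity) h6 (by norm_num)
        _ = 2 ^ k := by rw [Real.rpow_neg_one, one_div, inv_inv]
    gcongr
  have h4 : ∑ m ∈ range R, ‖SX F a (m / 2 ^ k) X‖ ≤ X + R * (C * L * (2 ^ k + (X : ℝ) ^ (1 - η₀))) := by
    have hr' : range R = insert 0 (Ioo 0 R) := by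
      ext m
      simp only [mem_range, mem_insert, mem_Ioo]
      omega
    rw [hr', sum_insert (by simp)]
    gcongr
    · exact SX_triv _ _ _ _
    · calc ∑ m ∈ Ioo 0 R, ‖SX F a (m / 2 ^ k) X‖ ≤ ∑ m ∈ Ioo 0 R, C * L * (2 ^ k + (X : ℝ) ^ (1 - η₀)) := sum_le_sum h3
        _ = (Ioo 0 R).card * (C * L * (2 ^ k + (X : ℝ) ^ (1 - η₀))) := by rw [sum_const, nsmul_eq_mul]
        _ ≤ _ := by
            have h14 : (((Ioo 0 R).card : ℕ) : ℝ) ≤ R := by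
              rw [Nat.card_Ioo]
              exact_mod_cast (by omega : R - 0 - 1 ≤ R)
            have : 0 ≤ C * L * (2 ^ k + (X : ℝ) ^ (1 - η₀)) := by positivity
            gcongr
  have h5 : (A.card : ℝ) * 2 ^ k ≤ 32 * X + 4 * (C * L * (2 ^ k * 2 ^ k + 2 ^ k * (X : ℝ) ^ (1 - η₀))) := by
    calc (A.card : ℝ) * 2 ^ k ≤ (4 / R * (X + R * (C * L * (2 ^ k + (X : ℝ) ^ (1 - η₀))))) * 2 ^ k := by
          gcongr
          exact h2.trans (by gcongr)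
      _ = 4 / R * (8 * R) * X + 4 * (C * L * (2 ^ k + (X : ℝ) ^ (1 - η₀))) * 2 ^ k := by
          rw [hRk']
          field_simp
      _ = _ := by
          field_simp
          ring
  have h6 : (2 : ℝ) ^ k * 2 ^ k ≤ (X : ℝ) ^ (1 - s) := by
    calc (2 : ℝ) ^ k * 2 ^ k ≤ (X : ℝ) ^ η * (X : ℝ) ^ η := by gcongr
      _ = (X : ℝ) ^ (η + η) := by rw [← Real.rpow_add hX0]
      _ ≤ (X : ℝ) ^ (1 - s) := by
          apply Real.rpow_le_rpow_of_exponent_le hX1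
          rw [hη, hs]
          linarith
  have h7 : (2 : ℝ) ^ k * (X : ℝ) ^ (1 - η₀) ≤ (X : ℝ) ^ (1 - s) := by
    calc (2 : ℝ) ^ k * (X : ℝ) ^ (1 - η₀) ≤ (X : ℝ) ^ η * (X : ℝ) ^ (1 - η₀) := by gcongr
      _ = (X : ℝ) ^ (η + (1 - η₀)) := by rw [← Real.rpow_add hX0]
      _ ≤ (X : ℝ) ^ (1 - s) := by
          apply Real.rpow_le_rpow_of_exponent_le hX1
          rw [hη, hs]
          linarith
  have h8 : (X : ℝ) ^ s * (X : ℝ) ^ (1 - s) = X := by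
    rw [← Real.rpow_add hX0]
    simp
  have hXs : 0 ≤ (X : ℝ) ^ (1 - s) := by positivity
  calc (A.card : ℝ) * 2 ^ k ≤ 32 * X + 4 * (C * L * (2 ^ k * 2 ^ k + 2 ^ k * (X : ℝ) ^ (1 - η₀))) := h5
    _ ≤ 32 * X + 4 * (C * ((1 + 1 / s) * (X : ℝ) ^ s) * ((X : ℝ) ^ (1 - s) + (X : ℝ) ^ (1 - s))) := by gcongr
    _ = 32 * X + 8 * C * (1 + 1 / s) * ((X : ℝ) ^ s * (X : ℝ) ^ (1 - s)) := by ring
    _ = (32 + 8 * C * (1 + 1 / s)) * X := by rw [h8]; ring

end Pool.Agent.N666.PS
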