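import Pool.Agent.N666.PS.Fam
import Pool.Agent.TH646.LV.Level

set_option autoImplicit false

/-!
All the residues near almost all values of generalised polynomials: an abstract form.
-/

namespace Pool.Agent.N666.PS

open Finset Filter
open Pool.Agent.TH935.GF (En)

/-- the union over small additional shifts, for integer families -/
theorem near_gen {F : Finset ℝ} {a : ℝ → ℝ} {c : ℝ} (h : GH F a c) :
    ∃ r : ℕ, 1 ≤ r ∧ ∀ B C W U : ℕ, ∃ B' C' U' N₁ : ℕ, ∀ N : ℕ, N₁ ≤ N → ∀ bad : ℤ → Prop,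
      (∀ (x : ℕ) (s : ℕ → ℤ), (∀ m ∈ Icc 1 x, |s m| ≤ B' * N) →
        (((((Fintype.piFinset fun _ : Fin r => Icc 1 x) ×ˢ (Fintype.piFinset fun _ : Fin r => Icc 1 x)).filter
          (fun q => ∑ i, s (q.1 i) = ∑ i, s (q.2 i))).card : ℕ) : ℝ) * N ≤ Real.log N ^ C' * (x : ℝ) ^ (2 * r) →
        ∀ S : Finset ℕ, S ⊆ Icc 1 x → (∀ m ∈ S, bad (s m)) → (S.card : ℝ) ≤ x / Real.log N ^ U') →
      ∀ X : ℕ, (X : ℝ) ^ c ≤ B * N → (N : ℝ) ≤ Real.log N ^ C * (X : ℝ) ^ c → ∀ t : ℤ, |t| ≤ B * N →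
        ∀ S : Finset ℕ, S ⊆ Icc 1 X →
        (∀ m ∈ S, ∃ b : ℤ, |(b : ℝ) - t - gp F a 0 m| ≤ Real.log N ^ W ∧ bad b) →
        (S.card : ℝ) ≤ X / Real.log N ^ U := by
  classical
  obtain ⟨r, hr1, h1⟩ := fam_energy h
  obtain ⟨D, hD⟩ := gp_abs h
  refine ⟨r, hr1, fun B C W U => ?_⟩
  obtain ⟨n1, e1⟩ := h1 r le_rfl B C (W + 2)
  obtain ⟨N₃, h3⟩ := Pool.Agent.H373R2.T7.ev_L' 5
  obtain ⟨N₄, h4⟩ := Pool.Agent.H373R2.T7.ev_log' (W + 2) 1
  refine ⟨B + D * B + 1, 2 * r * (W + 2) + 2 * r + C + 1, U + (W + 2), n1 + N₃ + N₄ + 3, ?_⟩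
  intro N hN bad hbad X hX1 hX2 t ht S hSX hS
  have hL := h3 N (by omega)
  have hW := h4 N (by omega)
  have hN3 : (3 : ℝ) ≤ N := by exact_mod_cast (by omega : 3 ≤ N)
  have hN0 : (0 : ℝ) < N := by linarith
  have e1 := e1 N (by omega) X hX1 hX2 t
  obtain ⟨L, hLd⟩ : ∃ L : ℝ, L = Real.log N := ⟨_, rfl⟩
  rw [← hLd] at hL hW hS hX2 hbad e1 ⊢
  have hLW1 : 1 ≤ L ^ W := one_le_pow₀ (by linarith)
  obtain ⟨Q, hQ⟩ : ∃ Q : ℕ, Q = ⌈L ^ W⌉₊ + 1 := ⟨_, rfl⟩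
  have hQ1 : L ^ W + 1 ≤ Q := by rw [hQ]; push_cast; linarith [Nat.le_ceil (L ^ W)]
  have hQ2 : (Q : ℝ) ≤ L ^ W + 2 := by
    rw [hQ]; push_cast
    linarith [Nat.ceil_lt_add_one (by linarith : 0 ≤ L ^ W)]
  have p1 : L ^ W * 1 ≤ L ^ W * L := mul_le_mul_of_nonneg_left (by linarith) (by linarith)
  have p2 : 1 * L ≤ L ^ W * L := mul_le_mul_of_nonneg_right hLW1 (by linarith)
  have p3 : L ^ W * L * 5 ≤ L ^ W * L * L := mul_le_mul_of_nonneg_left hL (by linarith)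
  have p4 : L ^ (W + 2) = L ^ W * L * L := by ring
  have hQ3 : (Q : ℝ) + 1 ≤ L ^ (W + 2) := by
    rw [p4]
    linarith
  have hsN : √(N : ℝ) ≤ N := by
    rw [Real.sqrt_le_left (by linarith)]
    nlinarith
  have hQN : L ^ (W + 2) ≤ N := by linarith
  obtain ⟨s, hs⟩ : ∃ s : ℤ → ℕ → ℤ, s = fun (τ : ℤ) (m : ℕ) => t + ⌊gp F a 0 (m : ℝ)⌋ + τ := ⟨_, rfl⟩
  have hsd : ∀ τ : ℤ, |τ| ≤ Q → ∀ m : ℕ, |(s τ m : ℝ) - t - gp F a 0 (m : ℝ)| ≤ L ^ (W + 2) := by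
    intro τ hτ m
    have g1 := Int.floor_le (gp F a 0 (m : ℝ))
    have g2 := Int.lt_floor_add_one (gp F a 0 (m : ℝ))
    have g4 : ((|τ| : ℤ) : ℝ) ≤ Q := by exact_mod_cast hτ
    rw [Int.cast_abs] at g4
    have g5 := abs_le.mp g4
    refine le_trans ?_ hQ3
    rw [hs]
    push_cast
    rw [abs_le]
    constructor <;> linarith [g5.1, g5.2]
  have key : ∀ τ : ℤ, |τ| ≤ Q → ∀ S : Finset ℕ, S ⊆ Icc 1 X → (∀ m ∈ S, bad (s τ m)) →
      (S.card : ℝ) ≤ X / L ^ (U + (W + 2)) := by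
    intro τ hτ S hS1 hS2
    have g1 := e1 (fun j => s τ ((j : ℕ) + 1)) (fun j => hsd τ hτ _)
    refine hbad X (s τ) ?_ ?_ S hS1 hS2
    · intro m hm
      rw [mem_Icc] at hm
      have g2 := abs_le.mp (hsd τ hτ m)
      have g3 := abs_le.mp (hD m hm.1)
      have g4 : (m : ℝ) ^ c ≤ (X : ℝ) ^ c := by
        apply Real.rpow_le_rpow (by positivity) (by exact_mod_cast hm.2)
        linarith [h.one]
      have g5 : ((|t| : ℤ) : ℝ) ≤ B * N := by exact_mod_cast ht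
      rw [Int.cast_abs] at g5
      have g6 := abs_le.mp g5
      have g7 : (D : ℝ) * (m : ℝ) ^ c ≤ D * (B * N) := by gcongr; exact g4.trans hX1
      have g8 : |(s τ m : ℝ)| ≤ (B + D * B + 1) * N := by
        rw [abs_le]
        constructor
        · linarith [g2.1, g3.1, g6.1]
        · linarith [g2.2, g3.2, g6.2]
      have g9 : ((|s τ m| : ℤ) : ℝ) ≤ (((B + D * B + 1 : ℕ) * N : ℤ) : ℝ) := by
        rw [Int.cast_abs]
        push_cast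
        exact g8
      exact_mod_cast g9
    · refine le_trans ?_ g1.2
      apply mul_le_mul_of_nonneg_right _ hN0.le
      exact Nat.cast_le.mpr (energy_icc r X (s τ))
  have hsub : S ⊆ (Icc (-(Q : ℤ)) Q).biUnion (fun τ => S.filter (fun m => bad (s τ m))) := by
    intro m hm
    obtain ⟨b, hb1, hb2⟩ := hS m hm
    rw [mem_biUnion]
    refine ⟨b - t - ⌊gp F a 0 (m : ℝ)⌋, ?_, ?_⟩
    · rw [mem_Icc]
      have g1 := abs_le.mp hb1
      have g2 := Int.floor_le (gp F a 0 (m : ℝ))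
      have g3 := Int.lt_floor_add_one (gp F a 0 (m : ℝ))
      have g4 : ((b - t - ⌊gp F a 0 (m : ℝ)⌋ : ℤ) : ℝ) = (b : ℝ) - t - (⌊gp F a 0 (m : ℝ)⌋ : ℝ) := by
        push_cast; ring
      constructor
      · have : ((-(Q : ℤ) : ℤ) : ℝ) ≤ ((b - t - ⌊gp F a 0 (m : ℝ)⌋ : ℤ) : ℝ) := by
          rw [g4]; push_cast; linarith [g1.1]
        exact_mod_cast this
      · have : ((b - t - ⌊gp F a 0 (m : ℝ)⌋ : ℤ) : ℝ) ≤ ((Q : ℤ) : ℝ) := by
          rw [g4]; push_cast; linarith [g1.2]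
        exact_mod_cast this
    · rw [mem_filter]
      refine ⟨hm, ?_⟩
      have e2 : s (b - t - ⌊gp F a 0 (m : ℝ)⌋) m = b := by
        rw [hs]
        simp only
        ring
      rw [e2]
      exact hb2
  have hc1 : (S.card : ℝ) ≤ ∑ τ ∈ Icc (-(Q : ℤ)) Q, (X / L ^ (U + (W + 2)) : ℝ) := by
    have g1 : S.card ≤ ∑ τ ∈ Icc (-(Q : ℤ)) Q, (S.filter (fun m => bad (s τ m))).card :=
      (card_le_card hsub).trans card_biUnion_le
    have g2 : (S.card : ℝ) ≤ ∑ τ ∈ Icc (-(Q : ℤ)) Q, ((S.filter (fun m => bad (s τ m))).card : ℝ) := by exact_mod_cast g1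
    refine g2.trans (sum_le_sum fun τ hτ => ?_)
    exact key τ (abs_le.mpr (by rwa [mem_Icc] at hτ)) _ ((filter_subset _ _).trans hSX)
      (fun m hm => (mem_filter.mp hm).2)
  refine hc1.trans ?_
  rw [sum_const, nsmul_eq_mul]
  have hcard : (((Icc (-(Q : ℤ)) Q).card : ℕ) : ℝ) ≤ L ^ (W + 2) := by
    rw [Int.card_Icc]
    have h9 : ((Q : ℤ) + 1 - -(Q : ℤ)).toNat = 2 * Q + 1 := by omega
    rw [h9, p4]
    push_cast
    linarith
  have hLk : 0 < L ^ (W + 2) := by positivity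
  calc (((Icc (-(Q : ℤ)) Q).card : ℕ) : ℝ) * (X / L ^ (U + (W + 2)))
      ≤ L ^ (W + 2) * (X / L ^ (U + (W + 2))) := by gcongr
    _ = X / L ^ U := by
        rw [mul_div_assoc', div_eq_div_iff (by positivity) (by positivity)]
        ring

end Pool.Agent.N666.PS
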